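import Pool.Agent.TH48.Defs

/-!
# A0 (SHORT): closed form of the counts of paths; `u = 1 - z`
Induction on `n`; `(2 : ℂ[X]).eval z = 2`: `Polynomial.eval_ofNat`.
-/

set_option autoImplicit false

namespace Pool.Agent.TH48

open Polynomial

theorem path_eval (n : ℕ) (z : ℂ) :
    z * (PP n).1.eval z = (-1) ^ (n + 1) * ((1 - z) ^ (n + 1) - (1 - z)) ∧
    z * (PP n).2.eval z = (-1) ^ (n + 1) * ((1 - z) ^ (n + 1) - 1) := by
  induction n with
  | zero =>
    constructor
    · show z * (0 : ℂ[X]).eval z = _
      rw [eval_zero]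
      ring
    · show z * (1 : ℂ[X]).eval z = _
      rw [eval_one]
      ring
  | succ n ih =>
    obtain ⟨h1, h2⟩ := ih
    constructor
    · show z * ((X - 1) * (PP n).2 : ℂ[X]).eval z = _
      rw [eval_mul, eval_sub, eval_X, eval_one]
      have e : z * ((z - 1) * eval z (PP n).2) = (z - 1) * (z * eval z (PP n).2) := by ring
      rw [e, h2]
      ring
    · show z * ((PP n).1 + (X - 2) * (PP n).2 : ℂ[X]).eval z = _
      rw [eval_add, eval_mul, eval_sub, eval_X, eval_ofNat]
      have e : z * (eval z (PP n).1 + (z - 2) * eval z (PP n).2) =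
          z * eval z (PP n).1 + (z - 2) * (z * eval z (PP n).2) := by ring
      rw [e, h1, h2]
      ring

end Pool.Agent.TH48
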