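import Mathlib

/-!
# A1 (SHORT): ratio of two positive functions
If `F / g` (continuous, positive on `D`) is constant: first case. Otherwise it has two values `x < y`; some rational
`β / α` is strictly between (`exists_rat_btwn`, positive), it is a value at some `z1 ∈ D` (`IsPreconnected.intermediate_value`), and `z2` with
value `x` is the second point. Empty `D`: first case.
-/

set_option autoImplicit false

namespace Pool.Agent.TH48

theorem ratio_alt (D : Set ℂ) (hD : IsPreconnected D) (F g : ℂ → ℝ) (hF : ContinuousOn F D)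
    (hg : ContinuousOn g D) (hF1 : ∀ z ∈ D, 0 < F z) (hg1 : ∀ z ∈ D, 0 < g z) :
    (∃ ρ : ℝ, 0 < ρ ∧ ∀ z ∈ D, F z = ρ * g z) ∨
      ∃ (α β : ℕ) (z1 z2 : ℂ), z1 ∈ D ∧ z2 ∈ D ∧ 0 < α ∧ 0 < β ∧
        (α : ℝ) * F z1 = β * g z1 ∧ (α : ℝ) * F z2 ≠ β * g z2 := by
  by_cases hE : ∃ a ∈ D, ∃ b ∈ D, F a / g a < F b / g b
  · right
    obtain ⟨a, ha, b, hb, hab⟩ := hE
    obtain ⟨q, hq1, hq2⟩ := exists_rat_btwn hab
    have hfa : 0 < F a / g a := div_pos (hF1 a ha) (hg1 a ha)
    have hqR : (0 : ℝ) < (q : ℝ) := lt_trans hfa hq1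
    have hq0 : 0 < q := by exact_mod_cast hqR
    have hcont : ContinuousOn (fun z => F z / g z) D :=
      hF.div hg (fun z hz => (hg1 z hz).ne')
    have hmem : (q : ℝ) ∈ Set.Icc (F a / g a) (F b / g b) := ⟨hq1.le, hq2.le⟩
    obtain ⟨z1, hz1, hz1v⟩ := hD.intermediate_value ha hb hcont hmem
    have hz1w : F z1 / g z1 = (q : ℝ) := hz1v
    have hnum : 0 < q.num := Rat.num_pos.mpr hq0
    have hden : 0 < q.den := q.den_pos
    have hcast : ((q.num.toNat : ℕ) : ℝ) = (q.num : ℝ) := by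
      have h1 : ((q.num.toNat : ℕ) : ℤ) = q.num := Int.toNat_of_nonneg hnum.le
      exact_mod_cast congrArg (fun t : ℤ => (t : ℝ)) h1
    have hqd : (q.den : ℝ) * (q : ℝ) = (q.num : ℝ) := by
      have h2 : (q : ℚ) * (q.den : ℚ) = (q.num : ℚ) := Rat.mul_den_eq_num q
      have h3 : ((q * (q.den : ℚ) : ℚ) : ℝ) = ((q.num : ℚ) : ℝ) := congrArg _ h2
      push_cast at h3
      linarith
    refine ⟨q.den, q.num.toNat, z1, a, hz1, ha, hden, ?_, ?_, ?_⟩
    · have h4 : 0 < ((q.num.toNat : ℕ) : ℤ) := by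
        rw [Int.toNat_of_nonneg hnum.le]; exact hnum
      exact_mod_cast h4
    · have hg0 : g z1 ≠ 0 := (hg1 z1 hz1).ne'
      have h5 : F z1 = (q : ℝ) * g z1 := by
        rw [← hz1w]; field_simp
      rw [hcast, h5, ← hqd]; ring
    · intro h6
      have hg0 : 0 < g a := hg1 a ha
      have hd0 : (0 : ℝ) < (q.den : ℝ) := by exact_mod_cast hden
      rw [hcast, ← hqd] at h6
      have h7 : F a = (q : ℝ) * g a := by
        have h8 : (q.den : ℝ) * F a = (q.den : ℝ) * ((q : ℝ) * g a) := by rw [h6]; ring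
        exact mul_left_cancel₀ hd0.ne' h8
      have h9 : F a / g a = (q : ℝ) := by
        rw [h7]; field_simp
      rw [h9] at hq1
      exact lt_irrefl _ hq1
  · left
    push Not at hE
    rcases D.eq_empty_or_nonempty with h0 | ⟨z0, hz0⟩
    · refine ⟨1, one_pos, ?_⟩
      intro z hz
      rw [h0] at hz
      exact absurd hz (Set.notMem_empty z)
    · refine ⟨F z0 / g z0, div_pos (hF1 z0 hz0) (hg1 z0 hz0), ?_⟩
      intro z hz
      have h1 : F z / g z = F z0 / g z0 := le_antisymm (hE z0 hz0 z hz) (hE z hz z0 hz0)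
      rw [← h1]
      have hg0 : g z ≠ 0 := (hg1 z hz).ne'
      field_simp

end Pool.Agent.TH48
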