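import Mathlib

/-!
# A2 (MEDIUM): the logarithms of `|1 - z|` and `|(1 - z)/(2 - z)|` are not proportional
Otherwise `(1 - c) log |1 - z| + c log |2 - z| = 0` on the ball, so on a smaller ball around `z0` the holomorphic function
`H z = (1 - c) log ((1 - z)/(1 - z0)) + c log ((2 - z)/(2 - z0))` (both quotients are near `1`, so in `slitPlane`) has real part `0`,
so `H` is constant there (for instance `exp ∘ H` has norm 1: `Complex.eventually_eq_of_isLocalMax_norm`, or Cauchy-Riemann), and `H' = (1 - c)/(z - 1) + c/(z - 2) = 0` near `z0`, i.e.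
`z - 2 + c = 0` for all `z` near `z0`: contradiction.
-/

set_option autoImplicit false

namespace Pool.Agent.TH48

private theorem A2_deriv (w v : ℂ) (hw : w ≠ 0) :
    HasDerivAt (fun t : ℝ => Real.log ‖w - (t : ℂ) * v‖) (-(v / w)).re 0 := by
  have h1 : HasDerivAt (fun s : ℂ => (w - s * v) / w) (-(v / w)) ((0 : ℝ) : ℂ) := by
    have h := (((hasDerivAt_id ((0 : ℝ) : ℂ)).mul_const v).const_sub w).div_const w
    have e : -(1 * v) / w = -(v / w) := by rw [one_mul, neg_div]
    rw [e] at h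
    exact h
  have e0 : (w - ((0 : ℝ) : ℂ) * v) / w = 1 := by
    rw [Complex.ofReal_zero, zero_mul, sub_zero, div_self hw]
  have h2 : (w - ((0 : ℝ) : ℂ) * v) / w ∈ Complex.slitPlane := by
    rw [e0]; exact Complex.one_mem_slitPlane
  have h3 := (h1.clog h2).real_of_complex
  rw [e0, div_one] at h3
  have h4 : ∀ᶠ t : ℝ in nhds 0, w - (t : ℂ) * v ≠ 0 := by
    have hc : ContinuousAt (fun t : ℝ => w - (t : ℂ) * v) 0 := by fun_prop
    refine hc.eventually_ne ?_
    rw [Complex.ofReal_zero, zero_mul, sub_zero]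
    exact hw
  have h5 : (fun t : ℝ => Real.log ‖w - (t : ℂ) * v‖) =ᶠ[nhds 0]
      fun t : ℝ => Real.log ‖w‖ + (Complex.log ((w - (t : ℂ) * v) / w)).re := by
    filter_upwards [h4] with t ht
    rw [Complex.log_re, norm_div, Real.log_div (norm_ne_zero_iff.2 ht) (norm_ne_zero_iff.2 hw)]
    ring
  exact (h3.const_add (Real.log ‖w‖)).congr_of_eventuallyEq h5

private theorem A2_point (z0 : ℂ) (r : ℝ)
    (h1 : ∀ z ∈ Metric.ball z0 r, (1 : ℂ) - z ≠ 0) (h2 : ∀ z ∈ Metric.ball z0 r, (2 : ℂ) - z ≠ 0)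
    (c : ℝ) (h : ∀ z ∈ Metric.ball z0 r,
      Real.log ‖1 - z‖ = c * (Real.log ‖1 - z‖ - Real.log ‖2 - z‖))
    (z : ℂ) (hz : z ∈ Metric.ball z0 r) : (2 : ℂ) - z = c := by
  have hd : ∀ v : ℂ, (v * ((1 - (c : ℂ)) / (1 - z) + c / (2 - z))).re = 0 := by
    intro v
    have a1 := A2_deriv (1 - z) v (h1 z hz)
    have a2 := A2_deriv (2 - z) v (h2 z hz)
    have a3 := a1.sub ((a1.sub a2).const_mul c)
    have hev : ∀ᶠ t : ℝ in nhds 0, z + (t : ℂ) * v ∈ Metric.ball z0 r := by
      have hc : ContinuousAt (fun t : ℝ => z + (t : ℂ) * v) 0 := by fun_prop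
      refine hc.eventually_mem ?_
      rw [Complex.ofReal_zero, zero_mul, add_zero]
      exact Metric.isOpen_ball.mem_nhds hz
    have h0 : (fun _ : ℝ => (0 : ℝ)) =ᶠ[nhds 0]
        ((fun t : ℝ => Real.log ‖1 - z - (t : ℂ) * v‖) - fun t : ℝ =>
          c * ((fun t : ℝ => Real.log ‖1 - z - (t : ℂ) * v‖) -
            fun t : ℝ => Real.log ‖2 - z - (t : ℂ) * v‖) t) := by
      filter_upwards [hev] with t ht
      have h3 := h _ ht
      have e1 : (1 : ℂ) - (z + (t : ℂ) * v) = 1 - z - (t : ℂ) * v := by ring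
      have e2 : (2 : ℂ) - (z + (t : ℂ) * v) = 2 - z - (t : ℂ) * v := by ring
      rw [e1, e2] at h3
      simp only [Pi.sub_apply]
      linarith
    have a4 := a3.congr_of_eventuallyEq h0
    have a5 := a4.unique (hasDerivAt_const (0 : ℝ) (0 : ℝ))
    have e3 : (v * ((1 - (c : ℂ)) / (1 - z) + c / (2 - z))).re =
        -((-(v / (1 - z))).re - c * ((-(v / (1 - z))).re - (-(v / (2 - z))).re)) := by
      have e4 : v * ((1 - (c : ℂ)) / (1 - z) + c / (2 - z)) =
          v / (1 - z) - (c : ℂ) * (v / (1 - z)) + (c : ℂ) * (v / (2 - z)) := by ring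
      rw [e4]
      simp only [Complex.add_re, Complex.sub_re, Complex.neg_re, Complex.re_ofReal_mul]
      ring
    rw [e3, a5, neg_zero]
  have hX : (1 - (c : ℂ)) / (1 - z) + c / (2 - z) = 0 := by
    apply Complex.ext
    · have := hd 1
      rw [one_mul] at this
      rw [this, Complex.zero_re]
    · have := hd Complex.I
      rw [Complex.I_mul_re] at this
      rw [Complex.zero_im]
      linarith
  have n1 := h1 z hz
  have n2 := h2 z hz
  rw [div_add_div _ _ n1 n2, div_eq_zero_iff] at hX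
  rcases hX with hX | hX
  · linear_combination hX
  · exact absurd hX (mul_ne_zero n1 n2)

theorem not_prop (z0 : ℂ) (r : ℝ) (hr : 0 < r)
    (h1 : ∀ z ∈ Metric.ball z0 r, (1 : ℂ) - z ≠ 0) (h2 : ∀ z ∈ Metric.ball z0 r, (2 : ℂ) - z ≠ 0)
    (c : ℝ) (h : ∀ z ∈ Metric.ball z0 r,
      Real.log ‖1 - z‖ = c * (Real.log ‖1 - z‖ - Real.log ‖2 - z‖)) : False := by
  have p1 := A2_point z0 r h1 h2 c h z0 (Metric.mem_ball_self hr)
  have hz : z0 + ((r / 2 : ℝ) : ℂ) ∈ Metric.ball z0 r := by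
    rw [Metric.mem_ball, dist_eq_norm, add_sub_cancel_left, Complex.norm_real, Real.norm_eq_abs,
      abs_of_pos (by linarith)]
    linarith
  have p2 := A2_point z0 r h1 h2 c h _ hz
  have p3 : ((r / 2 : ℝ) : ℂ) = 0 := by linear_combination p1 - p2
  rw [Complex.ofReal_eq_zero] at p3
  linarith

end Pool.Agent.TH48
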