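import Mathlib

/-!
# A3 (MEDIUM): a nonconstant holomorphic function of modulus 1 at a point takes a root of unity as value
`AnalyticOnNhd.is_constant_or_isOpen`: `φ` is not constant on `D` (its norm is not), so `φ '' D` is open; it contains `φ z1 = exp (i θ)`
and so `exp (2 π i k / n)` for some integers (`k/n` a rational number near `θ / (2 π)`, continuity of `exp`).
-/

set_option autoImplicit false

namespace Pool.Agent.TH48

theorem unit_root (D : Set ℂ) (hD : IsOpen D) (hc : IsPreconnected D) (φ : ℂ → ℂ)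
    (hφ : AnalyticOnNhd ℂ φ D) (z1 z2 : ℂ) (hz1 : z1 ∈ D) (hz2 : z2 ∈ D) (h1 : ‖φ z1‖ = 1)
    (h2 : ‖φ z2‖ ≠ 1) : ∃ z ∈ D, ∃ n : ℕ, 0 < n ∧ φ z ^ n = 1 := by
  have hopen : IsOpen (φ '' D) := by
    rcases hφ.is_constant_or_isOpen hc with ⟨w, hw⟩ | h
    · exfalso
      apply h2
      rw [hw z2 hz2, ← hw z1 hz1, h1]
    · exact h D subset_rfl hD
  have he : Continuous fun x : ℝ => Complex.exp (((2 * Real.pi * x : ℝ) : ℂ) * Complex.I) := by
    fun_prop
  have hpre : IsOpen ((fun x : ℝ => Complex.exp (((2 * Real.pi * x : ℝ) : ℂ) * Complex.I)) ⁻¹'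
      (φ '' D)) := hopen.preimage he
  have hne : ((fun x : ℝ => Complex.exp (((2 * Real.pi * x : ℝ) : ℂ) * Complex.I)) ⁻¹'
      (φ '' D)).Nonempty := by
    refine ⟨(φ z1).arg / (2 * Real.pi), z1, hz1, ?_⟩
    have h3 : 2 * Real.pi * ((φ z1).arg / (2 * Real.pi)) = (φ z1).arg := by
      have := Real.pi_ne_zero
      field_simp
    show φ z1 = Complex.exp (((2 * Real.pi * ((φ z1).arg / (2 * Real.pi)) : ℝ) : ℂ) * Complex.I)
    rw [h3]
    have h4 := Complex.norm_mul_exp_arg_mul_I (φ z1)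
    rw [h1, Complex.ofReal_one, one_mul] at h4
    exact h4.symm
  obtain ⟨r, z, hz, hzr⟩ := (Rat.denseRange_cast (𝕜 := ℝ)).exists_mem_open hpre hne
  refine ⟨z, hz, r.den, r.den_pos, ?_⟩
  have h5 : φ z = Complex.exp (((2 * Real.pi * (r : ℝ) : ℝ) : ℂ) * Complex.I) := hzr
  rw [h5, ← Complex.exp_nat_mul]
  have h6 : ((r.den : ℕ) : ℂ) * (((2 * Real.pi * (r : ℝ) : ℝ) : ℂ) * Complex.I) =
      ((r.num : ℤ) : ℂ) * (2 * (Real.pi : ℂ) * Complex.I) := by
    have h7 : ((r.den : ℕ) : ℂ) * ((r : ℝ) : ℂ) = ((r.num : ℤ) : ℂ) := by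
      have h8 : (r.den : ℚ) * r = (r.num : ℚ) := Rat.den_mul_eq_num r
      have h9 : (((r.den : ℚ) * r : ℚ) : ℂ) = ((r.num : ℚ) : ℂ) := by rw [h8]
      push_cast at h9 ⊢
      exact h9
    push_cast at h7 ⊢
    rw [← h7]
    ring
  rw [h6]
  exact Complex.exp_int_mul_two_pi_mul_I r.num

end Pool.Agent.TH48
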