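import Pool.Agent.TH48.A0
import Pool.Agent.LibChromRoots.Zeros

/-!
# A4 (STRONG): long paths (Hurwitz)
`u = 1 - z`. By `path_eval`, `(-1)^(c (n + 1)) z^c` times the left side is
`A^a PP1^b (u^(n+1) - u)^c + (z - 1) B^a PP1'^b (u^(n+1) - 1)^c`, which tends for `n → ∞`, uniformly on compact subsets of `|z - 1| < 1`,
to `g z = A^a PP1^b (z - 1)^c + (-1)^c (z - 1) B^a PP1'^b`, the polynomial of the hypothesis. `g` is a nonzero polynomial with `g z2 = 0`:
choose a closed ball around `z2` of radius `< ε` inside `|z - 1| < 1` (so without `0`) with no other zero of `g`; apply `LibChromRoots.hurwitz`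
(or `Ch3.exists_zero`). Divide by `z^c ≠ 0`. Uniform convergence: polynomials are bounded on the ball, `|u| ≤ ρ < 1`, and
`w ↦ (w - u)^c` is uniformly continuous on compact sets (or: the difference is a polynomial in `u`, `w = u^(n+1)` divisible by `w`).
-/

set_option autoImplicit false

namespace Pool.Agent.TH48

open Polynomial

private noncomputable def A4_F (A B : ℂ[X]) (a b c n : ℕ) : ℂ[X] :=
  A ^ a * (PP 1).1 ^ b * ((1 - X) ^ (n + 1) - (1 - X)) ^ c +
    (X - 1) * (B ^ a * (PP 1).2 ^ b * ((1 - X) ^ (n + 1) - 1) ^ c)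

private noncomputable def A4_G (A B : ℂ[X]) (a b c : ℕ) : ℂ[X] :=
  A ^ a * (PP 1).1 ^ b * (X - 1) ^ c + (-1) ^ c * ((X - 1) * (B ^ a * (PP 1).2 ^ b))

private noncomputable def A4_Phi (A B : ℂ[X]) (a b c : ℕ) (x : ℂ × ℂ) : ℂ :=
  A.eval x.2 ^ a * (PP 1).1.eval x.2 ^ b * (x.1 - (1 - x.2)) ^ c +
    (x.2 - 1) * (B.eval x.2 ^ a * (PP 1).2.eval x.2 ^ b * (x.1 - 1) ^ c)

private theorem A4_cont (A B : ℂ[X]) (a b c : ℕ) : Continuous (A4_Phi A B a b c) := by
  have h1 : Continuous fun x : ℂ × ℂ => A.eval x.2 := A.continuous.comp continuous_snd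
  have h2 : Continuous fun x : ℂ × ℂ => B.eval x.2 := B.continuous.comp continuous_snd
  have h3 : Continuous fun x : ℂ × ℂ => (PP 1).1.eval x.2 :=
    (PP 1).1.continuous.comp continuous_snd
  have h4 : Continuous fun x : ℂ × ℂ => (PP 1).2.eval x.2 :=
    (PP 1).2.continuous.comp continuous_snd
  unfold A4_Phi
  exact (((h1.pow a).mul (h3.pow b)).mul
    ((continuous_fst.sub (continuous_const.sub continuous_snd)).pow c)).add
    ((continuous_snd.sub continuous_const).mul (((h2.pow a).mul (h4.pow b)).mul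
      ((continuous_fst.sub continuous_const).pow c)))

private theorem A4_F_eval (A B : ℂ[X]) (a b c n : ℕ) (z : ℂ) :
    (A4_F A B a b c n).eval z = A4_Phi A B a b c ((1 - z) ^ (n + 1), z) := by
  unfold A4_F A4_Phi
  simp only [eval_add, eval_mul, eval_pow, eval_sub, eval_one, eval_X]

private theorem A4_G_eval (A B : ℂ[X]) (a b c : ℕ) (z : ℂ) :
    (A4_G A B a b c).eval z = A4_Phi A B a b c (0, z) := by
  unfold A4_G A4_Phi
  simp only [eval_add, eval_mul, eval_pow, eval_sub, eval_one, eval_X, eval_neg]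
  have e1 : (0 : ℂ) - (1 - z) = z - 1 := by ring
  have e2 : (0 : ℂ) - 1 = -1 := by ring
  rw [e1, e2]
  ring

theorem path_hurwitz (A B : ℂ[X]) (a b c : ℕ) (z2 : ℂ) (h1 : ‖z2 - 1‖ < 1)
    (h0 : A ^ a * (PP 1).1 ^ b * (X - 1) ^ c +
      (-1) ^ c * ((X - 1) * (B ^ a * (PP 1).2 ^ b)) ≠ 0)
    (hg : (A ^ a * (PP 1).1 ^ b * (X - 1) ^ c +
      (-1) ^ c * ((X - 1) * (B ^ a * (PP 1).2 ^ b))).eval z2 = 0) (ε : ℝ) (hε : 0 < ε) :
    ∃ (n : ℕ) (z : ℂ), ‖z - z2‖ < ε ∧
      A.eval z ^ a * (PP 1).1.eval z ^ b * (PP n).1.eval z ^ c +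
        (z - 1) * (B.eval z ^ a * (PP 1).2.eval z ^ b * (PP n).2.eval z ^ c) = 0 := by
  classical
  have hr0 : 0 < min ε (1 - ‖z2 - 1‖) := lt_min hε (by linarith)
  obtain ⟨r, hr, hrD⟩ := (Set.Ioo_infinite hr0).exists_notMem_finset
    ((A4_G A B a b c).roots.toFinset.image (fun w => dist w z2))
  have hrpos : 0 < r := hr.1
  have hrε : r < ε := lt_of_lt_of_le hr.2 (min_le_left _ _)
  have hr1 : ‖z2 - 1‖ + r < 1 := by
    have := lt_of_lt_of_le hr.2 (min_le_right _ _)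
    linarith
  set ρ : ℝ := ‖z2 - 1‖ + r with hρ
  have hρ0 : 0 ≤ ρ := by positivity
  have hu : ∀ z ∈ Metric.closedBall z2 r, ‖1 - z‖ ≤ ρ := by
    intro z hz
    have e1 : (1 : ℂ) - z = -((z2 - 1) + (z - z2)) := by ring
    rw [e1, norm_neg]
    refine (norm_add_le _ _).trans ?_
    have e2 : ‖z - z2‖ ≤ r := by
      rw [← dist_eq_norm]
      exact hz
    linarith
  have hunif : TendstoUniformlyOn (fun n z => (A4_F A B a b c n).eval z)
      (fun z => (A4_G A B a b c).eval z) Filter.atTop (Metric.closedBall z2 r) := by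
    rw [Metric.tendstoUniformlyOn_iff]
    intro η hη
    have hcomp : IsCompact (Metric.closedBall (0 : ℂ) 1 ×ˢ Metric.closedBall z2 r) :=
      (isCompact_closedBall 0 1).prod (isCompact_closedBall z2 r)
    have huc := hcomp.uniformContinuousOn_of_continuous (A4_cont A B a b c).continuousOn
    obtain ⟨δ, hδ, hd⟩ := Metric.uniformContinuousOn_iff.1 huc η hη
    have hpow : Filter.Tendsto (fun n : ℕ => ρ ^ (n + 1)) Filter.atTop (nhds 0) :=
      (tendsto_pow_atTop_nhds_zero_of_lt_one hρ0 hr1).comp (Filter.tendsto_add_atTop_nat 1)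
    filter_upwards [hpow.eventually (gt_mem_nhds hδ)] with n hn
    intro z hz
    rw [A4_F_eval, A4_G_eval]
    have hw : ‖(1 - z) ^ (n + 1)‖ ≤ ρ ^ (n + 1) := by
      rw [norm_pow]
      exact pow_le_pow_left₀ (norm_nonneg _) (hu z hz) _
    refine hd (0, z) ⟨?_, hz⟩ ((1 - z) ^ (n + 1), z) ⟨?_, hz⟩ ?_
    · show (0 : ℂ) ∈ Metric.closedBall (0 : ℂ) 1
      exact Metric.mem_closedBall_self zero_le_one
    · show (1 - z) ^ (n + 1) ∈ Metric.closedBall (0 : ℂ) 1
      rw [mem_closedBall_zero_iff]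
      exact hw.trans (pow_le_one₀ hρ0 hr1.le)
    · rw [Prod.dist_eq, dist_self]
      show max (dist (0 : ℂ) ((1 - z) ^ (n + 1))) 0 < δ
      rw [dist_zero_left]
      exact max_lt (lt_of_le_of_lt hw hn) hδ
  have hev := LibChromRoots.hurwitz (fun n z => (A4_F A B a b c n).eval z)
    (fun z => (A4_G A B a b c).eval z) z2 r hrpos
    (Filter.Eventually.of_forall fun n => (A4_F A B a b c n).differentiable.diffContOnCl) hg
    (A4_G A B a b c).continuous.continuousOn
    (by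
      intro z hz h
      apply hrD
      refine Finset.mem_image.2 ⟨z, ?_, hz⟩
      have h0' : A4_G A B a b c ≠ 0 := h0
      rw [Multiset.mem_toFinset, mem_roots h0']
      exact h)
    hunif
  obtain ⟨n, z, hz, hfz⟩ := hev.exists
  have hzn : ‖z - z2‖ ≤ r := by
    rw [← dist_eq_norm]
    exact hz
  have hz0 : z ≠ 0 := by
    intro h
    have h2 := hu z hz
    rw [h, sub_zero, norm_one] at h2
    linarith
  refine ⟨n, z, lt_of_le_of_lt hzn hrε, ?_⟩
  have hp := path_eval n z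
  have hzc : z ^ c ≠ 0 := pow_ne_zero _ hz0
  have hF : A.eval z ^ a * (PP 1).1.eval z ^ b * ((1 - z) ^ (n + 1) - (1 - z)) ^ c +
      (z - 1) * (B.eval z ^ a * (PP 1).2.eval z ^ b * ((1 - z) ^ (n + 1) - 1) ^ c) = 0 := by
    have h2 : (A4_F A B a b c n).eval z = 0 := hfz
    rw [A4_F_eval] at h2
    exact h2
  have e1 : z ^ c * (PP n).1.eval z ^ c =
      ((-1) ^ (n + 1)) ^ c * ((1 - z) ^ (n + 1) - (1 - z)) ^ c := by
    rw [← mul_pow, hp.1, mul_pow]
  have e2 : z ^ c * (PP n).2.eval z ^ c =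
      ((-1) ^ (n + 1)) ^ c * ((1 - z) ^ (n + 1) - 1) ^ c := by
    rw [← mul_pow, hp.2, mul_pow]
  have e3 : z ^ c * (A.eval z ^ a * (PP 1).1.eval z ^ b * (PP n).1.eval z ^ c +
      (z - 1) * (B.eval z ^ a * (PP 1).2.eval z ^ b * (PP n).2.eval z ^ c)) = 0 := by
    calc z ^ c * (A.eval z ^ a * (PP 1).1.eval z ^ b * (PP n).1.eval z ^ c +
        (z - 1) * (B.eval z ^ a * (PP 1).2.eval z ^ b * (PP n).2.eval z ^ c))
        = A.eval z ^ a * (PP 1).1.eval z ^ b * (z ^ c * (PP n).1.eval z ^ c) +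
          (z - 1) * (B.eval z ^ a * (PP 1).2.eval z ^ b * (z ^ c * (PP n).2.eval z ^ c)) := by
          ring
      _ = ((-1) ^ (n + 1)) ^ c * (A.eval z ^ a * (PP 1).1.eval z ^ b *
            ((1 - z) ^ (n + 1) - (1 - z)) ^ c +
          (z - 1) * (B.eval z ^ a * (PP 1).2.eval z ^ b * ((1 - z) ^ (n + 1) - 1) ^ c)) := by
          rw [e1, e2]
          ring
      _ = 0 := by rw [hF, mul_zero]
  exact (mul_eq_zero.1 e3).resolve_left hzc

end Pool.Agent.TH48
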