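import Mathlib

/-!
# A6 (SHORT): move to a point with `B ≠ 0`
All conditions except `B.eval z ≠ 0` are open and hold at `z0`; `B` has finitely many roots, so near `z0` there is a point that is
no root (a punctured neighbourhood of `z0` is infinite / `𝓝[≠] z0` is nontrivial and the finite set of roots is closed).
-/

set_option autoImplicit false

namespace Pool.Agent.TH48

open Polynomial

theorem move (A B : ℂ[X]) (hB : B ≠ 0) (z0 : ℂ) (h1 : ‖z0 - 1‖ < 1) (h2 : 1 < ‖z0 - 2‖)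
    (hAB : ‖B.eval z0‖ < ‖A.eval z0‖) (ε : ℝ) (hε : 0 < ε) :
    ∃ z : ℂ, ‖z - z0‖ < ε ∧ B.eval z ≠ 0 ∧ ‖z - 1‖ < 1 ∧ 1 < ‖z - 2‖ ∧
      ‖B.eval z‖ < ‖A.eval z‖ := by
  have c1 : ContinuousAt (fun z : ℂ => ‖z - 1‖) z0 := by fun_prop
  have c2 : ContinuousAt (fun z : ℂ => ‖z - 2‖) z0 := by fun_prop
  have c3 : ContinuousAt (fun z : ℂ => ‖z - z0‖) z0 := by fun_prop
  have cA : ContinuousAt (fun z : ℂ => ‖A.eval z‖) z0 := A.continuous.norm.continuousAt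
  have cB : ContinuousAt (fun z : ℂ => ‖B.eval z‖) z0 := B.continuous.norm.continuousAt
  have e1 : ∀ᶠ z in nhds z0, ‖z - 1‖ < 1 := c1.eventually (gt_mem_nhds h1)
  have e2 : ∀ᶠ z in nhds z0, 1 < ‖z - 2‖ := c2.eventually (lt_mem_nhds h2)
  have e3 : ∀ᶠ z in nhds z0, ‖z - z0‖ < ε := by
    refine c3.eventually (gt_mem_nhds ?_)
    show ‖z0 - z0‖ < ε
    rw [sub_self, norm_zero]
    exact hε
  have e4 : ∀ᶠ z in nhds z0, ‖B.eval z‖ < ‖A.eval z‖ := cB.eventually_lt cA hAB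
  have e5 : ∀ᶠ z in nhdsWithin z0 {z0}ᶜ, B.eval z ≠ 0 := by
    have hfin : Set.Finite {z : ℂ | B.eval z = 0} := by
      have h := B.roots.toFinset.finite_toSet
      refine h.subset ?_
      intro z hz
      have hz' : B.eval z = 0 := hz
      rw [Finset.mem_coe, Multiset.mem_toFinset, mem_roots hB]
      exact hz'
    have hf2 : Set.Finite ({z : ℂ | B.eval z = 0} \ {z0}) := hfin.subset Set.sdiff_subset
    have h1 : ({z : ℂ | B.eval z = 0} \ {z0})ᶜ ∈ nhds z0 :=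
      hf2.isClosed.isOpen_compl.mem_nhds (fun h => h.2 rfl)
    filter_upwards [mem_nhdsWithin_of_mem_nhds h1, self_mem_nhdsWithin] with z hz hz2 hz3
    exact hz ⟨hz3, hz2⟩
  have hall : ∀ᶠ z in nhds z0, (‖z - 1‖ < 1 ∧ 1 < ‖z - 2‖) ∧ (‖z - z0‖ < ε ∧
      ‖B.eval z‖ < ‖A.eval z‖) := (e1.and e2).and (e3.and e4)
  have hall2 := (hall.filter_mono (nhdsWithin_le_nhds (s := {z0}ᶜ))).and e5
  obtain ⟨z, ⟨⟨a1, a2⟩, ⟨a3, a4⟩⟩, a5⟩ := hall2.exists
  exact ⟨z, a3, a5, a1, a2, a4⟩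

end Pool.Agent.TH48
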