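import Pool.Agent.TH48.A1
import Pool.Agent.TH48.A2
import Pool.Agent.TH48.A3
import Pool.Agent.TH48.A4
import Pool.Agent.TH48.A6

/-!
# A5: zeros near `z0`
-/

set_option autoImplicit false

namespace Pool.Agent.TH48

open Polynomial

private theorem A5_unit (N M : ℂ[X]) (D : Set ℂ) (hD : IsOpen D) (hc : IsPreconnected D)
    (hM : ∀ z ∈ D, M.eval z ≠ 0) (z1 z2 : ℂ) (hz1 : z1 ∈ D) (hz2 : z2 ∈ D)
    (h1 : ‖N.eval z1‖ = ‖M.eval z1‖) (h2 : ‖N.eval z2‖ ≠ ‖M.eval z2‖) :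
    ∃ z ∈ D, ∃ n : ℕ, 0 < n ∧ N.eval z ^ n = M.eval z ^ n := by
  have hφ : AnalyticOnNhd ℂ (fun z => N.eval z / M.eval z) D := by
    intro z hz
    exact (N.differentiable.analyticAt z).div (M.differentiable.analyticAt z) (hM z hz)
  obtain ⟨z, hz, n, hn, h⟩ := unit_root D hD hc _ hφ z1 z2 hz1 hz2
    (by
      show ‖N.eval z1 / M.eval z1‖ = 1
      rw [norm_div, h1, div_self (norm_ne_zero_iff.2 (hM z1 hz1))])
    (by
      show ‖N.eval z2 / M.eval z2‖ ≠ 1
      rw [norm_div]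
      intro h3
      rw [div_eq_one_iff_eq (norm_ne_zero_iff.2 (hM z2 hz2))] at h3
      exact h2 h3)
  refine ⟨z, hz, n, hn, ?_⟩
  have h3 : (N.eval z / M.eval z) ^ n = 1 := h
  rw [div_pow, div_eq_one_iff_eq (pow_ne_zero _ (hM z hz))] at h3
  exact h3

private theorem A5_log (a b x y : ℝ) (ha : 0 < a) (hb : 0 < b) (hx : 0 < x) (hy : 0 < y)
    (α β : ℕ) : (α : ℝ) * (Real.log a - Real.log b) = β * (Real.log y - Real.log x) ↔
      a ^ α * x ^ β = b ^ α * y ^ β := by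
  have e1 : Real.log (a ^ α * x ^ β) = α * Real.log a + β * Real.log x := by
    rw [Real.log_mul (by positivity) (by positivity), Real.log_pow, Real.log_pow]
  have e2 : Real.log (b ^ α * y ^ β) = α * Real.log b + β * Real.log y := by
    rw [Real.log_mul (by positivity) (by positivity), Real.log_pow, Real.log_pow]
  constructor
  · intro h
    refine Real.log_injOn_pos (Set.mem_Ioi.2 (by positivity)) (Set.mem_Ioi.2 (by positivity)) ?_
    rw [e1, e2]
    linarith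
  · intro h
    rw [h] at e1
    linarith

theorem ana (A B : ℂ[X]) (hB : B ≠ 0) (z0 : ℂ) (h1 : ‖z0 - 1‖ < 1) (h2 : 1 < ‖z0 - 2‖)
    (hAB : ‖B.eval z0‖ < ‖A.eval z0‖) (ε : ℝ) (hε : 0 < ε) :
    ∃ (a b c n : ℕ) (z : ℂ), ‖z - z0‖ < ε ∧
      A.eval z ^ a * (PP 1).1.eval z ^ b * (PP n).1.eval z ^ c +
        (z - 1) * (B.eval z ^ a * (PP 1).2.eval z ^ b * (PP n).2.eval z ^ c) = 0 := by
  obtain ⟨w, hw, hBw, hw1, hw2, hw3⟩ := move A B hB z0 h1 h2 hAB (ε / 2) (by linarith)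
  have hopen : IsOpen {z : ℂ | B.eval z ≠ 0 ∧ ‖z - 1‖ < 1 ∧ 1 < ‖z - 2‖ ∧
      ‖B.eval z‖ < ‖A.eval z‖} := by
    have hA := A.continuous
    have hB := B.continuous
    refine IsOpen.inter (isOpen_ne_fun hB continuous_const) (IsOpen.inter ?_ (IsOpen.inter ?_ ?_))
    · exact isOpen_lt (continuous_id.sub continuous_const).norm continuous_const
    · exact isOpen_lt continuous_const (continuous_id.sub continuous_const).norm
    · exact isOpen_lt hB.norm hA.norm
  obtain ⟨r, hr, hball⟩ := Metric.isOpen_iff.1 hopen w ⟨hBw, hw1, hw2, hw3⟩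
  set D : Set ℂ := Metric.ball w (min r (ε / 4)) with hD
  have hr4 : 0 < min r (ε / 4) := lt_min hr (by linarith)
  have hDD : ∀ z ∈ D, B.eval z ≠ 0 ∧ ‖z - 1‖ < 1 ∧ 1 < ‖z - 2‖ ∧ ‖B.eval z‖ < ‖A.eval z‖ :=
    fun z hz => hball (Metric.ball_subset_ball (min_le_left _ _) hz)
  have hDo : IsOpen D := Metric.isOpen_ball
  have hDc : IsPreconnected D := (convex_ball w _).isPreconnected
  have hDe : ∀ z ∈ D, ‖z - w‖ < ε / 4 := by
    intro z hz
    rw [hD, Metric.mem_ball, dist_eq_norm] at hz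
    exact lt_of_lt_of_le hz (min_le_right _ _)
  have hu0 : ∀ z ∈ D, (1 : ℂ) - z ≠ 0 := by
    intro z hz h
    have h3 : z = 1 := by linear_combination -h
    have h4 := (hDD z hz).2.2.1
    rw [h3] at h4
    norm_num at h4
  have hv0 : ∀ z ∈ D, (2 : ℂ) - z ≠ 0 := by
    intro z hz h
    have h4 := (hDD z hz).2.2.1
    rw [← norm_neg, neg_sub, h, norm_zero] at h4
    linarith
  have hu : ∀ z ∈ D, ‖1 - z‖ < 1 := by
    intro z hz
    rw [norm_sub_rev]
    exact (hDD z hz).2.1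
  have hv : ∀ z ∈ D, 1 < ‖2 - z‖ := by
    intro z hz
    rw [norm_sub_rev]
    exact (hDD z hz).2.2.1
  have hA0 : ∀ z ∈ D, 0 < ‖A.eval z‖ := fun z hz =>
    lt_of_le_of_lt (norm_nonneg _) (hDD z hz).2.2.2
  have hB0 : ∀ z ∈ D, 0 < ‖B.eval z‖ := fun z hz => norm_pos_iff.2 (hDD z hz).1
  have hFc : ContinuousOn (fun z : ℂ => Real.log ‖A.eval z‖ - Real.log ‖B.eval z‖) D := by
    refine ContinuousOn.sub ?_ ?_
    · exact ContinuousOn.log A.continuous.norm.continuousOn fun z hz => (hA0 z hz).ne'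
    · exact ContinuousOn.log B.continuous.norm.continuousOn fun z hz => (hB0 z hz).ne'
  have huc : ContinuousOn (fun z : ℂ => Real.log ‖1 - z‖) D :=
    ContinuousOn.log (continuous_const.sub continuous_id).norm.continuousOn
      fun z hz => norm_ne_zero_iff.2 (hu0 z hz)
  have hvc : ContinuousOn (fun z : ℂ => Real.log ‖2 - z‖) D :=
    ContinuousOn.log (continuous_const.sub continuous_id).norm.continuousOn
      fun z hz => norm_ne_zero_iff.2 (hv0 z hz)
  have hFpos : ∀ z ∈ D, 0 < Real.log ‖A.eval z‖ - Real.log ‖B.eval z‖ := fun z hz =>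
    sub_pos.2 (Real.log_lt_log (hB0 z hz) (hDD z hz).2.2.2)
  -- the end of the proof
  have hend : ∀ (a b c : ℕ) (z : ℂ), z ∈ D →
      (A ^ a * (PP 1).1 ^ b * (X - 1) ^ c + (-1) ^ c * ((X - 1) * (B ^ a * (PP 1).2 ^ b)) ≠ 0) →
      (A ^ a * (PP 1).1 ^ b * (X - 1) ^ c +
        (-1) ^ c * ((X - 1) * (B ^ a * (PP 1).2 ^ b))).eval z = 0 →
      ∃ (a b c n : ℕ) (z : ℂ), ‖z - z0‖ < ε ∧
        A.eval z ^ a * (PP 1).1.eval z ^ b * (PP n).1.eval z ^ c +
          (z - 1) * (B.eval z ^ a * (PP 1).2.eval z ^ b * (PP n).2.eval z ^ c) = 0 := by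
    intro a b c z hz hg0 hgz
    obtain ⟨n, y, hy, hy0⟩ := path_hurwitz A B a b c z (hDD z hz).2.1 hg0 hgz (ε / 4)
      (by linarith)
    refine ⟨a, b, c, n, y, ?_, hy0⟩
    have h3 : y - z0 = (y - z) + (z - w) + (w - z0) := by ring
    rw [h3]
    have h4 := hDe z hz
    calc ‖(y - z) + (z - w) + (w - z0)‖ ≤ ‖y - z‖ + ‖z - w‖ + ‖w - z0‖ := norm_add₃_le
      _ < ε := by linarith
  have hP1 : ∀ z : ℂ, (PP 1).1.eval z = z - 1 := by
    intro z
    simp [PP]
  have hP2 : ∀ z : ℂ, (PP 1).2.eval z = z - 2 := by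
    intro z
    simp [PP]
  rcases ratio_alt D hDc _ (fun z : ℂ => 0 - Real.log ‖1 - z‖) hFc
    (continuousOn_const.sub huc) hFpos
    (fun z hz => by
      have := Real.log_neg (norm_pos_iff.2 (hu0 z hz)) (hu z hz)
      simp only [zero_sub]
      linarith) with ⟨ρ1, hρ1, hc1⟩ | ⟨α, β, z1, z2, hz1, hz2, hα, hβ, he1, he2⟩
  · rcases ratio_alt D hDc _ (fun z : ℂ => Real.log ‖2 - z‖ - Real.log ‖1 - z‖) hFc
      (hvc.sub huc) hFpos
      (fun z hz => by
        have h3 := Real.log_neg (norm_pos_iff.2 (hu0 z hz)) (hu z hz)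
        have h4 := Real.log_pos (hv z hz)
        linarith) with ⟨ρ2, hρ2, hc2⟩ | ⟨α, β, z1, z2, hz1, hz2, hα, hβ, he1, he2⟩
    · exfalso
      refine not_prop w (min r (ε / 4)) hr4 hu0 hv0 (ρ2 / ρ1) ?_
      intro z hz
      have h3 := hc1 z hz
      have h4 := hc2 z hz
      rw [h3] at h4
      field_simp
      linarith
    · -- `b = n β`, `c = 1`
      have hAe1 := (A5_log _ _ _ _ (hA0 z1 hz1) (hB0 z1 hz1)
        (norm_pos_iff.2 (hu0 z1 hz1)) (norm_pos_iff.2 (hv0 z1 hz1)) α β).1 he1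
      have hAe2 : ¬ (‖A.eval z2‖ ^ α * ‖1 - z2‖ ^ β = ‖B.eval z2‖ ^ α * ‖2 - z2‖ ^ β) :=
        fun h => he2 ((A5_log _ _ _ _ (hA0 z2 hz2) (hB0 z2 hz2)
          (norm_pos_iff.2 (hu0 z2 hz2)) (norm_pos_iff.2 (hv0 z2 hz2)) α β).2 h)
      have hNe : ∀ z : ℂ, (A ^ α * (PP 1).1 ^ β).eval z = A.eval z ^ α * (z - 1) ^ β := by
        intro z
        rw [eval_mul, eval_pow, eval_pow, hP1]
      have hMe : ∀ z : ℂ, (B ^ α * (PP 1).2 ^ β).eval z = B.eval z ^ α * (z - 2) ^ β := by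
        intro z
        rw [eval_mul, eval_pow, eval_pow, hP2]
      have hN2 : ‖(A ^ α * (PP 1).1 ^ β).eval z2‖ ≠ ‖(B ^ α * (PP 1).2 ^ β).eval z2‖ := by
        rw [hNe, hMe, norm_mul, norm_mul, norm_pow, norm_pow, norm_pow, norm_pow,
          norm_sub_rev z2 1, norm_sub_rev z2 2]
        exact hAe2
      obtain ⟨z, hz, n, hn, hzn⟩ := A5_unit (A ^ α * (PP 1).1 ^ β) (B ^ α * (PP 1).2 ^ β) D hDo
        hDc (fun z hz => by
          rw [hMe]
          refine mul_ne_zero (pow_ne_zero _ (hDD z hz).1) (pow_ne_zero _ ?_)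
          have := hv0 z hz
          intro h
          exact this (by linear_combination -h)) z1 z2 hz1 hz2
        (by
          rw [hNe, hMe, norm_mul, norm_mul, norm_pow, norm_pow, norm_pow, norm_pow,
            norm_sub_rev z1 1, norm_sub_rev z1 2]
          exact hAe1) hN2
      have hg : ∀ y : ℂ, (A ^ (n * α) * (PP 1).1 ^ (n * β) * (X - 1) ^ 1 +
          (-1) ^ 1 * ((X - 1) * (B ^ (n * α) * (PP 1).2 ^ (n * β)))).eval y =
          (y - 1) * ((A ^ α * (PP 1).1 ^ β).eval y ^ n - (B ^ α * (PP 1).2 ^ β).eval y ^ n) := by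
        intro y
        simp only [eval_add, eval_mul, eval_pow, eval_sub, eval_X, eval_one, eval_neg]
        ring
      refine hend (n * α) (n * β) 1 z hz ?_ ?_
      · intro h0
        have h3 := hg z2
        rw [h0, eval_zero] at h3
        have h4 : z2 - 1 ≠ 0 := by
          have := hu0 z2 hz2
          intro h
          exact this (by linear_combination -h)
        have h5 := (mul_eq_zero.1 h3.symm).resolve_left h4
        have h6 := congrArg norm (sub_eq_zero.1 h5)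
        rw [norm_pow, norm_pow] at h6
        exact hN2 ((pow_left_inj₀ (norm_nonneg _) (norm_nonneg _) hn.ne').1 h6)
      · rw [hg, hzn, sub_self, mul_zero]
  · -- `b = 0`, `c = n β + 1`
    have hAe1 := (A5_log _ _ _ 1 (hA0 z1 hz1) (hB0 z1 hz1)
      (norm_pos_iff.2 (hu0 z1 hz1)) one_pos α β).1 (by rw [Real.log_one]; exact he1)
    have hAe2 : ¬ (‖A.eval z2‖ ^ α * ‖1 - z2‖ ^ β = ‖B.eval z2‖ ^ α * 1 ^ β) :=
      fun h => he2 (by
        have h3 := (A5_log _ _ _ 1 (hA0 z2 hz2) (hB0 z2 hz2)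
          (norm_pos_iff.2 (hu0 z2 hz2)) one_pos α β).2 h
        rw [Real.log_one] at h3
        exact h3)
    rw [one_pow, mul_one] at hAe1 hAe2
    have hNe : ∀ z : ℂ, (A ^ α * (1 - X) ^ β).eval z = A.eval z ^ α * (1 - z) ^ β := by
      intro z
      simp
    have hMe : ∀ z : ℂ, (B ^ α).eval z = B.eval z ^ α := by
      intro z
      rw [eval_pow]
    have hN2 : ‖(A ^ α * (1 - X) ^ β).eval z2‖ ≠ ‖(B ^ α).eval z2‖ := by
      rw [hNe, hMe, norm_mul, norm_pow, norm_pow, norm_pow]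
      exact hAe2
    obtain ⟨z, hz, n, hn, hzn⟩ := A5_unit (A ^ α * (1 - X) ^ β) (B ^ α) D hDo
      hDc (fun z hz => by
        rw [hMe]
        exact pow_ne_zero _ (hDD z hz).1) z1 z2 hz1 hz2
      (by
        rw [hNe, hMe, norm_mul, norm_pow, norm_pow, norm_pow]
        exact hAe1) hN2
    have hg : ∀ y : ℂ, (A ^ (n * α) * (PP 1).1 ^ 0 * (X - 1) ^ (n * β + 1) +
        (-1) ^ (n * β + 1) * ((X - 1) * (B ^ (n * α) * (PP 1).2 ^ 0))).eval y =
        (-1) ^ (n * β) * (y - 1) *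
          ((A ^ α * (1 - X) ^ β).eval y ^ n - (B ^ α).eval y ^ n) := by
      intro y
      simp only [eval_add, eval_mul, eval_pow, eval_sub, eval_X, eval_one, eval_neg, pow_zero,
        mul_one]
      have h3 : (y - 1) ^ (n * β) = (-1) ^ (n * β) * (1 - y) ^ (n * β) := by
        rw [← mul_pow]
        congr 1
        ring
      rw [pow_succ (y - 1), h3]
      ring
    refine hend (n * α) 0 (n * β + 1) z hz ?_ ?_
    · intro h0
      have h3 := hg z2
      rw [h0, eval_zero] at h3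
      have h4 : (-1 : ℂ) ^ (n * β) * (z2 - 1) ≠ 0 := by
        refine mul_ne_zero (pow_ne_zero _ (by norm_num)) ?_
        have := hu0 z2 hz2
        intro h
        exact this (by linear_combination -h)
      have h5 := (mul_eq_zero.1 h3.symm).resolve_left h4
      have h6 := congrArg norm (sub_eq_zero.1 h5)
      rw [norm_pow, norm_pow] at h6
      exact hN2 ((pow_left_inj₀ (norm_nonneg _) (norm_nonneg _) hn.ne').1 h6)
    · rw [hg, hzn, sub_self, mul_zero]

end Pool.Agent.TH48
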