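import Pool.Agent.TH48.Defs

/-!
# C1 (MEDIUM): counting, parallel composition
`cnt (parG G H) k x y = cnt G k x y * cnt H k x y`: `Equiv.sumArrowEquivProdArrow`, and the condition on
`c : I ⊕ J → Fin k` is the condition on `c ∘ inl` for `G` and on `c ∘ inr` for `H`
(`SimpleGraph.map_adj`, `col c x y (eL I J p) = col (c ∘ inl) x y p`). Then `Counts`: cases `x = y` or not, `Nat.cast_mul`.
-/

set_option autoImplicit false

namespace Pool.Agent.TH48

open Pool.Agent.TC47 Polynomial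

private lemma C1_colL {I J : Type} {k : ℕ} (c : I ⊕ J → Fin k) (x y : Fin k) (p : I ⊕ Bool) :
    col c x y (eL I J p) = col (fun i => c (Sum.inl i)) x y p := by
  rcases p with i | b
  · rfl
  · cases b <;> rfl

private lemma C1_colR {I J : Type} {k : ℕ} (c : I ⊕ J → Fin k) (x y : Fin k) (p : J ⊕ Bool) :
    col c x y (eR I J p) = col (fun i => c (Sum.inr i)) x y p := by
  rcases p with i | b
  · rfl
  · cases b <;> rfl

private lemma C1_cond {I J : Type} (G : SimpleGraph (I ⊕ Bool))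
    (H : SimpleGraph (J ⊕ Bool)) {k : ℕ} (x y : Fin k) (c : I ⊕ J → Fin k) :
    (∀ p q, (parG G H).Adj p q → col c x y p ≠ col c x y q) ↔
      (∀ p q, G.Adj p q → col (fun i => c (Sum.inl i)) x y p ≠ col (fun i => c (Sum.inl i)) x y q) ∧
      (∀ p q, H.Adj p q → col (fun i => c (Sum.inr i)) x y p ≠ col (fun i => c (Sum.inr i)) x y q) := by
  constructor
  · intro h
    refine ⟨fun p q hpq => ?_, fun p q hpq => ?_⟩
    · have := h (eL I J p) (eL I J q) (by
        rw [parG, SimpleGraph.sup_adj, SimpleGraph.map_adj]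
        exact Or.inl ⟨p, q, hpq, rfl, rfl⟩)
      rwa [C1_colL, C1_colL] at this
    · have := h (eR I J p) (eR I J q) (by
        rw [parG, SimpleGraph.sup_adj, SimpleGraph.map_adj, SimpleGraph.map_adj]
        exact Or.inr ⟨p, q, hpq, rfl, rfl⟩)
      rwa [C1_colR, C1_colR] at this
  · rintro ⟨h1, h2⟩ p q hpq
    rw [parG, SimpleGraph.sup_adj, SimpleGraph.map_adj, SimpleGraph.map_adj] at hpq
    rcases hpq with ⟨a, b, hab, rfl, rfl⟩ | ⟨a, b, hab, rfl, rfl⟩
    · rw [C1_colL, C1_colL]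
      exact h1 a b hab
    · rw [C1_colR, C1_colR]
      exact h2 a b hab

theorem cnt_par {I J : Type} [Finite I] [Finite J] (G : SimpleGraph (I ⊕ Bool))
    (H : SimpleGraph (J ⊕ Bool)) (k : ℕ) (x y : Fin k) :
    cnt (parG G H) k x y = cnt G k x y * cnt H k x y := by
  rw [cnt, cnt, cnt, ← Nat.card_prod]
  refine Nat.card_congr
    { toFun := fun c => (⟨fun i => c.1 (Sum.inl i), ((C1_cond G H x y c.1).1 c.2).1⟩,
        ⟨fun j => c.1 (Sum.inr j), ((C1_cond G H x y c.1).1 c.2).2⟩)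
      invFun := fun p => ⟨Sum.elim p.1.1 p.2.1, (C1_cond G H x y _).2 ⟨p.1.2, p.2.2⟩⟩
      left_inv := ?_
      right_inv := ?_ }
  · rintro ⟨c, hc⟩
    apply Subtype.ext
    funext i
    cases i <;> rfl
  · rintro ⟨⟨c, hc⟩, ⟨d, hd⟩⟩
    rfl

theorem counts_par {I J : Type} [Finite I] [Finite J] (G : SimpleGraph (I ⊕ Bool))
    (H : SimpleGraph (J ⊕ Bool)) (A B A' B' : ℂ[X]) (h : Counts G A B) (h' : Counts H A' B') :
    Counts (parG G H) (A * A') (B * B') := by
  intro k x y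
  rw [cnt_par, Nat.cast_mul, h k x y, h' k x y]
  by_cases hxy : x = y
  · rw [if_pos hxy, if_pos hxy, if_pos hxy, Polynomial.eval_mul]
  · rw [if_neg hxy, if_neg hxy, if_neg hxy, Polynomial.eval_mul]

end Pool.Agent.TH48
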