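import Pool.Agent.TH48.Defs

/-!
# C2 (MEDIUM): counting, series composition with one edge
A function `c : Option I → Fin k` is `z = c none` and `c ∘ some`; condition: `z ≠ y` and the condition of `G` with
colours `x`, `z` at the terminals. So `cnt (stepG G) k x y = ∑ z, if z = y then 0 else cnt G k x z`. Then `Counts`:
if `x = y` every `z ≠ y` gives `B` (`k - 1` times), if `x ≠ y` then `z = x` gives `A` and the other `k - 2` give `B`.
-/

set_option autoImplicit false

namespace Pool.Agent.TH48

open Pool.Agent.TC47 Polynomial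

private theorem C2_col {I : Type} {k : ℕ} (c : Option I → Fin k) (x y : Fin k) (p : I ⊕ Bool) :
    col c x y (eS I p) = col (fun i => c (some i)) x (c none) p := by
  rcases p with i | (_ | _) <;> rfl

private theorem C2_iff {I : Type} {k : ℕ} (G : SimpleGraph (I ⊕ Bool)) (c : Option I → Fin k)
    (x y : Fin k) :
    (∀ p q, (stepG G).Adj p q → col c x y p ≠ col c x y q) ↔
      (c none ≠ y ∧ ∀ p q, G.Adj p q →
        col (fun i => c (some i)) x (c none) p ≠ col (fun i => c (some i)) x (c none) q) := by
  constructor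
  · intro h
    refine ⟨?_, fun p q hpq => ?_⟩
    · have h1 : (stepG G).Adj (.inl none) (.inr true) := by
        unfold stepG
        rw [SimpleGraph.sup_adj]
        right
        rw [SimpleGraph.edge_adj]
        simp
      exact h _ _ h1
    · rw [← C2_col c x y p, ← C2_col c x y q]
      apply h
      unfold stepG
      rw [SimpleGraph.sup_adj]
      left
      exact (SimpleGraph.map_adj _ _ _ _).2 ⟨p, q, hpq, rfl, rfl⟩
  · rintro ⟨h1, h2⟩ p q hpq
    unfold stepG at hpq
    rw [SimpleGraph.sup_adj] at hpq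
    rcases hpq with hpq | hpq
    · obtain ⟨p', q', h3, rfl, rfl⟩ := (SimpleGraph.map_adj _ _ _ _).1 hpq
      rw [C2_col, C2_col]
      exact h2 _ _ h3
    · rw [SimpleGraph.edge_adj] at hpq
      rcases hpq.1 with ⟨rfl, rfl⟩ | ⟨rfl, rfl⟩
      · exact h1
      · exact fun h => h1 h.symm

theorem cnt_step {I : Type} [Finite I] (G : SimpleGraph (I ⊕ Bool)) (k : ℕ) (x y : Fin k) :
    cnt (stepG G) k x y = ∑ z : Fin k, if z = y then 0 else cnt G k x z := by
  have hcard : cnt (stepG G) k x y = Nat.card (Σ z : Fin k, {c : I → Fin k //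
      z ≠ y ∧ ∀ p q, G.Adj p q → col c x z p ≠ col c x z q}) := by
    unfold cnt
    refine Nat.card_congr ⟨fun c => ⟨c.1 none, fun i => c.1 (some i), (C2_iff G c.1 x y).1 c.2⟩,
      fun s => ⟨fun o => o.elim s.1 s.2.1, (C2_iff G _ x y).2 s.2.2⟩, ?_, ?_⟩
    · intro c
      apply Subtype.ext
      funext o
      cases o <;> rfl
    · intro s
      rfl
  rw [hcard, Nat.card_sigma]
  refine Finset.sum_congr rfl fun z _ => ?_
  by_cases hz : z = y
  · rw [if_pos hz]
    have hE : IsEmpty {c : I → Fin k //
        z ≠ y ∧ ∀ p q, G.Adj p q → col c x z p ≠ col c x z q} := ⟨fun c => c.2.1 hz⟩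
    exact Nat.card_of_isEmpty
  · rw [if_neg hz]
    unfold cnt
    exact Nat.card_congr (Equiv.subtypeEquivRight fun c => ⟨fun h => h.2, fun h => ⟨hz, h⟩⟩)

theorem counts_step {I : Type} [Finite I] (G : SimpleGraph (I ⊕ Bool)) (A B : ℂ[X])
    (h : Counts G A B) : Counts (stepG G) ((X - 1) * B) (A + (X - 2) * B) := by
  intro k x y
  rw [cnt_step]
  push_cast
  have h1 : ∀ z : Fin k, (if z = y then (0 : ℂ) else (cnt G k x z : ℂ)) =
      if z = y then 0 else (if x = z then A.eval (k : ℂ) else B.eval (k : ℂ)) := by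
    intro z
    rw [h k x z]
  rw [Finset.sum_congr rfl fun z _ => h1 z]
  have h2 : (2 : ℂ[X]) = C 2 := rfl
  by_cases hxy : x = y
  · subst hxy
    rw [if_pos rfl, eval_mul, eval_sub, eval_X, eval_one]
    have h3 : ∀ z : Fin k, (if z = x then (0 : ℂ) else
        (if x = z then A.eval (k : ℂ) else B.eval (k : ℂ))) =
        B.eval (k : ℂ) - (if z = x then B.eval (k : ℂ) else 0) := by
      intro z
      by_cases hz : z = x
      · rw [if_pos hz, if_pos hz, sub_self]
      · rw [if_neg hz, if_neg hz, if_neg (fun h => hz h.symm), sub_zero]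
    rw [Finset.sum_congr rfl fun z _ => h3 z, Finset.sum_sub_distrib, Finset.sum_const,
      Finset.card_univ, Fintype.card_fin, Finset.sum_ite_eq', if_pos (Finset.mem_univ _),
      nsmul_eq_mul]
    ring
  · rw [if_neg hxy, eval_add, eval_mul, eval_sub, eval_X, h2, eval_C]
    have h3 : ∀ z : Fin k, (if z = y then (0 : ℂ) else
        (if x = z then A.eval (k : ℂ) else B.eval (k : ℂ))) =
        B.eval (k : ℂ) - (if z = y then B.eval (k : ℂ) else 0) +
          (if x = z then A.eval (k : ℂ) - B.eval (k : ℂ) else 0) := by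
      intro z
      by_cases hz : z = y
      · have hz' : ¬ x = z := fun h => hxy (h.trans hz)
        rw [if_pos hz, if_pos hz, if_neg hz', sub_self, add_zero]
      · by_cases hz' : x = z
        · rw [if_neg hz, if_neg hz, if_pos hz', if_pos hz']
          ring
        · rw [if_neg hz, if_neg hz, if_neg hz', if_neg hz']
          ring
    rw [Finset.sum_congr rfl fun z _ => h3 z, Finset.sum_add_distrib, Finset.sum_sub_distrib,
      Finset.sum_const, Finset.card_univ, Fintype.card_fin, Finset.sum_ite_eq',
      if_pos (Finset.mem_univ _), Finset.sum_ite_eq, if_pos (Finset.mem_univ _), nsmul_eq_mul]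
    ring

end Pool.Agent.TH48
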