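import Pool.Agent.TH48.Defs

/-!
# C3 (MEDIUM): the chromatic polynomial of a network; `B` is not zero
The colourings of `G` are the pairs of colours `x`, `y` of the terminals and the colourings counted by
`cnt G k x y`, so `P = X * (A + (X - 1) * B)` is a chromatic polynomial
(`∑ x, ∑ y, (if x = y then a else b) = k a + k (k - 1) b`); `mem_planarRoots`. `B ≠ 0`: for `k = card I + 2` some injective map
to `Fin k` is a proper colouring with different colours at the terminals, so `cnt G k x y > 0` for its `x`, `y`.
-/

set_option autoImplicit false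

namespace Pool.Agent.TH48

open Pool.Agent.TC47 Polynomial

private theorem C3_sum (k : ℕ) (a b : ℂ) :
    ∑ x : Fin k, ∑ y : Fin k, (if x = y then a else b) = (k : ℂ) * (a + ((k : ℂ) - 1) * b) := by
  have h1 : ∀ x : Fin k, ∑ y : Fin k, (if x = y then a else b) = a + ((k : ℂ) - 1) * b := by
    intro x
    have h2 : ∀ y : Fin k, (if x = y then a else b) = b + (if x = y then a - b else 0) := by
      intro y
      by_cases h : x = y
      · rw [if_pos h, if_pos h]
        ring
      · rw [if_neg h, if_neg h]
        ring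
    rw [Finset.sum_congr rfl fun y _ => h2 y, Finset.sum_add_distrib, Finset.sum_ite_eq,
      if_pos (Finset.mem_univ x), Finset.sum_const, Finset.card_univ, Fintype.card_fin,
      nsmul_eq_mul]
    ring
  rw [Finset.sum_congr rfl fun x _ => h1 x, Finset.sum_const, Finset.card_univ, Fintype.card_fin,
    nsmul_eq_mul]

private def C3_equiv {I : Type} (G : SimpleGraph (I ⊕ Bool)) (k : ℕ) :
    G.Coloring (Fin k) ≃ Σ a : Fin k × Fin k,
      {c : I → Fin k // ∀ p q, G.Adj p q → col c a.1 a.2 p ≠ col c a.1 a.2 q} where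
  toFun C := ⟨(C (.inr false), C (.inr true)), ⟨fun i => C (.inl i), by
    have h : ∀ p, col (fun i => C (.inl i)) (C (.inr false)) (C (.inr true)) p = C p := by
      rintro (i | (_ | _)) <;> rfl
    intro p q hpq
    simp only [h]
    exact C.valid hpq⟩⟩
  invFun s := SimpleGraph.Coloring.mk (col s.2.1 s.1.1 s.1.2) (fun {p q} hpq => s.2.2 p q hpq)
  left_inv C := by
    ext p
    rcases p with i | (_ | _) <;> rfl
  right_inv s := by
    rcases s with ⟨⟨x, y⟩, ⟨c, hc⟩⟩
    rfl

private theorem C3_card {I : Type} [Fintype I] (G : SimpleGraph (I ⊕ Bool)) (k : ℕ) :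
    Nat.card (G.Coloring (Fin k)) = ∑ x : Fin k, ∑ y : Fin k, cnt G k x y := by
  rw [Nat.card_congr (C3_equiv G k), Nat.card_sigma, Fintype.sum_prod_type]
  rfl

theorem counts_poly {I : Type} [Fintype I] (G : SimpleGraph (I ⊕ Bool)) (A B : ℂ[X])
    (h : Counts G A B) : Ch3.IsChromaticPoly G (X * (A + (X - 1) * B)) := by
  intro k
  rw [C3_card]
  push_cast
  have h1 : ∀ x y : Fin k, (cnt G k x y : ℂ) = if x = y then A.eval (k : ℂ) else B.eval (k : ℂ) :=
    h k
  rw [Finset.sum_congr rfl fun x _ => Finset.sum_congr rfl fun y _ => h1 x y, C3_sum]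
  simp only [eval_mul, eval_add, eval_sub, eval_X, eval_one]

theorem net_root (A B : ℂ[X]) (h : Net A B) (z : ℂ)
    (hz : A.eval z + (z - 1) * B.eval z = 0) : z ∈ planarRoots := by
  obtain ⟨I, _, G, ⟨f, hf⟩, hc⟩ := h
  refine mem_planarRoots G ⟨f, hf.1⟩ _ (counts_poly G A B hc) z ?_
  simp only [eval_mul, eval_add, eval_sub, eval_X, eval_one]
  rw [hz, mul_zero]

theorem net_ne_zero (A B : ℂ[X]) (h : Net A B) : B ≠ 0 := by
  obtain ⟨I, _, G, -, hc⟩ := h
  rintro rfl
  have h1 := hc (Fintype.card I + 2) ⟨0, by omega⟩ ⟨1, by omega⟩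
  rw [if_neg (by intro h2; exact absurd (congrArg Fin.val h2) (by simp)), Polynomial.eval_zero] at h1
  have h2 : cnt G (Fintype.card I + 2) ⟨0, by omega⟩ ⟨1, by omega⟩ = 0 := by
    exact_mod_cast h1
  have h3 : Function.Injective (col (fun i : I =>
      (⟨(Fintype.equivFin I i).val + 2, by omega⟩ : Fin (Fintype.card I + 2)))
        ⟨0, by omega⟩ ⟨1, by omega⟩) := by
    rintro (i | (_ | _)) (j | (_ | _)) hij
    · have h4 := congrArg Fin.val hij
      simp only [col] at h4
      have h5 : Fintype.equivFin I i = Fintype.equivFin I j := Fin.ext (by omega)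
      rw [(Fintype.equivFin I).injective h5]
    · have h4 := congrArg Fin.val hij
      simp only [col] at h4
      omega
    · have h4 := congrArg Fin.val hij
      simp only [col] at h4
      omega
    · have h4 := congrArg Fin.val hij
      simp only [col] at h4
      omega
    · rfl
    · have h4 := congrArg Fin.val hij
      simp only [col] at h4
      omega
    · have h4 := congrArg Fin.val hij
      simp only [col] at h4
      omega
    · have h4 := congrArg Fin.val hij
      simp only [col] at h4
      omega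
    · rfl
  unfold cnt at h2
  rw [Nat.card_eq_zero] at h2
  rcases h2 with h2 | h2
  · exact h2.false ⟨_, fun p q hpq hcol => hpq.ne (h3 hcol)⟩
  · exact not_finite_iff_infinite.2 h2 inferInstance

end Pool.Agent.TH48
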