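import Pool.Agent.TH48.Defs

/-!
# C4 (MEDIUM): every network has counts
`LibChromRoots.constraint_poly` with `E` = the edges (ordered pairs), `F = {(s, t)}` gives a polynomial `R` with
`R(k) = ∑ x, cnt G k x x`; by permuting the colours (`Equiv.swap x x'`) `cnt G k x x = cnt G k x' x'`, so `R(k) = k cnt G k x x`;
`R(0) = 0` (no function `I ⊕ Bool → Fin 0`), so `R = X * A`. In the same way with `E` = edges and the pair `(s, t)`, `F = ∅`:
`R'(k) = k (k - 1) cnt G k x y` for `x ≠ y` (for `x ≠ y`, `x' ≠ y'` some permutation maps `x` to `x'` and `y` to `y'`), `R'(0) = R'(1) = 0`, so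
`R' = X * (X - 1) * B`. For `k = 0` and (second part) `k ≤ 1` there is nothing to show in `Counts`.
-/

set_option autoImplicit false

namespace Pool.Agent.TH48

open Pool.Agent.TC47 Polynomial

private theorem C4_col {I : Type} {k : ℕ} (c : I ⊕ Bool → Fin k) :
    col (fun i => c (.inl i)) (c (.inr false)) (c (.inr true)) = c := by
  funext p
  rcases p with i | (_ | _) <;> rfl

private theorem C4_perm {I : Type} {k : ℕ} (π : Equiv.Perm (Fin k)) (c : I → Fin k) (x y : Fin k)
    (p : I ⊕ Bool) : col (fun i => π (c i)) (π x) (π y) p = π (col c x y p) := by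
  rcases p with i | (_ | _) <;> rfl

private theorem C4_inv {I : Type} (G : SimpleGraph (I ⊕ Bool)) {k : ℕ} (π : Equiv.Perm (Fin k))
    (x y : Fin k) : cnt G k (π x) (π y) = cnt G k x y := by
  unfold cnt
  symm
  refine Nat.card_congr ((Equiv.arrowCongr (Equiv.refl I) π).subtypeEquiv fun c => ?_)
  have h : ∀ p, col ((Equiv.arrowCongr (Equiv.refl I) π) c) (π x) (π y) p = π (col c x y p) :=
    fun p => C4_perm π c x y p
  constructor
  · intro hc p q hpq
    rw [h p, h q]
    exact fun e => hc p q hpq (π.injective e)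
  · intro hc p q hpq e
    apply hc p q hpq
    rw [h p, h q, e]

private theorem C4_eq {I : Type} (G : SimpleGraph (I ⊕ Bool)) {k : ℕ} (x x' : Fin k) :
    cnt G k x' x' = cnt G k x x := by
  have h := C4_inv G (Equiv.swap x x') x x
  rwa [Equiv.swap_apply_left] at h

private theorem C4_ne {I : Type} (G : SimpleGraph (I ⊕ Bool)) {k : ℕ} {x y x' y' : Fin k}
    (h : x ≠ y) (h' : x' ≠ y') : cnt G k x' y' = cnt G k x y := by
  have h1 := C4_inv G (Equiv.swap x x') x y
  rw [Equiv.swap_apply_left] at h1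
  set y1 := Equiv.swap x x' y with hy1
  have h2 : x' ≠ y1 := by
    intro e
    apply h
    have e1 : Equiv.swap x x' x = x' := Equiv.swap_apply_left x x'
    rw [← e1, hy1] at e
    exact (Equiv.swap x x').injective e
  have h3 := C4_inv G (Equiv.swap y1 y') x' y1
  rw [Equiv.swap_apply_left, Equiv.swap_apply_of_ne_of_ne h2 h'] at h3
  rw [h3, h1]

private theorem C4_fib {I : Type} [Fintype I] (G : SimpleGraph (I ⊕ Bool)) (k : ℕ)
    (Q : Fin k → Fin k → Prop) [DecidablePred fun a : Fin k × Fin k => Q a.1 a.2] :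
    Nat.card {c : I ⊕ Bool → Fin k // (∀ p q, G.Adj p q → c p ≠ c q) ∧
      Q (c (.inr false)) (c (.inr true))} =
      ∑ a ∈ (Finset.univ : Finset (Fin k × Fin k)).filter (fun a => Q a.1 a.2),
        cnt G k a.1 a.2 := by
  classical
  have e : {c : I ⊕ Bool → Fin k // (∀ p q, G.Adj p q → c p ≠ c q) ∧
      Q (c (.inr false)) (c (.inr true))} ≃
      Σ a : {a : Fin k × Fin k // Q a.1 a.2}, {c : I → Fin k // ∀ p q, G.Adj p q →
        col c a.1.1 a.1.2 p ≠ col c a.1.1 a.1.2 q} :=
    { toFun := fun c => ⟨⟨(c.1 (.inr false), c.1 (.inr true)), c.2.2⟩, ⟨fun i => c.1 (.inl i), by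
        intro p q hpq
        rw [C4_col c.1]
        exact c.2.1 p q hpq⟩⟩
      invFun := fun c => ⟨col c.2.1 c.1.1.1 c.1.1.2, c.2.2, c.1.2⟩
      left_inv := fun c => Subtype.ext (C4_col c.1)
      right_inv := fun c => rfl }
  rw [Nat.card_congr e, Nat.card_sigma, ← Finset.sum_subtype_eq_sum_filter]
  refine (Finset.sum_congr ?_ fun a _ => rfl)
  ext a
  simp

theorem counts_exist {I : Type} [Fintype I] (G : SimpleGraph (I ⊕ Bool)) :
    ∃ A B : ℂ[X], Counts G A B := by
  classical
  set E : Finset ((I ⊕ Bool) × (I ⊕ Bool)) :=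
    Finset.univ.filter fun e => G.Adj e.1 e.2 with hE
  obtain ⟨R, hR⟩ := LibChromRoots.constraint_poly E {(.inr false, .inr true)}
  obtain ⟨R', hR'⟩ := LibChromRoots.constraint_poly (insert (.inr false, .inr true) E) ∅
  have h1 : ∀ k : ℕ, R.eval (k : ℂ) = ((∑ a ∈ (Finset.univ : Finset (Fin k × Fin k)).filter
      (fun a => a.1 = a.2), cnt G k a.1 a.2 : ℕ) : ℂ) := by
    intro k
    rw [hR k, ← C4_fib G k (fun x y => x = y)]
    congr 1
    refine Nat.card_congr (Equiv.subtypeEquivRight fun c => ?_)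
    refine and_congr ?_ ?_
    · constructor
      · intro h p q hpq
        exact h (p, q) (Finset.mem_filter.2 ⟨Finset.mem_univ _, hpq⟩)
      · intro h e he
        exact h e.1 e.2 (Finset.mem_filter.1 he).2
    · constructor
      · intro h
        exact h _ (Finset.mem_singleton_self _)
      · intro h e he
        rw [Finset.mem_singleton.1 he]
        exact h
  have h2 : ∀ k : ℕ, R'.eval (k : ℂ) = ((∑ a ∈ (Finset.univ : Finset (Fin k × Fin k)).filter
      (fun a => a.1 ≠ a.2), cnt G k a.1 a.2 : ℕ) : ℂ) := by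
    intro k
    rw [hR' k, ← C4_fib G k (fun x y => x ≠ y)]
    congr 1
    refine Nat.card_congr (Equiv.subtypeEquivRight fun c => ?_)
    constructor
    · rintro ⟨h, -⟩
      refine ⟨fun p q hpq => ?_, ?_⟩
      · exact h (p, q) (Finset.mem_insert_of_mem (Finset.mem_filter.2 ⟨Finset.mem_univ _, hpq⟩))
      · exact h _ (Finset.mem_insert_self _ _)
    · rintro ⟨h, h'⟩
      refine ⟨fun e he => ?_, fun e he => absurd he (Finset.notMem_empty e)⟩
      rcases Finset.mem_insert.1 he with rfl | he
      · exact h'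
      · exact h e.1 e.2 (Finset.mem_filter.1 he).2
  have h3 : ∀ (k : ℕ) (x : Fin k), R.eval (k : ℂ) = k * (cnt G k x x : ℂ) := by
    intro k x
    rw [h1 k]
    have e1 : ∑ a ∈ (Finset.univ : Finset (Fin k × Fin k)).filter (fun a => a.1 = a.2),
        cnt G k a.1 a.2 = ∑ a ∈ (Finset.univ : Finset (Fin k × Fin k)).filter
        (fun a => a.1 = a.2), cnt G k x x := by
      refine Finset.sum_congr rfl fun a ha => ?_
      rw [← (Finset.mem_filter.1 ha).2]
      exact C4_eq G x a.1
    have e2 : ((Finset.univ : Finset (Fin k × Fin k)).filter (fun a => a.1 = a.2)).card = k := by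
      have : ((Finset.univ : Finset (Fin k × Fin k)).filter (fun a => a.1 = a.2)) =
          (Finset.univ : Finset (Fin k)).diag := by
        ext a
        simp [Finset.mem_diag]
      rw [this, Finset.diag_card, Finset.card_univ, Fintype.card_fin]
    rw [e1, Finset.sum_const, e2, smul_eq_mul, Nat.cast_mul]
  have h4 : ∀ (k : ℕ) (x y : Fin k), x ≠ y →
      R'.eval (k : ℂ) = k * (k - 1) * (cnt G k x y : ℂ) := by
    intro k x y hxy
    rw [h2 k]
    have e1 : ∑ a ∈ (Finset.univ : Finset (Fin k × Fin k)).filter (fun a => a.1 ≠ a.2),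
        cnt G k a.1 a.2 = ∑ a ∈ (Finset.univ : Finset (Fin k × Fin k)).filter
        (fun a => a.1 ≠ a.2), cnt G k x y := by
      refine Finset.sum_congr rfl fun a ha => ?_
      exact C4_ne G hxy (Finset.mem_filter.1 ha).2
    have e2 : ((Finset.univ : Finset (Fin k × Fin k)).filter (fun a => a.1 ≠ a.2)).card =
        k * k - k := by
      have : ((Finset.univ : Finset (Fin k × Fin k)).filter (fun a => a.1 ≠ a.2)) =
          (Finset.univ : Finset (Fin k)).offDiag := by
        ext a
        simp [Finset.mem_offDiag]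
      rw [this, Finset.offDiag_card, Finset.card_univ, Fintype.card_fin]
    rw [e1, Finset.sum_const, e2, smul_eq_mul, Nat.cast_mul,
      Nat.cast_sub (Nat.le_mul_self k), Nat.cast_mul]
    ring
  have r0 : R.eval 0 = 0 := by
    have := h1 0
    rw [Nat.cast_zero] at this
    rw [this]
    simp
  have r0' : R'.eval 0 = 0 := by
    have := h2 0
    rw [Nat.cast_zero] at this
    rw [this]
    simp
  have r1' : R'.eval 1 = 0 := by
    have := h2 1
    rw [Nat.cast_one] at this
    rw [this]
    have e : (Finset.univ : Finset (Fin 1 × Fin 1)).filter (fun a => a.1 ≠ a.2) = ∅ := by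
      rw [Finset.filter_eq_empty_iff]
      intro a _ h
      exact h (Subsingleton.elim _ _)
    rw [e, Finset.sum_empty, Nat.cast_zero]
  obtain ⟨A, hA⟩ : (X : ℂ[X]) ∣ R := by
    have := (Polynomial.dvd_iff_isRoot (p := R) (a := 0)).2 r0
    rwa [Polynomial.C_0, sub_zero] at this
  obtain ⟨B1, hB1⟩ : (X : ℂ[X]) ∣ R' := by
    have := (Polynomial.dvd_iff_isRoot (p := R') (a := 0)).2 r0'
    rwa [Polynomial.C_0, sub_zero] at this
  have hB0 : B1.eval 1 = 0 := by
    rw [hB1, Polynomial.eval_mul, Polynomial.eval_X, one_mul] at r1'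
    exact r1'
  obtain ⟨B, hB⟩ := (Polynomial.dvd_iff_isRoot (p := B1) (a := 1)).2 hB0
  refine ⟨A, B, fun k x y => ?_⟩
  have hk : (k : ℂ) ≠ 0 := by
    have : 0 < k := x.pos
    exact_mod_cast this.ne'
  split_ifs with hxy
  · subst hxy
    have h5 := h3 k x
    rw [hA, Polynomial.eval_mul, Polynomial.eval_X] at h5
    exact (mul_left_cancel₀ hk h5).symm
  · have hk1 : (k : ℂ) - 1 ≠ 0 := by
      intro e
      have e1 : (k : ℂ) = 1 := by linear_combination e
      have e2 : k = 1 := by exact_mod_cast e1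
      subst e2
      exact hxy (Subsingleton.elim _ _)
    have h5 := h4 k x y hxy
    rw [hB1, hB, Polynomial.eval_mul, Polynomial.eval_mul, Polynomial.eval_X,
      Polynomial.eval_sub, Polynomial.eval_X, Polynomial.eval_C, ← mul_assoc] at h5
    exact (mul_left_cancel₀ (mul_ne_zero hk hk1) h5).symm

end Pool.Agent.TH48
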