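import Pool.Agent.TH48.Defs

/-!
# C5 (MEDIUM): from a graph with a hull edge to a network
`I = {v // v ≠ s ∧ v ≠ t}`, `e : I ⊕ Bool ≃ V`, `G' = (G.deleteEdges {s(s, t)}).comap e`, drawing
`x ↦ (f (e x) - f s) / (f t - f s)` (a complex affine map of a drawing of a graph with more edges). With `A`, `B` the counts of `G'`:
the colourings of `G` are those of `G.deleteEdges {s(s, t)}` with different colours at `s`, `t`: `P = X * (X - 1) * B`;
`Q = X * A + X * (X - 1) * B` (count all pairs of colours at `s`, `t`); polynomials equal at all naturals are equal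
(`LibChromRoots.poly_eq_of_nat`). (For `Drawing` of the affine image: `P0.drawing_affine` is another row; here it is the hypothesis `haff`.)
-/

set_option autoImplicit false

namespace Pool.Agent.TH48

open Pool.Agent.TC47 Polynomial

/-- the vertices as inner vertices and two terminals -/
private def C5_e {V : Type} [DecidableEq V] (s t : V) (hne : s ≠ t) :
    {v : V // v ≠ s ∧ v ≠ t} ⊕ Bool ≃ V where
  toFun x := match x with
    | .inl i => i.1
    | .inr false => s
    | .inr true => t
  invFun v := if hs : v = s then .inr false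
    else if ht : v = t then .inr true else .inl ⟨v, hs, ht⟩
  left_inv := by
    rintro (⟨v, hs, ht⟩ | (_ | _))
    · simp [hs, ht]
    · simp
    · simp [hne.symm]
  right_inv := by
    intro v
    by_cases hs : v = s
    · simp [hs]
    · by_cases ht : v = t
      · subst ht
        simp [hs]
      · simp [hs, ht]

private theorem C5_col {I W : Type} {k : ℕ} (g : I ⊕ Bool → Fin k) (x : I ⊕ Bool) :
    col (fun i => g (.inl i)) (g (.inr false)) (g (.inr true)) x = g x := by
  rcases x with i | (_ | _) <;> rfl

private theorem C5_card {V I : Type} [Fintype I] (e : I ⊕ Bool ≃ V) (H : SimpleGraph V)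
    (k : ℕ) :
    Nat.card (H.Coloring (Fin k)) = ∑ z : Fin k × Fin k, cnt (H.comap e) k z.1 z.2 := by
  classical
  have h : Nat.card (Σ z : Fin k × Fin k, {c : I → Fin k //
      ∀ p q, (H.comap e).Adj p q → col c z.1 z.2 p ≠ col c z.1 z.2 q}) =
      ∑ z : Fin k × Fin k, cnt (H.comap e) k z.1 z.2 := Nat.card_sigma
  rw [← h, ← Nat.card_congr (Equiv.subtypeProdEquivSigmaSubtype
    (fun (z : Fin k × Fin k) (c : I → Fin k) =>
      ∀ p q, (H.comap e).Adj p q → col c z.1 z.2 p ≠ col c z.1 z.2 q))]
  refine Nat.card_congr ?_
  exact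
    { toFun := fun c => ⟨((c (e (.inr false)), c (e (.inr true))), fun i => c (e (.inl i))), by
        intro p q hpq
        rw [C5_col (W := V) (fun x => c (e x)), C5_col (W := V) (fun x => c (e x))]
        exact c.valid hpq⟩
      invFun := fun z => SimpleGraph.Coloring.mk
        (fun v => col z.1.2 z.1.1.1 z.1.1.2 (e.symm v)) (by
          intro u v huv
          exact z.2 _ _ (by simpa using huv))
      left_inv := by
        intro c
        ext v
        have h2 := C5_col (W := V) (fun x => c (e x)) (e.symm v)
        have h3 : c (e (e.symm v)) = c v := by rw [Equiv.apply_symm_apply]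
        exact congrArg Fin.val (h2.trans h3)
      right_inv := by
        rintro ⟨⟨⟨x, y⟩, c⟩, hc⟩
        apply Subtype.ext
        refine Prod.ext (Prod.ext ?_ ?_) ?_
        · change col c x y (e.symm (e (.inr false))) = x
          rw [Equiv.symm_apply_apply]
          rfl
        · change col c x y (e.symm (e (.inr true))) = y
          rw [Equiv.symm_apply_apply]
          rfl
        · funext i
          change col c x y (e.symm (e (.inl i))) = c i
          rw [Equiv.symm_apply_apply]
          rfl }

private theorem C5_sum (k : ℕ) (a b : ℂ) :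
    ∑ z : Fin k × Fin k, (if z.1 = z.2 then a else b) = k * a + k * (k - 1) * b := by
  classical
  rw [Fintype.sum_prod_type]
  have h1 : ∀ x : Fin k, ∑ y : Fin k, (if x = y then a else b) = k * b + (a - b) := by
    intro x
    have h2 : ∀ y : Fin k, (if x = y then a else b) = b + (if x = y then a - b else 0) := by
      intro y
      split_ifs <;> ring
    rw [Finset.sum_congr rfl fun y _ => h2 y, Finset.sum_add_distrib, Finset.sum_const,
      Finset.sum_ite_eq, if_pos (Finset.mem_univ _), Finset.card_univ, Fintype.card_fin,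
      nsmul_eq_mul]
  rw [Finset.sum_congr rfl fun x _ => h1 x, Finset.sum_const, Finset.card_univ,
    Fintype.card_fin, nsmul_eq_mul]
  ring

private theorem C5_cnt {V I : Type} [Fintype I] (e : I ⊕ Bool ≃ V) (G : SimpleGraph V) (s t : V)
    (hst : G.Adj s t) (hs : e (.inr false) = s) (ht : e (.inr true) = t) (k : ℕ) (x y : Fin k) :
    cnt (G.comap e) k x y =
      if x = y then 0 else cnt ((G.deleteEdges {s(s, t)}).comap e) k x y := by
  classical
  split_ifs with hxy
  · subst hxy
    unfold cnt
    have hem : IsEmpty {c : I → Fin k // ∀ p q, (G.comap e).Adj p q →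
        col c x x p ≠ col c x x q} := by
      refine ⟨fun c => ?_⟩
      refine c.2 (.inr false) (.inr true) ?_ rfl
      rw [SimpleGraph.comap_adj, hs, ht]
      exact hst
    exact Nat.card_of_isEmpty
  · unfold cnt
    refine Nat.card_congr (Equiv.subtypeEquivRight fun c => ?_)
    constructor
    · intro h p q hpq
      refine h p q ?_
      rw [SimpleGraph.comap_adj, SimpleGraph.deleteEdges_adj] at hpq
      exact hpq.1
    · intro h p q hpq
      by_cases h1 : s(e p, e q) = s(s, t)
      · rw [Sym2.eq_iff] at h1
        rcases h1 with ⟨h2, h3⟩ | ⟨h2, h3⟩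
        · have h4 : p = .inr false := e.injective (h2.trans hs.symm)
          have h5 : q = .inr true := e.injective (h3.trans ht.symm)
          subst h4
          subst h5
          exact hxy
        · have h4 : p = .inr true := e.injective (h2.trans ht.symm)
          have h5 : q = .inr false := e.injective (h3.trans hs.symm)
          subst h4
          subst h5
          exact fun h6 => hxy h6.symm
      · refine h p q ?_
        rw [SimpleGraph.comap_adj, SimpleGraph.deleteEdges_adj]
        exact ⟨hpq, h1⟩

theorem net_of_graph {V : Type} [Fintype V] (G : SimpleGraph V) (s t : V) (hst : G.Adj s t)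
    (f : V → ℂ) (hf : Drawing G f)
    (hull : ∀ v, v ≠ s → v ≠ t → 0 < ((f v - f s) / (f t - f s)).im)
    (haff : ∀ a b : ℂ, a ≠ 0 → Drawing G (fun v => a * f v + b))
    (hex : ∀ (I : Type) [Fintype I] (G : SimpleGraph (I ⊕ Bool)), ∃ A B : ℂ[X], Counts G A B)
    (P Q : ℂ[X]) (hP : Ch3.IsChromaticPoly G P)
    (hQ : Ch3.IsChromaticPoly (G.deleteEdges {s(s, t)}) Q) :
    ∃ A B : ℂ[X], Net A B ∧ P = X * (X - 1) * B ∧ Q - P = X * A := by
  classical
  have hne : s ≠ t := hst.ne
  set e := C5_e s t hne with he
  have hes : e (.inr false) = s := rfl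
  have het : e (.inr true) = t := rfl
  have hfne : f t - f s ≠ 0 := fun h => hne (hf.1 (sub_eq_zero.1 h)).symm
  obtain ⟨A, B, hAB⟩ := hex _ ((G.deleteEdges {s(s, t)}).comap e)
  have hd := haff (1 / (f t - f s)) (-(f s) / (f t - f s)) (one_div_ne_zero hfne)
  have hform : ∀ v, 1 / (f t - f s) * f v + -(f s) / (f t - f s) = (f v - f s) / (f t - f s) := by
    intro v
    ring
  have hPk : ∀ k : ℕ, P.eval (k : ℂ) = k * (k - 1) * B.eval (k : ℂ) := by
    intro k
    rw [hP k, C5_card e G k]
    push_cast
    have h1 : ∀ z : Fin k × Fin k, ((cnt (G.comap e) k z.1 z.2 : ℕ) : ℂ) =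
        if z.1 = z.2 then 0 else B.eval (k : ℂ) := by
      intro z
      rw [C5_cnt e G s t hst hes het k z.1 z.2]
      split_ifs with h
      · simp
      · have h2 := hAB k z.1 z.2
        rw [if_neg h] at h2
        exact h2
    rw [Finset.sum_congr rfl fun z _ => h1 z, C5_sum]
    ring
  have hQk : ∀ k : ℕ, Q.eval (k : ℂ) = k * A.eval (k : ℂ) + k * (k - 1) * B.eval (k : ℂ) := by
    intro k
    rw [hQ k, C5_card e _ k]
    push_cast
    rw [Finset.sum_congr rfl fun z _ => hAB k z.1 z.2, C5_sum]
  refine ⟨A, B, ⟨_, inferInstance, (G.deleteEdges {s(s, t)}).comap e,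
    ⟨fun x => 1 / (f t - f s) * f (e x) + -(f s) / (f t - f s), ?_, ?_, ?_, ?_⟩, hAB⟩, ?_, ?_⟩
  · refine ⟨fun x y h => e.injective (hd.1 h), ?_, ?_⟩
    · intro u v w huv hwu hwv
      rw [SimpleGraph.comap_adj, SimpleGraph.deleteEdges_adj] at huv
      exact hd.2.1 (e u) (e v) (e w) huv.1 (fun h => hwu (e.injective h))
        (fun h => hwv (e.injective h))
    · intro u v x y huv hxy h1 h2 h3 h4
      rw [SimpleGraph.comap_adj, SimpleGraph.deleteEdges_adj] at huv hxy
      exact hd.2.2 (e u) (e v) (e x) (e y) huv.1 hxy.1 (fun h => h1 (e.injective h))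
        (fun h => h2 (e.injective h)) (fun h => h3 (e.injective h))
        (fun h => h4 (e.injective h))
  · change 1 / (f t - f s) * f (e (.inr false)) + -(f s) / (f t - f s) = 0
    rw [hform, hes, sub_self, zero_div]
  · change 1 / (f t - f s) * f (e (.inr true)) + -(f s) / (f t - f s) = 1
    rw [hform, het, div_self hfne]
  · intro i
    change 0 < (1 / (f t - f s) * f (e (.inl i)) + -(f s) / (f t - f s)).im
    rw [hform]
    exact hull i.1 i.2.1 i.2.2
  · apply LibChromRoots.poly_eq_of_nat
    intro k
    rw [hPk k]
    simp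
  · apply LibChromRoots.poly_eq_of_nat
    intro k
    rw [Polynomial.eval_sub, hPk k, hQk k]
    simp

end Pool.Agent.TH48
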