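import Pool.Agent.TH48.Defs2

/-!
# C6 (MEDIUM): counting, series composition (compare `C2`, `TH48_C2.lean` in team-store, finished)
A function `c : I ⊕ J ⊕ Unit → Fin k` is `z = c (inr (inr ()))` and the restrictions to `I` and `J`; conditions: that of `G` with `x`, `z` at
the terminals and that of `H` with `z`, `y`. So `cnt (serG G H) k x y = ∑ z, cnt G k x z * cnt H k z y`. Then `Counts`: if `x = y`:
`z = x` gives `A A'`, the other `k - 1` give `B B'`; if `x ≠ y`: `z = x` gives `A B'`, `z = y` gives `B A'`, the other `k - 2` give `B B'`.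
-/

set_option autoImplicit false

namespace Pool.Agent.TH48

open Pool.Agent.TC47 Polynomial

private theorem C6_colM {I J : Type} {k : ℕ} (c : I ⊕ J ⊕ Unit → Fin k) (x y : Fin k)
    (p : I ⊕ Bool) :
    col c x y (eM I J p) = col (fun i => c (.inl i)) x (c (.inr (.inr ()))) p := by
  rcases p with i | (_ | _) <;> rfl

private theorem C6_colN {I J : Type} {k : ℕ} (c : I ⊕ J ⊕ Unit → Fin k) (x y : Fin k)
    (p : J ⊕ Bool) :
    col c x y (eN I J p) = col (fun j => c (.inr (.inl j))) (c (.inr (.inr ()))) y p := by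
  rcases p with i | (_ | _) <;> rfl

private theorem C6_iff {I J : Type} {k : ℕ} (G : SimpleGraph (I ⊕ Bool))
    (H : SimpleGraph (J ⊕ Bool)) (c : I ⊕ J ⊕ Unit → Fin k) (x y : Fin k) :
    (∀ p q, (serG G H).Adj p q → col c x y p ≠ col c x y q) ↔
      ((∀ p q, G.Adj p q → col (fun i => c (.inl i)) x (c (.inr (.inr ()))) p ≠
          col (fun i => c (.inl i)) x (c (.inr (.inr ()))) q) ∧
        ∀ p q, H.Adj p q → col (fun j => c (.inr (.inl j))) (c (.inr (.inr ()))) y p ≠
          col (fun j => c (.inr (.inl j))) (c (.inr (.inr ()))) y q) := by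
  constructor
  · intro h
    refine ⟨fun p q hpq => ?_, fun p q hpq => ?_⟩
    · rw [← C6_colM c x y p, ← C6_colM c x y q]
      apply h
      unfold serG
      rw [SimpleGraph.sup_adj]
      left
      exact (SimpleGraph.map_adj _ _ _ _).2 ⟨p, q, hpq, rfl, rfl⟩
    · rw [← C6_colN c x y p, ← C6_colN c x y q]
      apply h
      unfold serG
      rw [SimpleGraph.sup_adj]
      right
      exact (SimpleGraph.map_adj _ _ _ _).2 ⟨p, q, hpq, rfl, rfl⟩
  · rintro ⟨h1, h2⟩ p q hpq
    unfold serG at hpq
    rw [SimpleGraph.sup_adj] at hpq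
    rcases hpq with hpq | hpq
    · obtain ⟨p', q', h3, rfl, rfl⟩ := (SimpleGraph.map_adj _ _ _ _).1 hpq
      rw [C6_colM, C6_colM]
      exact h1 _ _ h3
    · obtain ⟨p', q', h3, rfl, rfl⟩ := (SimpleGraph.map_adj _ _ _ _).1 hpq
      rw [C6_colN, C6_colN]
      exact h2 _ _ h3

theorem cnt_ser {I J : Type} [Finite I] [Finite J] (G : SimpleGraph (I ⊕ Bool))
    (H : SimpleGraph (J ⊕ Bool)) (k : ℕ) (x y : Fin k) :
    cnt (serG G H) k x y = ∑ z : Fin k, cnt G k x z * cnt H k z y := by
  have hcard : cnt (serG G H) k x y = Nat.card (Σ z : Fin k,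
      ({c : I → Fin k // ∀ p q, G.Adj p q → col c x z p ≠ col c x z q} ×
        {c : J → Fin k // ∀ p q, H.Adj p q → col c z y p ≠ col c z y q})) := by
    unfold cnt
    refine Nat.card_congr ⟨fun c => ⟨c.1 (.inr (.inr ())),
        (⟨fun i => c.1 (.inl i), ((C6_iff G H c.1 x y).1 c.2).1⟩,
          ⟨fun j => c.1 (.inr (.inl j)), ((C6_iff G H c.1 x y).1 c.2).2⟩)⟩,
      fun s => ⟨Sum.elim s.2.1.1 (Sum.elim s.2.2.1 fun _ => s.1),
        (C6_iff G H _ x y).2 ⟨s.2.1.2, s.2.2.2⟩⟩, ?_, ?_⟩
    · intro c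
      apply Subtype.ext
      funext o
      rcases o with i | (j | _) <;> rfl
    · intro s
      rfl
  rw [hcard, Nat.card_sigma]
  refine Finset.sum_congr rfl fun z _ => ?_
  rw [Nat.card_prod]
  rfl

theorem counts_ser {I J : Type} [Finite I] [Finite J] (G : SimpleGraph (I ⊕ Bool))
    (H : SimpleGraph (J ⊕ Bool)) (A B A' B' : ℂ[X]) (h : Counts G A B) (h' : Counts H A' B') :
    Counts (serG G H) (A * A' + (X - 1) * (B * B')) (A * B' + B * A' + (X - 2) * (B * B')) := by
  intro k x y
  rw [cnt_ser]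
  push_cast
  have h1 : ∀ z : Fin k, (cnt G k x z : ℂ) * (cnt H k z y : ℂ) =
      (if x = z then A.eval (k : ℂ) else B.eval (k : ℂ)) *
        (if z = y then A'.eval (k : ℂ) else B'.eval (k : ℂ)) := by
    intro z
    rw [h k x z, h' k z y]
  rw [Finset.sum_congr rfl fun z _ => h1 z]
  have h2 : (2 : ℂ[X]) = C 2 := rfl
  set a := A.eval (k : ℂ) with ha
  set b := B.eval (k : ℂ) with hb
  set a' := A'.eval (k : ℂ) with ha'
  set b' := B'.eval (k : ℂ) with hb'
  by_cases hxy : x = y
  · subst hxy
    rw [if_pos rfl, eval_add, eval_mul, eval_mul, eval_mul, eval_sub, eval_X, eval_one,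
      ← ha, ← hb, ← ha', ← hb']
    have h3 : ∀ z : Fin k, (if x = z then a else b) * (if z = x then a' else b') =
        b * b' + (if x = z then a * a' - b * b' else 0) := by
      intro z
      by_cases hz : x = z
      · rw [if_pos hz, if_pos hz.symm, if_pos hz]
        ring
      · rw [if_neg hz, if_neg (fun h => hz h.symm), if_neg hz, add_zero]
    rw [Finset.sum_congr rfl fun z _ => h3 z, Finset.sum_add_distrib, Finset.sum_const,
      Finset.card_univ, Fintype.card_fin, Finset.sum_ite_eq, if_pos (Finset.mem_univ _),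
      nsmul_eq_mul]
    ring
  · rw [if_neg hxy, eval_add, eval_add, eval_mul, eval_mul, eval_mul, eval_mul, eval_sub, eval_X,
      h2, eval_C, ← ha, ← hb, ← ha', ← hb']
    have h3 : ∀ z : Fin k, (if x = z then a else b) * (if z = y then a' else b') =
        b * b' + (if x = z then a * b' - b * b' else 0) +
          (if z = y then b * a' - b * b' else 0) := by
      intro z
      by_cases hz : z = y
      · have hz' : ¬ x = z := fun h => hxy (h.trans hz)
        rw [if_neg hz', if_pos hz, if_neg hz', if_pos hz]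
        ring
      · by_cases hz' : x = z
        · rw [if_pos hz', if_neg hz, if_pos hz', if_neg hz]
          ring
        · rw [if_neg hz', if_neg hz, if_neg hz', if_neg hz]
          ring
    rw [Finset.sum_congr rfl fun z _ => h3 z, Finset.sum_add_distrib, Finset.sum_add_distrib,
      Finset.sum_const, Finset.card_univ, Fintype.card_fin, Finset.sum_ite_eq,
      if_pos (Finset.mem_univ _), Finset.sum_ite_eq', if_pos (Finset.mem_univ _), nsmul_eq_mul]
    ring

end Pool.Agent.TH48
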