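import Pool.Agent.TC47.Sets

/-!
# Networks (two-terminal graphs) for the chromatic roots of planar graphs (MP_60451a_co)

A network is a graph on `I ⊕ Bool`: the inner vertices `inl i` and the two terminals `inr false`,
`inr true`.
-/

set_option autoImplicit false

namespace Pool.Agent.TH48

open Pool.Agent.TC47 Polynomial

/-- the colours of all vertices of a network: `c` inside, `x` at the terminal `false`, `y` at the
terminal `true` -/
def col {I : Type} {k : ℕ} (c : I → Fin k) (x y : Fin k) : I ⊕ Bool → Fin k
  | .inl i => c i
  | .inr false => x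
  | .inr true => y

/-- the number of proper colourings with `k` colours, `x` and `y` at the terminals -/
noncomputable def cnt {I : Type} (G : SimpleGraph (I ⊕ Bool)) (k : ℕ) (x y : Fin k) : ℕ :=
  Nat.card {c : I → Fin k // ∀ p q, G.Adj p q → col c x y p ≠ col c x y q}

/-- `A` counts the colourings with given equal colours at the terminals, `B` those with given
different colours. -/
def Counts {I : Type} (G : SimpleGraph (I ⊕ Bool)) (A B : ℂ[X]) : Prop :=
  ∀ (k : ℕ) (x y : Fin k), (cnt G k x y : ℂ) = if x = y then A.eval (k : ℂ) else B.eval (k : ℂ)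

/-- a straight-line drawing with the terminals at `0` and `1` and everything else above -/
def Hull {I : Type} (G : SimpleGraph (I ⊕ Bool)) (f : I ⊕ Bool → ℂ) : Prop :=
  Drawing G f ∧ f (.inr false) = 0 ∧ f (.inr true) = 1 ∧ ∀ i, 0 < (f (.inl i)).im

/-- some network with a hull drawing has the counts `A`, `B` -/
def Net (A B : ℂ[X]) : Prop :=
  ∃ (I : Type) (_ : Fintype I) (G : SimpleGraph (I ⊕ Bool)), (∃ f, Hull G f) ∧ Counts G A B

/-- the vertices of the first network in a parallel composition -/
def eL (I J : Type) : I ⊕ Bool ↪ (I ⊕ J) ⊕ Bool where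
  toFun := Sum.map Sum.inl id
  inj' := by
    rintro (a | a) (b | b) h <;> simp_all

/-- the vertices of the second network in a parallel composition -/
def eR (I J : Type) : J ⊕ Bool ↪ (I ⊕ J) ⊕ Bool where
  toFun := Sum.map Sum.inr id
  inj' := by
    rintro (a | a) (b | b) h <;> simp_all

/-- parallel composition -/
def parG {I J : Type} (G : SimpleGraph (I ⊕ Bool)) (H : SimpleGraph (J ⊕ Bool)) :
    SimpleGraph ((I ⊕ J) ⊕ Bool) := G.map (eL I J) ⊔ H.map (eR I J)

/-- the vertices of the old network in a series composition with one edge: the old terminal `true`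
is now the inner vertex `none` -/
def eS (I : Type) : I ⊕ Bool ↪ Option I ⊕ Bool where
  toFun x := match x with
    | .inl i => .inl (some i)
    | .inr false => .inr false
    | .inr true => .inl none
  inj' := by
    rintro (a | (a | a)) (b | (b | b)) h <;> simp_all

/-- series composition with one edge, from the old terminal `true` (now `inl none`) to the new
terminal `true` -/
def stepG {I : Type} (G : SimpleGraph (I ⊕ Bool)) : SimpleGraph (Option I ⊕ Bool) :=
  G.map (eS I) ⊔ SimpleGraph.edge (.inl none) (.inr true)

/-- the counts of the path with `n + 1` edges: equal colours at the ends, different colours at the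
ends -/
noncomputable def PP : ℕ → ℂ[X] × ℂ[X]
  | 0 => (0, 1)
  | n + 1 => ((X - 1) * (PP n).2, (PP n).1 + (X - 2) * (PP n).2)

end Pool.Agent.TH48
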