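import Pool.Agent.TH48.Defs

/-!
# Series composition of two networks
-/

set_option autoImplicit false

namespace Pool.Agent.TH48

open Pool.Agent.TC47 Polynomial

/-- the vertices of the first network in a series composition: its terminal `true` is the middle
vertex -/
def eM (I J : Type) : I ⊕ Bool ↪ (I ⊕ J ⊕ Unit) ⊕ Bool where
  toFun x := match x with
    | .inl i => .inl (.inl i)
    | .inr false => .inr false
    | .inr true => .inl (.inr (.inr ()))
  inj' := by
    rintro (a | (a | a)) (b | (b | b)) h <;> simp_all

/-- the vertices of the second network in a series composition: its terminal `false` is the middle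
vertex -/
def eN (I J : Type) : J ⊕ Bool ↪ (I ⊕ J ⊕ Unit) ⊕ Bool where
  toFun x := match x with
    | .inl j => .inl (.inr (.inl j))
    | .inr false => .inl (.inr (.inr ()))
    | .inr true => .inr true
  inj' := by
    rintro (a | (a | a)) (b | (b | b)) h <;> simp_all

/-- series composition -/
def serG {I J : Type} (G : SimpleGraph (I ⊕ Bool)) (H : SimpleGraph (J ⊕ Bool)) :
    SimpleGraph ((I ⊕ J ⊕ Unit) ⊕ Bool) := G.map (eM I J) ⊔ H.map (eN I J)

/-- The values at `z` of the two counts of colourings of the series-parallel networks: an edge,
parallel composition, series composition. -/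
inductive SPair (z : ℂ) : ℂ → ℂ → Prop
  | edge : SPair z 0 1
  | par {a b a' b' : ℂ} : SPair z a b → SPair z a' b' → SPair z (a * a') (b * b')
  | ser {a b a' b' : ℂ} : SPair z a b → SPair z a' b' →
      SPair z (a * a' + (z - 1) * (b * b')) (a * b' + b * a' + (z - 2) * (b * b'))

end Pool.Agent.TH48
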