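import Pool.Agent.TH48.Defs

/-!
# Gluing a network to two vertices of a graph
-/

set_option autoImplicit false

namespace Pool.Agent.TH48

open Pool.Agent.TC47 Polynomial

/-- the place of the vertices of a network on `J` which is glued to a graph on `V` at `u` (terminal
`false`) and `v` (terminal `true`) -/
def eG {V J : Type} (u v : V) (huv : u ≠ v) : J ⊕ Bool ↪ V ⊕ J where
  toFun x := match x with
    | .inl j => .inr j
    | .inr false => .inl u
    | .inr true => .inl v
  inj' := by
    rintro (a | (a | a)) (b | (b | b)) h <;> simp_all [eq_comm]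

/-- the graph `K` together with the network `N` between `u` and `v` -/
def glueG {V J : Type} (K : SimpleGraph V) (u v : V) (huv : u ≠ v) (N : SimpleGraph (J ⊕ Bool)) :
    SimpleGraph (V ⊕ J) := K.map Function.Embedding.inl ⊔ N.map (eG u v huv)

/-- the path with three inner vertices `0`, `1`, `2` -/
def P4 : SimpleGraph (Fin 3 ⊕ Bool) :=
  SimpleGraph.fromRel fun x y => (x = .inr false ∧ y = .inl 0) ∨ (x = .inl 0 ∧ y = .inl 1) ∨
    (x = .inl 1 ∧ y = .inl 2) ∨ (x = .inl 2 ∧ y = .inr true)

/-- the path with three inner vertices `0`, `1`, `2` without its edge from `1` to `2` -/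
def P4c : SimpleGraph (Fin 3 ⊕ Bool) :=
  SimpleGraph.fromRel fun x y => (x = .inr false ∧ y = .inl 0) ∨ (x = .inl 0 ∧ y = .inl 1) ∨
    (x = .inl 2 ∧ y = .inr true)

/-- a drawing of a graph is a drawing of every subgraph -/
theorem drawing_mono {V : Type} {G H : SimpleGraph V} (h : G ≤ H) (f : V → ℂ)
    (hf : Drawing H f) : Drawing G f :=
  ⟨hf.1, fun u v w huv => hf.2.1 u v w (h huv), fun u v x y huv hxy =>
    hf.2.2 u v x y (h huv) (h hxy)⟩

end Pool.Agent.TH48
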