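import Pool.Agent.TC47.Sets

/-!
# The escape set of planar networks
-/

set_option autoImplicit false

namespace Pool.Agent.TH48

open Pool.Agent.TC47

/-- the region `|z - 1| < 1 < |z - 2|` -/
def W : Set ℂ := {z : ℂ | ‖z - 1‖ < 1 ∧ 1 < ‖z - 2‖}

/-- The points `z` of the region `W` for which there are a finite graph `G`, a straight-line plane
drawing `f` of `G` and an edge `s t` of `G` such that all other vertices are strictly on one side of
the line through `f s` and `f t`, and the chromatic polynomials `P` of `G` and `Q` of `G` without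
the edge `s t` satisfy `|P z| < |z - 1| |Q z - P z|`. -/
def Escape : Set ℂ :=
  {z : ℂ | z ∈ W ∧ ∃ (V : Type) (_ : Fintype V) (G : SimpleGraph V) (s t : V) (f : V → ℂ)
    (P Q : Polynomial ℂ), G.Adj s t ∧ Drawing G f ∧
      (∀ v, v ≠ s → v ≠ t → 0 < ((f v - f s) / (f t - f s)).im) ∧
      Ch3.IsChromaticPoly G P ∧ Ch3.IsChromaticPoly (G.deleteEdges {s(s, t)}) Q ∧
      ‖P.eval z‖ < ‖z - 1‖ * ‖Q.eval z - P.eval z‖}

end Pool.Agent.TH48
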