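import Pool.Agent.TH48.P1

/-!
# P2 (STRONG): a drawing of a parallel composition
By `hull_near` let all inner vertices of `G` be within `1/16` of `1/2 + I/4` (drawing `g`) and those of
`H` within `1/16` of `1/2 + I` (drawing `h`). `f (inl (inl i)) = g (inl i)`, `f (inl (inr j)) = h (inl j)`, `0`, `1`
at the terminals. Edges between two inner vertices or an inner vertex and a terminal: of `G`: all points
except `0`, `1` are in `L = {y < x and y < 1 - x}`; of `H`: all points except `0`, `1` are in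
`U = {y > x or y > 1 - x}` (both: half-planes, and the ends are in the half-plane or on its boundary).
`0`, `1` are not in `L`, not in `U`. If `G` or `H` has the edge between the terminals, its segment has imaginary part `0`:
it does not meet segments between two inner vertices. All remaining pairs (vertex, edge), (edge, edge) are in `G` or in `H`.
-/

set_option autoImplicit false

namespace Pool.Agent.TH48

open Pool.Agent.TC47

private theorem P2_seg (p q z : ℂ) (h : z ∈ segment ℝ p q) :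
    ∃ s t : ℝ, 0 ≤ s ∧ 0 ≤ t ∧ s + t = 1 ∧ z.re = s * p.re + t * q.re ∧
      z.im = s * p.im + t * q.im := by
  obtain ⟨s, t, hs, ht, hst, rfl⟩ := h
  exact ⟨s, t, hs, ht, hst, by simp, by simp⟩

/-- all points of the segments of the lower drawing -/
private theorem P2_low (p q z : ℂ) (hz : z ∈ segment ℝ p q) (hp0 : p.im ≤ p.re)
    (hp1 : p.im ≤ 1 - p.re) (hq0 : q.im ≤ q.re) (hq1 : q.im ≤ 1 - q.re) :
    z.im ≤ z.re ∧ z.im ≤ 1 - z.re := by
  obtain ⟨s, t, hs, ht, hst, h1, h2⟩ := P2_seg p q z hz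
  rw [h1, h2]
  have a1 := mul_le_mul_of_nonneg_left hp0 hs
  have a2 := mul_le_mul_of_nonneg_left hp1 hs
  have a3 := mul_le_mul_of_nonneg_left hq0 ht
  have a4 := mul_le_mul_of_nonneg_left hq1 ht
  constructor
  · linarith
  · have : s * 1 + t * 1 = 1 := by linarith
    nlinarith

private theorem P2_in (p q z : ℂ) (hz : z ∈ segment ℝ p q) (hp : p.re < p.im)
    (hq : q.re < q.im) : z.re < z.im := by
  obtain ⟨s, t, hs, ht, hst, h1, h2⟩ := P2_seg p q z hz
  rw [h1, h2]
  rcases hs.eq_or_lt with h0 | h0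
  · have : t = 1 := by linarith
    rw [← h0, this]; linarith
  · have a1 := mul_lt_mul_of_pos_left hp h0
    have a2 := mul_le_mul_of_nonneg_left hq.le ht
    linarith

private theorem P2_zero (p z : ℂ) (hz : z ∈ segment ℝ p 0) (hp : p.re < p.im) :
    z = 0 ∨ z.re < z.im := by
  obtain ⟨s, t, hs, ht, hst, h1, h2⟩ := P2_seg p 0 z hz
  simp only [Complex.zero_re, Complex.zero_im, mul_zero, add_zero] at h1 h2
  rcases hs.eq_or_lt with h0 | h0
  · left
    apply Complex.ext
    · rw [h1, ← h0]; simp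
    · rw [h2, ← h0]; simp
  · right
    rw [h1, h2]
    exact mul_lt_mul_of_pos_left hp h0

private theorem P2_one (p z : ℂ) (hz : z ∈ segment ℝ p 1) (hp : 1 - p.re < p.im) :
    z = 1 ∨ 1 - z.re < z.im := by
  obtain ⟨s, t, hs, ht, hst, h1, h2⟩ := P2_seg p 1 z hz
  simp only [Complex.one_re, Complex.one_im, mul_zero, add_zero, mul_one] at h1 h2
  rcases hs.eq_or_lt with h0 | h0
  · left
    apply Complex.ext
    · rw [h1, ← h0]; simp; linarith
    · rw [h2, ← h0]; simp
  · right
    rw [h1, h2]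
    have := mul_lt_mul_of_pos_left hp h0
    nlinarith

private theorem P2_real (z : ℂ) (hz : z ∈ segment ℝ (0 : ℂ) 1) : z.im = 0 := by
  obtain ⟨s, t, hs, ht, hst, h1, h2⟩ := P2_seg 0 1 z hz
  simpa using h2

private theorem P2_pos (p q z : ℂ) (hz : z ∈ segment ℝ p q) (hp : 0 < p.im) (hq : 0 < q.im) :
    0 < z.im := by
  obtain ⟨s, t, hs, ht, hst, h1, h2⟩ := P2_seg p q z hz
  rw [h2]
  rcases hs.eq_or_lt with h0 | h0
  · have : t = 1 := by linarith
    rw [← h0, this]; linarith
  · have a1 := mul_pos h0 hp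
    have a2 := mul_nonneg ht hq.le
    linarith

/-- the points of the segments of the upper drawing -/
private theorem P2_up {J : Type} (h : J ⊕ Bool → ℂ) (h0 : h (.inr false) = 0)
    (h1 : h (.inr true) = 1) (hj : ∀ j, (h (.inl j)).re < (h (.inl j)).im ∧
      1 - (h (.inl j)).re < (h (.inl j)).im) (c d : J ⊕ Bool) (hcd : c ≠ d) (z : ℂ)
    (hz : z ∈ segment ℝ (h c) (h d)) :
    (z = 0 ∧ (c = .inr false ∨ d = .inr false)) ∨ (z = 1 ∧ (c = .inr true ∨ d = .inr true)) ∨
      z.re < z.im ∨ 1 - z.re < z.im ∨ (z.im = 0 ∧ (c = .inr false ∨ d = .inr false) ∧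
        (c = .inr true ∨ d = .inr true)) := by
  rcases c with c | c <;> rcases d with d | d
  · exact Or.inr (Or.inr (Or.inl (P2_in _ _ z hz (hj c).1 (hj d).1)))
  · cases d
    · rw [h0] at hz
      rcases P2_zero _ z hz (hj c).1 with h | h
      · exact Or.inl ⟨h, Or.inr rfl⟩
      · exact Or.inr (Or.inr (Or.inl h))
    · rw [h1] at hz
      rcases P2_one _ z hz (hj c).2 with h | h
      · exact Or.inr (Or.inl ⟨h, Or.inr rfl⟩)
      · exact Or.inr (Or.inr (Or.inr (Or.inl h)))
  · rw [segment_symm] at hz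
    cases c
    · rw [h0] at hz
      rcases P2_zero _ z hz (hj d).1 with h | h
      · exact Or.inl ⟨h, Or.inl rfl⟩
      · exact Or.inr (Or.inr (Or.inl h))
    · rw [h1] at hz
      rcases P2_one _ z hz (hj d).2 with h | h
      · exact Or.inr (Or.inl ⟨h, Or.inl rfl⟩)
      · exact Or.inr (Or.inr (Or.inr (Or.inl h)))
  · cases c <;> cases d
    · exact absurd rfl hcd
    · rw [h0, h1] at hz
      exact Or.inr (Or.inr (Or.inr (Or.inr ⟨P2_real z hz, Or.inl rfl, Or.inr rfl⟩)))
    · rw [h0, h1, segment_symm] at hz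
      exact Or.inr (Or.inr (Or.inr (Or.inr ⟨P2_real z hz, Or.inr rfl, Or.inl rfl⟩)))
    · exact absurd rfl hcd

theorem hull_par {I J : Type} [Finite I] [Finite J] (G : SimpleGraph (I ⊕ Bool))
    (H : SimpleGraph (J ⊕ Bool)) (hG : ∃ f, Hull G f) (hH : ∃ f, Hull H f) :
    ∃ f, Hull (parG G H) f := by
  obtain ⟨g', hg'⟩ := hG
  obtain ⟨h', hh'⟩ := hH
  obtain ⟨g, ⟨⟨ginj, gv, ge⟩, g0, g1, gp⟩, gn⟩ :=
    hull_near G g' hg' (⟨1 / 2, 1 / 4⟩ : ℂ) (by norm_num) (1 / 16) (by norm_num)
  obtain ⟨h, ⟨⟨hinj, hv, he⟩, h0, h1, hp⟩, hn⟩ :=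
    hull_near H h' hh' (⟨1 / 2, 1⟩ : ℂ) (by norm_num) (1 / 16) (by norm_num)
  have gb : ∀ i, (g (.inl i)).im < (g (.inl i)).re ∧ (g (.inl i)).im < 1 - (g (.inl i)).re := by
    intro i
    have a1 := (Complex.abs_re_le_norm (g (.inl i) - (⟨1 / 2, 1 / 4⟩ : ℂ))).trans_lt (gn i)
    have a2 := (Complex.abs_im_le_norm (g (.inl i) - (⟨1 / 2, 1 / 4⟩ : ℂ))).trans_lt (gn i)
    rw [Complex.sub_re, abs_lt] at a1
    rw [Complex.sub_im, abs_lt] at a2
    simp only at a1 a2
    constructor <;> linarith [a1.1, a1.2, a2.1, a2.2]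
  have hb : ∀ j, (h (.inl j)).re < (h (.inl j)).im ∧ 1 - (h (.inl j)).re < (h (.inl j)).im := by
    intro j
    have a1 := (Complex.abs_re_le_norm (h (.inl j) - (⟨1 / 2, 1⟩ : ℂ))).trans_lt (hn j)
    have a2 := (Complex.abs_im_le_norm (h (.inl j) - (⟨1 / 2, 1⟩ : ℂ))).trans_lt (hn j)
    rw [Complex.sub_re, abs_lt] at a1
    rw [Complex.sub_im, abs_lt] at a2
    simp only at a1 a2
    constructor <;> linarith [a1.1, a1.2, a2.1, a2.2]
  -- lower drawing: all points
  have glow : ∀ a : I ⊕ Bool, (g a).im ≤ (g a).re ∧ (g a).im ≤ 1 - (g a).re := by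
    intro a
    rcases a with i | b
    · exact ⟨(gb i).1.le, (gb i).2.le⟩
    · cases b
      · rw [g0]; simp
      · rw [g1]; simp
  have gseg : ∀ a b : I ⊕ Bool, ∀ z ∈ segment ℝ (g a) (g b), z.im ≤ z.re ∧ z.im ≤ 1 - z.re :=
    fun a b z hz => P2_low _ _ z hz (glow a).1 (glow a).2 (glow b).1 (glow b).2
  have hup := P2_up h h0 h1 hb
  let f : (I ⊕ J) ⊕ Bool → ℂ := fun p => match p with
    | .inl (.inl i) => g (.inl i)
    | .inl (.inr j) => h (.inl j)
    | .inr b => g (.inr b)
  have hfL : ∀ a : I ⊕ Bool, f (eL I J a) = g a := by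
    intro a
    rcases a with i | b <;> rfl
  have hgh : ∀ b : Bool, g (.inr b) = h (.inr b) := by
    intro b
    cases b
    · rw [g0, h0]
    · rw [g1, h1]
  have hfR : ∀ a : J ⊕ Bool, f (eR I J a) = h a := by
    intro a
    rcases a with j | b
    · rfl
    · exact hgh b
  -- a vertex is in the lower part or an inner vertex of the upper part
  have hcase : ∀ p : (I ⊕ J) ⊕ Bool, (∃ a, p = eL I J a) ∨ ∃ j, p = eR I J (.inl j) := by
    intro p
    rcases p with (i | j) | b
    · exact Or.inl ⟨.inl i, rfl⟩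
    · exact Or.inr ⟨j, rfl⟩
    · exact Or.inl ⟨.inr b, rfl⟩
  have hcase' : ∀ p : (I ⊕ J) ⊕ Bool, (∃ a, p = eR I J a) ∨ ∃ i, p = eL I J (.inl i) := by
    intro p
    rcases p with (i | j) | b
    · exact Or.inr ⟨i, rfl⟩
    · exact Or.inl ⟨.inl j, rfl⟩
    · exact Or.inl ⟨.inr b, rfl⟩
  have hb2 : ∀ b : Bool, eL I J (.inr b) = eR I J (.inr b) := fun b => rfl
  -- mixed pairs of edges
  have hmix : ∀ (a b : I ⊕ Bool) (c d : J ⊕ Bool), G.Adj a b → H.Adj c d →
      eL I J a ≠ eR I J c → eL I J a ≠ eR I J d → eL I J b ≠ eR I J c → eL I J b ≠ eR I J d →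
      Disjoint (segment ℝ (g a) (g b)) (segment ℝ (h c) (h d)) := by
    intro a b c d hab hcd n1 n2 n3 n4
    rw [Set.disjoint_left]
    intro z hz1 hz2
    have hl := gseg a b z hz1
    have key : ∀ t : Bool, (c = .inr t ∨ d = .inr t) → a ≠ .inr t ∧ b ≠ .inr t := by
      intro t ht
      constructor
      · rintro rfl
        rcases ht with rfl | rfl
        · exact n1 (hb2 t)
        · exact n2 (hb2 t)
      · rintro rfl
        rcases ht with rfl | rfl
        · exact n3 (hb2 t)
        · exact n4 (hb2 t)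
    rcases hup c d hcd.ne z hz2 with ⟨hz, ht⟩ | ⟨hz, ht⟩ | hz | hz | ⟨hz, ht, ht'⟩
    · have hk := key false ht
      refine gv a b (.inr false) hab hk.1.symm hk.2.symm ?_
      rw [g0, ← hz]; exact hz1
    · have hk := key true ht
      refine gv a b (.inr true) hab hk.1.symm hk.2.symm ?_
      rw [g1, ← hz]; exact hz1
    · linarith [hl.1]
    · linarith [hl.2]
    · have hk := key false ht
      have hk' := key true ht'
      have hin : ∀ e : I ⊕ Bool, e ≠ .inr false → e ≠ .inr true → 0 < (g e).im := by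
        intro e he1 he2
        rcases e with i | t
        · exact gp i
        · cases t
          · exact absurd rfl he1
          · exact absurd rfl he2
      have := P2_pos _ _ z hz1 (hin a hk.1 hk'.1) (hin b hk.2 hk'.2)
      linarith
  refine ⟨f, ⟨?_, ?_, ?_⟩, g0, g1, ?_⟩
  · -- injective
    intro p q hpq
    rcases hcase p with ⟨a, rfl⟩ | ⟨j, rfl⟩
    · rcases hcase q with ⟨b, rfl⟩ | ⟨k, rfl⟩
      · rw [hfL, hfL] at hpq
        rw [ginj hpq]
      · exfalso
        rw [hfL, hfR] at hpq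
        have e1 := (glow a).1
        have e2 := (hb k).1
        rw [hpq] at e1
        linarith
    · rcases hcase q with ⟨b, rfl⟩ | ⟨k, rfl⟩
      · exfalso
        rw [hfL, hfR] at hpq
        have e1 := (glow b).1
        have e2 := (hb j).1
        rw [← hpq] at e1
        linarith
      · rw [hfR, hfR] at hpq
        rw [hinj hpq]
  · -- a vertex and an edge
    intro u v w huv hwu hwv
    rw [parG, SimpleGraph.sup_adj, SimpleGraph.map_adj, SimpleGraph.map_adj] at huv
    rcases huv with ⟨a, b, hab, rfl, rfl⟩ | ⟨c, d, hcd, rfl, rfl⟩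
    · rcases hcase w with ⟨e, rfl⟩ | ⟨j, rfl⟩
      · rw [hfL, hfL, hfL]
        exact gv a b e hab (fun h => hwu (by rw [h])) (fun h => hwv (by rw [h]))
      · rw [hfL, hfL, hfR]
        intro hz
        have := (gseg a b _ hz).1
        linarith [(hb j).1]
    · rcases hcase' w with ⟨e, rfl⟩ | ⟨i, rfl⟩
      · rw [hfR, hfR, hfR]
        exact hv c d e hcd (fun h => hwu (by rw [h])) (fun h => hwv (by rw [h]))
      · rw [hfR, hfR, hfL]
        intro hz
        have b1 := gb i
        have b2 := gp i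
        rcases hup c d hcd.ne _ hz with ⟨hz, -⟩ | ⟨hz, -⟩ | hz | hz | ⟨hz, -⟩
        · rw [hz] at b2; simp at b2
        · rw [hz] at b2; simp at b2
        · linarith [b1.1]
        · linarith [b1.2]
        · linarith
  · -- two edges
    intro u v x y huv hxy n1 n2 n3 n4
    rw [parG, SimpleGraph.sup_adj, SimpleGraph.map_adj, SimpleGraph.map_adj] at huv hxy
    rcases huv with ⟨a, b, hab, rfl, rfl⟩ | ⟨c, d, hcd, rfl, rfl⟩
    · rcases hxy with ⟨a', b', hab', rfl, rfl⟩ | ⟨c', d', hcd', rfl, rfl⟩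
      · rw [hfL, hfL, hfL, hfL]
        exact ge a b a' b' hab hab' (fun h => n1 (by rw [h])) (fun h => n2 (by rw [h]))
          (fun h => n3 (by rw [h])) (fun h => n4 (by rw [h]))
      · rw [hfL, hfL, hfR, hfR]
        exact hmix a b c' d' hab hcd' n1 n2 n3 n4
    · rcases hxy with ⟨a', b', hab', rfl, rfl⟩ | ⟨c', d', hcd', rfl, rfl⟩
      · rw [hfL, hfL, hfR, hfR]
        exact (hmix a' b' c d hab' hcd n1.symm n3.symm n2.symm n4.symm).symm
      · rw [hfR, hfR, hfR, hfR]
        exact he c d c' d' hcd hcd' (fun h => n1 (by rw [h])) (fun h => n2 (by rw [h]))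
          (fun h => n3 (by rw [h])) (fun h => n4 (by rw [h]))
  · -- above
    intro i
    rcases i with i | j
    · exact gp i
    · exact hp j

end Pool.Agent.TH48
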