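import Pool.Agent.TH48.P1

/-!
# P3 (MEDIUM): a drawing of a series composition with one edge
By `hull_near` let all inner vertices of `G` be within `1/16` of `1/2 + I/4` (drawing `g`); put `m = (1 + I)/2`.
New drawing: `f (e v) = m * g v` (so `0` stays, the old terminal `true` goes to `m`), new terminal at `1`.
`m * (1/2 + I/4) = 1/8 + 3/8 I`: all vertices except `m` and `1` have real part `< 1/2`, imaginary part `> 0`
(except `0`). All points except `m` of old segments have real part `< 1/2`, all points of the new edge, the segment from `m` to `1`,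
have real part `≥ 1/2`, and `m` is the end of both. Old pairs: `drawing_affine` with `a = m`, `b = 0`.
-/

set_option autoImplicit false

namespace Pool.Agent.TH48

open Pool.Agent.TC47

private noncomputable def P3_m : ℂ := ⟨1 / 2, 1 / 2⟩

private noncomputable def P3_F {I : Type} (g : I ⊕ Bool → ℂ) : Option I ⊕ Bool → ℂ
  | .inl (some i) => P3_m * g (.inl i)
  | .inl none => P3_m
  | .inr false => 0
  | .inr true => 1

private theorem P3_eS {I : Type} {g : I ⊕ Bool → ℂ} (h0 : g (.inr false) = 0)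
    (h1 : g (.inr true) = 1) (v : I ⊕ Bool) : P3_F g (eS I v) = P3_m * g v := by
  rcases v with i | (b | b)
  · rfl
  · rw [h0, mul_zero]
    rfl
  · rw [h1, mul_one]
    rfl

private theorem P3_cases {I : Type} (w : Option I ⊕ Bool) :
    w = .inr true ∨ ∃ v : I ⊕ Bool, w = eS I v := by
  rcases w with (_ | i) | (b | b)
  · exact Or.inr ⟨.inr true, rfl⟩
  · exact Or.inr ⟨.inl i, rfl⟩
  · exact Or.inr ⟨.inr false, rfl⟩
  · exact Or.inl rfl

private theorem P3_old {p q z : ℂ} (hp : p.re < 1 / 2 ∨ p = P3_m) (hq : q.re < 1 / 2 ∨ q = P3_m)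
    (hz : z ∈ segment ℝ p q) (hzr : 1 / 2 ≤ z.re) : z = P3_m ∧ (p = P3_m ∨ q = P3_m) := by
  have hmr : P3_m.re = 1 / 2 := rfl
  obtain ⟨a, b, ha, hb, hab, rfl⟩ := hz
  have hre : (a • p + b • q).re = a * p.re + b * q.re := by simp
  rw [hre] at hzr
  rcases hp with hp | hp
  · have hα : 0 < 1 / 2 - p.re := by linarith
    rcases hq with hq | hq
    · exfalso
      have hβ : 0 < 1 / 2 - q.re := by linarith
      have h3 : a * (1 / 2 - p.re) + b * (1 / 2 - q.re) ≤ 0 := by nlinarith
      have h1 : 0 ≤ a * (1 / 2 - p.re) := mul_nonneg ha hα.le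
      have h2 : 0 ≤ b * (1 / 2 - q.re) := mul_nonneg hb hβ.le
      have h4 : a * (1 / 2 - p.re) = 0 := by linarith
      have h5 : b * (1 / 2 - q.re) = 0 := by linarith
      have h6 : a = 0 := (mul_eq_zero.mp h4).resolve_right hα.ne'
      have h7 : b = 0 := (mul_eq_zero.mp h5).resolve_right hβ.ne'
      linarith
    · have h3 : a * (1 / 2 - p.re) ≤ 0 := by
        rw [hq, hmr] at hzr
        nlinarith
      have h1 : 0 ≤ a * (1 / 2 - p.re) := mul_nonneg ha hα.le
      have h4 : a * (1 / 2 - p.re) = 0 := by linarith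
      have h6 : a = 0 := (mul_eq_zero.mp h4).resolve_right hα.ne'
      have h7 : b = 1 := by linarith
      refine ⟨?_, Or.inr hq⟩
      rw [h6, h7, hq, zero_smul, one_smul, zero_add]
  · rcases hq with hq | hq
    · have hβ : 0 < 1 / 2 - q.re := by linarith
      have h3 : b * (1 / 2 - q.re) ≤ 0 := by
        rw [hp, hmr] at hzr
        nlinarith
      have h1 : 0 ≤ b * (1 / 2 - q.re) := mul_nonneg hb hβ.le
      have h4 : b * (1 / 2 - q.re) = 0 := by linarith
      have h6 : b = 0 := (mul_eq_zero.mp h4).resolve_right hβ.ne'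
      have h7 : a = 1 := by linarith
      refine ⟨?_, Or.inl hp⟩
      rw [h6, h7, hp, zero_smul, one_smul, add_zero]
    · refine ⟨?_, Or.inl hp⟩
      rw [hp, hq, ← add_smul, hab, one_smul]

private theorem P3_new {z : ℂ} (hz : z ∈ segment ℝ P3_m 1) : 1 / 2 ≤ z.re := by
  have hmr : P3_m.re = 1 / 2 := rfl
  obtain ⟨a, b, ha, hb, hab, rfl⟩ := hz
  have hre : (a • P3_m + b • (1 : ℂ)).re = a * P3_m.re + b := by simp
  rw [hre, hmr]
  linarith

theorem hull_step {I : Type} [Finite I] (G : SimpleGraph (I ⊕ Bool)) (hG : ∃ f, Hull G f) :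
    ∃ f, Hull (stepG G) f := by
  obtain ⟨f0, hf0⟩ := hG
  obtain ⟨g, hg, hnear⟩ := hull_near G f0 hf0 ⟨1 / 2, 1 / 4⟩ (by norm_num) (1 / 16) (by norm_num)
  obtain ⟨hd, hg0, hg1, -⟩ := hg
  have hmr : P3_m.re = 1 / 2 := rfl
  have hmi : P3_m.im = 1 / 2 := rfl
  have hm0 : P3_m ≠ 0 := by
    intro h
    rw [h] at hmr
    norm_num at hmr
  have hm1 : P3_m ≠ 1 := by
    intro h
    rw [h] at hmr
    norm_num at hmr
  have hin : ∀ i : I, (P3_m * g (.inl i)).re < 1 / 2 ∧ 0 < (P3_m * g (.inl i)).im := by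
    intro i
    have h := hnear i
    have h1 := (Complex.abs_re_le_norm (g (.inl i) - ⟨1 / 2, 1 / 4⟩)).trans_lt h
    have h2 := (Complex.abs_im_le_norm (g (.inl i) - ⟨1 / 2, 1 / 4⟩)).trans_lt h
    rw [Complex.sub_re, abs_lt] at h1
    rw [Complex.sub_im, abs_lt] at h2
    simp only at h1 h2
    rw [Complex.mul_re, Complex.mul_im, hmr, hmi]
    constructor <;> linarith [h1.1, h1.2, h2.1, h2.2]
  have hF : ∀ v : I ⊕ Bool, P3_F g (eS I v) = P3_m * g v := P3_eS hg0 hg1
  have hF1 : P3_F g (.inr true) = 1 := rfl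
  have hold : ∀ v : I ⊕ Bool, (P3_m * g v).re < 1 / 2 ∨ P3_m * g v = P3_m := by
    rintro (i | (b | b))
    · exact Or.inl (hin i).1
    · left
      rw [hg0, mul_zero]
      norm_num
    · right
      rw [hg1, mul_one]
  have hne : ∀ v : I ⊕ Bool, v ≠ .inr true → (P3_m * g v).re < 1 / 2 := by
    intro v hv
    rcases hold v with h | h
    · exact h
    · exfalso
      have h2 : g v = 1 := by
        have h3 : P3_m * g v = P3_m * 1 := by rw [h, mul_one]
        exact mul_left_cancel₀ hm0 h3
      exact hv (hd.1 (h2.trans hg1.symm))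
  have hda : Drawing G (fun v => P3_m * g v) := by
    have h := drawing_affine G g hd P3_m 0 hm0
    simpa using h
  have hes : ∀ v : I ⊕ Bool, eS I v ≠ .inr true := by
    rintro (i | (b | b)) h <;> cases h
  have hen : ∀ v : I ⊕ Bool, eS I v = .inl none → v = .inr true := by
    rintro (i | (b | b)) h
    · cases h
    · cases h
    · rfl
  have hadj : ∀ u v, (stepG G).Adj u v →
      (∃ u' v', G.Adj u' v' ∧ u = eS I u' ∧ v = eS I v') ∨
        (u = .inl none ∧ v = .inr true) ∨ (u = .inr true ∧ v = .inl none) := by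
    intro u v h
    rw [stepG, SimpleGraph.sup_adj] at h
    rcases h with h | h
    · rw [SimpleGraph.map_adj] at h
      obtain ⟨u', v', h1, h2, h3⟩ := h
      exact Or.inl ⟨u', v', h1, h2.symm, h3.symm⟩
    · rw [SimpleGraph.edge_adj] at h
      exact Or.inr h.1
  have hFn : P3_F g (.inl none) = P3_m := rfl
  -- points of the new edge
  have hnew : ∀ u v, ((u = (.inl none : Option I ⊕ Bool) ∧ v = .inr true) ∨
      (u = .inr true ∧ v = .inl none)) → ∀ z ∈ segment ℝ (P3_F g u) (P3_F g v),
      1 / 2 ≤ z.re := by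
    intro u v h z hz
    rcases h with ⟨h1, h2⟩ | ⟨h1, h2⟩
    · rw [h1, h2, hFn, hF1] at hz
      exact P3_new hz
    · rw [h1, h2, hFn, hF1, segment_symm] at hz
      exact P3_new hz
  -- points of an old edge which avoids the vertex in the middle
  have havoid : ∀ u' v' : I ⊕ Bool, u' ≠ .inr true → v' ≠ .inr true →
      ∀ z ∈ segment ℝ (P3_m * g u') (P3_m * g v'), z.re < 1 / 2 := by
    intro u' v' hu hv z hz
    by_contra hc
    rw [not_lt] at hc
    obtain ⟨-, h | h⟩ := P3_old (hold u') (hold v') hz hc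
    · have := hne u' hu
      rw [h, hmr] at this
      exact lt_irrefl _ this
    · have := hne v' hv
      rw [h, hmr] at this
      exact lt_irrefl _ this
  refine ⟨P3_F g, ⟨?_, ?_, ?_⟩, rfl, rfl, ?_⟩
  · -- injective
    intro u v huv
    rcases P3_cases u with hu | ⟨u', hu⟩ <;> rcases P3_cases v with hv | ⟨v', hv⟩
    · rw [hu, hv]
    · exfalso
      rw [hu, hv, hF1, hF] at huv
      rcases hold v' with h | h
      · rw [← huv] at h
        norm_num at h
      · exact hm1 (h.symm.trans huv.symm)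
    · exfalso
      rw [hu, hv, hF1, hF] at huv
      rcases hold u' with h | h
      · rw [huv] at h
        norm_num at h
      · exact hm1 (h.symm.trans huv)
    · rw [hu, hv, hF, hF] at huv
      rw [hu, hv, hda.1 huv]
  · -- vertices and edges
    intro u v w h hwu hwv hmem
    rcases hadj u v h with ⟨u', v', h1, hu, hv⟩ | hn
    · rw [hu, hv, hF, hF] at hmem
      rcases P3_cases w with hw | ⟨w', hw⟩
      · rw [hw, hF1] at hmem
        obtain ⟨h2, -⟩ := P3_old (hold u') (hold v') hmem (by norm_num)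
        exact hm1 h2.symm
      · rw [hw, hF] at hmem
        refine hda.2.1 u' v' w' h1 ?_ ?_ hmem
        · intro h2
          exact hwu (by rw [hw, hu, h2])
        · intro h2
          exact hwv (by rw [hw, hv, h2])
    · have h3 := hnew u v hn _ hmem
      have hw1 : w ≠ .inr true ∧ w ≠ .inl none := by
        rcases hn with ⟨h1, h2⟩ | ⟨h1, h2⟩
        · exact ⟨h2 ▸ hwv, h1 ▸ hwu⟩
        · exact ⟨h1 ▸ hwu, h2 ▸ hwv⟩
      rcases P3_cases w with hw | ⟨w', hw⟩
      · exact hw1.1 hw
      · rw [hw, hF] at h3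
        have h4 : w' ≠ .inr true := by
          intro h5
          apply hw1.2
          rw [hw, h5]
          rfl
        exact absurd h3 (not_le.mpr (hne w' h4))
  · -- two edges
    intro u v x y huv hxy hux huy hvx hvy
    rw [Set.disjoint_left]
    intro z hz hz'
    rcases hadj u v huv with ⟨u', v', h1, hu, hv⟩ | hn <;>
      rcases hadj x y hxy with ⟨x', y', h2, hx, hy⟩ | hn'
    · rw [hu, hv, hF, hF] at hz
      rw [hx, hy, hF, hF] at hz'
      refine Set.disjoint_left.mp (hda.2.2 u' v' x' y' h1 h2 ?_ ?_ ?_ ?_) hz hz'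
      · intro h3
        exact hux (by rw [hu, hx, h3])
      · intro h3
        exact huy (by rw [hu, hy, h3])
      · intro h3
        exact hvx (by rw [hv, hx, h3])
      · intro h3
        exact hvy (by rw [hv, hy, h3])
    · have h3 := hnew x y hn' z hz'
      have h4 : u ≠ .inl none ∧ v ≠ .inl none := by
        rcases hn' with ⟨h5, h6⟩ | ⟨h5, h6⟩
        · exact ⟨h5 ▸ hux, h5 ▸ hvx⟩
        · exact ⟨h6 ▸ huy, h6 ▸ hvy⟩
      rw [hu, hv, hF, hF] at hz
      have h5 := havoid u' v' (fun h6 => h4.1 (by rw [hu, h6]; rfl))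
        (fun h6 => h4.2 (by rw [hv, h6]; rfl)) z hz
      linarith
    · have h3 := hnew u v hn z hz
      have h4 : x ≠ .inl none ∧ y ≠ .inl none := by
        rcases hn with ⟨h5, h6⟩ | ⟨h5, h6⟩
        · exact ⟨fun h7 => hux (h5.trans h7.symm), fun h7 => huy (h5.trans h7.symm)⟩
        · exact ⟨fun h7 => hvx (h6.trans h7.symm), fun h7 => hvy (h6.trans h7.symm)⟩
      rw [hx, hy, hF, hF] at hz'
      have h5 := havoid x' y' (fun h6 => h4.1 (by rw [hx, h6]; rfl))
        (fun h6 => h4.2 (by rw [hy, h6]; rfl)) z hz'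
      linarith
    · rcases hn with ⟨h5, h6⟩ | ⟨h5, h6⟩ <;> rcases hn' with ⟨h7, h8⟩ | ⟨h7, h8⟩
      · exact hux (h5.trans h7.symm)
      · exact huy (h5.trans h8.symm)
      · exact huy (h5.trans h8.symm)
      · exact hux (h5.trans h7.symm)
  · rintro (_ | i)
    · change 0 < P3_m.im
      rw [hmi]
      norm_num
    · exact (hin i).2

end Pool.Agent.TH48
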