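import Pool.Agent.TH48.Defs

/-!
# P4 (SHORT): the networks with no inner vertex, edge and no edge
-/

set_option autoImplicit false

namespace Pool.Agent.TH48

open Pool.Agent.TC47 Polynomial

private def P4_f : Empty ⊕ Bool → ℂ
  | .inl _ => 0
  | .inr false => 0
  | .inr true => 1

private lemma P4_two (u v w : Empty ⊕ Bool) (h : u ≠ v) : w = u ∨ w = v := by
  rcases u with u | u
  · exact u.elim
  rcases v with v | v
  · exact v.elim
  rcases w with w | w
  · exact w.elim
  cases u <;> cases v <;> cases w <;> simp_all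

private lemma P4_hull (G : SimpleGraph (Empty ⊕ Bool)) : Hull G P4_f := by
  refine ⟨⟨?_, ?_, ?_⟩, rfl, rfl, fun i => i.elim⟩
  · rintro (a | a) (b | b) h
    · exact a.elim
    · exact a.elim
    · exact b.elim
    · cases a <;> cases b <;> simp_all [P4_f]
  · intro u v w huv hwu hwv
    rcases P4_two u v w huv.ne with h | h
    · exact absurd h hwu
    · exact absurd h hwv
  · intro u v x y huv hxy h1 h2 h3 h4
    rcases P4_two u v x huv.ne with h | h
    · exact absurd h.symm h1
    · exact absurd h.symm h3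

/-- one edge: `I = Empty`, `G = ⊤` -/
theorem net_edge : Net 0 1 := by
  refine ⟨Empty, inferInstance, ⊤, ⟨P4_f, P4_hull _⟩, ?_⟩
  intro k x y
  unfold cnt
  by_cases hxy : x = y
  · subst hxy
    have : IsEmpty {c : Empty → Fin k // ∀ p q, (⊤ : SimpleGraph (Empty ⊕ Bool)).Adj p q →
        col c x x p ≠ col c x x q} := by
      refine ⟨fun c => ?_⟩
      exact c.2 (.inr false) (.inr true) (by simp) rfl
    rw [Nat.card_of_isEmpty]
    simp
  · have h1 : Nonempty {c : Empty → Fin k // ∀ p q, (⊤ : SimpleGraph (Empty ⊕ Bool)).Adj p q →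
        col c x y p ≠ col c x y q} := by
      refine ⟨⟨fun i => i.elim, ?_⟩⟩
      rintro (a | a) (b | b) h
      · exact a.elim
      · exact a.elim
      · exact b.elim
      · cases a <;> cases b <;> simp_all [col]
        exact fun h => hxy h.symm
    have h2 : Nat.card {c : Empty → Fin k // ∀ p q, (⊤ : SimpleGraph (Empty ⊕ Bool)).Adj p q →
        col c x y p ≠ col c x y q} = 1 :=
      Nat.card_eq_one_iff_unique.2 ⟨⟨fun a b => Subtype.ext (funext fun i => i.elim)⟩, h1⟩
    rw [h2, if_neg hxy]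
    simp

/-- no edge: `I = Empty`, `G = ⊥` -/
theorem net_one : Net 1 1 := by
  refine ⟨Empty, inferInstance, ⊥, ⟨P4_f, P4_hull _⟩, ?_⟩
  intro k x y
  unfold cnt
  have h1 : Nonempty {c : Empty → Fin k // ∀ p q, (⊥ : SimpleGraph (Empty ⊕ Bool)).Adj p q →
      col c x y p ≠ col c x y q} :=
    ⟨⟨fun i => i.elim, fun p q h => absurd h (by simp)⟩⟩
  have h2 : Nat.card {c : Empty → Fin k // ∀ p q, (⊥ : SimpleGraph (Empty ⊕ Bool)).Adj p q →
      col c x y p ≠ col c x y q} = 1 :=
    Nat.card_eq_one_iff_unique.2 ⟨⟨fun a b => Subtype.ext (funext fun i => i.elim)⟩, h1⟩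
  rw [h2]
  simp

end Pool.Agent.TH48
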