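import Pool.Agent.TC47.Final
import Pool.Agent.TH48.P2
import Pool.Agent.TH48.P3
import Pool.Agent.TH48.P4
import Pool.Agent.TH48.C1
import Pool.Agent.TH48.C2
import Pool.Agent.TH48.C3
import Pool.Agent.TH48.C4
import Pool.Agent.TH48.C5
import Pool.Agent.TH48.A5

/-!
# The network criterion
-/

set_option autoImplicit false

namespace Pool.Agent.TH48

open Pool.Agent.TC47 Polynomial Filter Topology
open Pool.Agent.Ch3 (rootSet)

theorem net_par (A B A' B' : ℂ[X]) (h : Net A B) (h' : Net A' B') : Net (A * A') (B * B') := by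
  obtain ⟨I, _, G, hG, hc⟩ := h
  obtain ⟨J, _, H, hH, hc'⟩ := h'
  exact ⟨I ⊕ J, inferInstance, parG G H, hull_par G H hG hH, counts_par G H A B A' B' hc hc'⟩

theorem net_step (A B : ℂ[X]) (h : Net A B) : Net ((X - 1) * B) (A + (X - 2) * B) := by
  obtain ⟨I, _, G, hG, hc⟩ := h
  exact ⟨Option I, inferInstance, stepG G, hull_step G hG, counts_step G A B hc⟩

theorem net_pow (A B : ℂ[X]) (h : Net A B) (n : ℕ) : Net (A ^ n) (B ^ n) := by
  induction n with
  | zero => rw [pow_zero, pow_zero]; exact net_one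
  | succ n ih => rw [pow_succ, pow_succ]; exact net_par _ _ _ _ ih h

theorem net_path (n : ℕ) : Net (PP n).1 (PP n).2 := by
  induction n with
  | zero => exact net_edge
  | succ n ih => exact net_step _ _ ih

/-- the criterion for networks, in the disc `|z - 1| < 1` -/
theorem net_dense (A B : ℂ[X]) (h : Net A B) (z0 : ℂ) (h1 : ‖z0 - 1‖ < 1) (h2 : 1 < ‖z0 - 2‖)
    (hAB : ‖B.eval z0‖ < ‖A.eval z0‖) : z0 ∈ closure threeConnRoots := by
  have hp : z0 ∈ closure planarRoots := by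
    rw [Metric.mem_closure_iff]
    intro ε hε
    obtain ⟨a, b, c, n, z, hz, h0⟩ := ana A B (net_ne_zero A B h) z0 h1 h2 hAB ε hε
    refine ⟨z, ?_, ?_⟩
    · have hN := net_par _ _ _ _ (net_par _ _ _ _ (net_pow _ _ h a) (net_pow _ _ (net_path 1) b))
        (net_pow _ _ (net_path n) c)
      refine net_root _ _ hN z ?_
      simp only [eval_mul, eval_pow]
      exact h0
    · rw [dist_comm, dist_eq_norm]
      exact hz
  have hm : z0 ∈ closure planarRoots \ Metric.closedBall 2 1 := by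
    refine ⟨hp, ?_⟩
    rw [Metric.mem_closedBall, dist_eq_norm, not_le]
    exact h2
  rw [← transfer] at hm
  exact hm.1

/-- the network criterion -/
theorem criterion {V : Type} [Fintype V] (G : SimpleGraph V) (s t : V) (hst : G.Adj s t)
    (f : V → ℂ) (hf : Drawing G f)
    (hull : ∀ v, v ≠ s → v ≠ t → 0 < ((f v - f s) / (f t - f s)).im)
    (P Q : ℂ[X]) (hP : Ch3.IsChromaticPoly G P)
    (hQ : Ch3.IsChromaticPoly (G.deleteEdges {s(s, t)}) Q) (z : ℂ) (h1 : ‖z - 1‖ < 1)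
    (h2 : 1 < ‖z - 2‖) (h : ‖P.eval z‖ < ‖z - 1‖ * ‖Q.eval z - P.eval z‖) :
    z ∈ closure threeConnRoots := by
  obtain ⟨A, B, hN, hPB, hQA⟩ := net_of_graph G s t hst f hf hull
    (fun a b ha => drawing_affine G f hf a b ha) (fun I _ G => counts_exist G) P Q hP hQ
  refine net_dense A B hN z h1 h2 ?_
  have e1 : P.eval z = z * (z - 1) * B.eval z := by
    rw [hPB]; simp
  have e2 : Q.eval z - P.eval z = z * A.eval z := by
    rw [← eval_sub, hQA]; simp
  rw [e2, e1, norm_mul, norm_mul, norm_mul] at h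
  by_contra hcon
  push Not at hcon
  have h3 : ‖z‖ * ‖z - 1‖ * ‖A.eval z‖ ≤ ‖z‖ * ‖z - 1‖ * ‖B.eval z‖ := by gcongr
  nlinarith

/-- the roots that disappear when the edge is deleted are inner points -/
theorem interior_root {V : Type} [Fintype V] (G : SimpleGraph V) (s t : V) (hst : G.Adj s t)
    (f : V → ℂ) (hf : Drawing G f)
    (hull : ∀ v, v ≠ s → v ≠ t → 0 < ((f v - f s) / (f t - f s)).im)
    (P Q : ℂ[X]) (hP : Ch3.IsChromaticPoly G P)
    (hQ : Ch3.IsChromaticPoly (G.deleteEdges {s(s, t)}) Q) (z : ℂ) (h1 : ‖z - 1‖ < 1)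
    (h2 : 1 < ‖z - 2‖) (h : P.eval z = 0) (h' : Q.eval z ≠ 0) :
    z ∈ interior (closure threeConnRoots) := by
  have hz1 : z ≠ 1 := by
    rintro rfl
    norm_num at h2
  rw [mem_interior_iff_mem_nhds]
  have ho : IsOpen {w : ℂ | ‖w - 1‖ < 1 ∧ 1 < ‖w - 2‖ ∧
      ‖P.eval w‖ < ‖w - 1‖ * ‖Q.eval w - P.eval w‖} := by
    have c2 := (continuous_id.sub (continuous_const (y := (2 : ℂ)))).norm
    have c1 := (continuous_id.sub (continuous_const (y := (1 : ℂ)))).norm
    exact IsOpen.inter (isOpen_lt c1 continuous_const) (IsOpen.inter (isOpen_lt continuous_const c2)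
      (isOpen_lt P.continuous.norm (c1.mul (Q.continuous.sub P.continuous).norm)))
  refine mem_of_superset (ho.mem_nhds ⟨h1, h2, ?_⟩) ?_
  · rw [h, norm_zero, sub_zero]
    exact mul_pos (norm_pos_iff.2 (sub_ne_zero.2 hz1)) (norm_pos_iff.2 h')
  · rintro w ⟨hw0, hw1, hw2⟩
    exact criterion G s t hst f hf hull P Q hP hQ w hw0 hw1 hw2

/-- the explicit region -/
theorem theta_region (n : ℕ) (hn : 2 ≤ n) (z : ℂ) (h1 : ‖z - 1‖ < 1) (h2 : 1 < ‖z - 2‖)
    (h : ‖(1 - z) ^ n - 1‖ < ‖(1 - z) ^ n - (1 - z)‖) : z ∈ closure threeConnRoots := by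
  obtain ⟨m, rfl⟩ : ∃ m, n = m + 1 := ⟨n - 1, by omega⟩
  refine net_dense _ _ (net_path m) z h1 h2 ?_
  obtain ⟨e1, e2⟩ := path_eval m z
  have e3 := congrArg norm e1
  have e4 := congrArg norm e2
  rw [norm_mul, norm_mul, norm_pow, norm_neg, norm_one, one_pow, one_mul] at e3 e4
  rw [← e3, ← e4] at h
  exact lt_of_mul_lt_mul_left h (norm_nonneg z)

end Pool.Agent.TH48
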