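import Pool.Agent.TH48.P1
import Pool.Agent.TH48.Defs2

/-!
# P5 (MEDIUM): a drawing of a series composition (compare `P3`, `TH48_P3.lean` in team-store, finished)
By `hull_near` let all inner vertices of `G` (drawing `g`) and of `H` (drawing `h`) be within `1/16` of `1/2 + I/4`;
put `m = (1 + I)/2`. New drawing: `m * g v` on the first network, `m + (1 - m) * h v` on the second one; both give `m` for the middle vertex.
`m * (1/2 + I/4) = 1/8 + 3/8 I` and `m + (1 - m) * (1/2 + I/4) = 7/8 + 3/8 I`: on the first network all vertices except `m` have real part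
`< 1/2`, on the second one all except `m` have real part `> 1/2`; all vertices except the terminals have imaginary part `> 0`. So a segment of `G` and a
segment of `H` can only meet in `m`, and then both have the middle vertex as an end (a vertex of a drawing is on an edge only as its end). Old pairs: `drawing_affine`.
-/

set_option autoImplicit false

namespace Pool.Agent.TH48

open Pool.Agent.TC47

private noncomputable def P5_m : ℂ := ⟨1 / 2, 1 / 2⟩

private noncomputable def P5_F {I J : Type} (g : I ⊕ Bool → ℂ) (h : J ⊕ Bool → ℂ) :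
    (I ⊕ J ⊕ Unit) ⊕ Bool → ℂ
  | .inl (.inl i) => P5_m * g (.inl i)
  | .inl (.inr (.inl j)) => P5_m + (1 - P5_m) * h (.inl j)
  | .inl (.inr (.inr _)) => P5_m
  | .inr false => 0
  | .inr true => 1

private theorem P5_eM {I J : Type} {g : I ⊕ Bool → ℂ} (h : J ⊕ Bool → ℂ)
    (h0 : g (.inr false) = 0) (h1 : g (.inr true) = 1) (v : I ⊕ Bool) :
    P5_F g h (eM I J v) = P5_m * g v := by
  rcases v with i | (b | b)
  · rfl
  · rw [h0, mul_zero]
    rfl
  · rw [h1, mul_one]
    rfl

private theorem P5_eN {I J : Type} (g : I ⊕ Bool → ℂ) {h : J ⊕ Bool → ℂ}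
    (h0 : h (.inr false) = 0) (h1 : h (.inr true) = 1) (v : J ⊕ Bool) :
    P5_F g h (eN I J v) = P5_m + (1 - P5_m) * h v := by
  rcases v with i | (b | b)
  · rfl
  · rw [h0, mul_zero, add_zero]
    rfl
  · rw [h1, mul_one, add_sub_cancel]
    rfl

private theorem P5_cases {I J : Type} (w : (I ⊕ J ⊕ Unit) ⊕ Bool) :
    (∃ v : I ⊕ Bool, w = eM I J v) ∨ ∃ v : J ⊕ Bool, w = eN I J v := by
  rcases w with (i | j | u) | (b | b)
  · exact Or.inl ⟨.inl i, rfl⟩
  · exact Or.inr ⟨.inl j, rfl⟩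
  · exact Or.inl ⟨.inr true, rfl⟩
  · exact Or.inl ⟨.inr false, rfl⟩
  · exact Or.inr ⟨.inr true, rfl⟩

private theorem P5_mid (I J : Type) : eM I J (.inr true) = eN I J (.inr false) := rfl

private theorem P5_seg (c : ℝ) {p q z : ℂ} (hp : c * (p.re - 1 / 2) < 0 ∨ p = P5_m)
    (hq : c * (q.re - 1 / 2) < 0 ∨ q = P5_m) (hz : z ∈ segment ℝ p q)
    (hzr : 0 ≤ c * (z.re - 1 / 2)) : z = P5_m ∧ (p = P5_m ∨ q = P5_m) := by
  have hmr : P5_m.re = 1 / 2 := rfl
  obtain ⟨a, b, ha, hb, hab, rfl⟩ := hz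
  have hre : c * ((a • p + b • q).re - 1 / 2) =
      a * (c * (p.re - 1 / 2)) + b * (c * (q.re - 1 / 2)) := by
    have h1 : (a • p + b • q).re = a * p.re + b * q.re := by simp
    have h2 : b = 1 - a := by linarith
    rw [h1, h2]
    ring
  rw [hre] at hzr
  rcases hp with hp | hp
  · rcases hq with hq | hq
    · exfalso
      have h1 : a * (c * (p.re - 1 / 2)) ≤ 0 := mul_nonpos_of_nonneg_of_nonpos ha hp.le
      have h2 : b * (c * (q.re - 1 / 2)) ≤ 0 := mul_nonpos_of_nonneg_of_nonpos hb hq.le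
      have h4 : a * (c * (p.re - 1 / 2)) = 0 := by linarith
      have h5 : b * (c * (q.re - 1 / 2)) = 0 := by linarith
      have h6 : a = 0 := (mul_eq_zero.mp h4).resolve_right hp.ne
      have h7 : b = 0 := (mul_eq_zero.mp h5).resolve_right hq.ne
      linarith
    · have h1 : a * (c * (p.re - 1 / 2)) ≤ 0 := mul_nonpos_of_nonneg_of_nonpos ha hp.le
      rw [hq, hmr, sub_self, mul_zero, mul_zero, add_zero] at hzr
      have h4 : a * (c * (p.re - 1 / 2)) = 0 := le_antisymm h1 hzr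
      have h6 : a = 0 := (mul_eq_zero.mp h4).resolve_right hp.ne
      have h7 : b = 1 := by linarith
      refine ⟨?_, Or.inr hq⟩
      rw [h6, h7, hq, zero_smul, one_smul, zero_add]
  · rcases hq with hq | hq
    · have h1 : b * (c * (q.re - 1 / 2)) ≤ 0 := mul_nonpos_of_nonneg_of_nonpos hb hq.le
      rw [hp, hmr, sub_self, mul_zero, mul_zero, zero_add] at hzr
      have h4 : b * (c * (q.re - 1 / 2)) = 0 := le_antisymm h1 hzr
      have h6 : b = 0 := (mul_eq_zero.mp h4).resolve_right hq.ne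
      have h7 : a = 1 := by linarith
      refine ⟨?_, Or.inl hp⟩
      rw [h6, h7, hp, zero_smul, one_smul, add_zero]
    · refine ⟨?_, Or.inl hp⟩
      rw [hp, hq, ← add_smul, hab, one_smul]

theorem hull_ser {I J : Type} [Finite I] [Finite J] (G : SimpleGraph (I ⊕ Bool))
    (H : SimpleGraph (J ⊕ Bool)) (hG : ∃ f, Hull G f) (hH : ∃ f, Hull H f) :
    ∃ f, Hull (serG G H) f := by
  obtain ⟨f0, hf0⟩ := hG
  obtain ⟨f1, hf1⟩ := hH
  obtain ⟨g, hg, hgn⟩ := hull_near G f0 hf0 ⟨1 / 2, 1 / 4⟩ (by norm_num) (1 / 16) (by norm_num)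
  obtain ⟨h, hh, hhn⟩ := hull_near H f1 hf1 ⟨1 / 2, 1 / 4⟩ (by norm_num) (1 / 16) (by norm_num)
  obtain ⟨hdg, hg0, hg1, -⟩ := hg
  obtain ⟨hdh, hh0, hh1, -⟩ := hh
  have hmr : P5_m.re = 1 / 2 := rfl
  have hmi : P5_m.im = 1 / 2 := rfl
  have hm0 : P5_m ≠ 0 := by
    intro h
    rw [h] at hmr
    norm_num at hmr
  have hm1 : 1 - P5_m ≠ 0 := by
    intro h
    have h2 := congrArg Complex.re h
    rw [Complex.sub_re, hmr] at h2
    norm_num at h2
  have hinl : ∀ i : I, (P5_m * g (.inl i)).re < 1 / 2 ∧ 0 < (P5_m * g (.inl i)).im := by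
    intro i
    have h := hgn i
    have h1 := (Complex.abs_re_le_norm (g (.inl i) - ⟨1 / 2, 1 / 4⟩)).trans_lt h
    have h2 := (Complex.abs_im_le_norm (g (.inl i) - ⟨1 / 2, 1 / 4⟩)).trans_lt h
    rw [Complex.sub_re, abs_lt] at h1
    rw [Complex.sub_im, abs_lt] at h2
    simp only at h1 h2
    rw [Complex.mul_re, Complex.mul_im, hmr, hmi]
    constructor <;> linarith [h1.1, h1.2, h2.1, h2.2]
  have hinr : ∀ j : J, 1 / 2 < (P5_m + (1 - P5_m) * h (.inl j)).re ∧
      0 < (P5_m + (1 - P5_m) * h (.inl j)).im := by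
    intro i
    have h1 := (Complex.abs_re_le_norm (h (.inl i) - ⟨1 / 2, 1 / 4⟩)).trans_lt (hhn i)
    have h2 := (Complex.abs_im_le_norm (h (.inl i) - ⟨1 / 2, 1 / 4⟩)).trans_lt (hhn i)
    rw [Complex.sub_re, abs_lt] at h1
    rw [Complex.sub_im, abs_lt] at h2
    simp only at h1 h2
    rw [Complex.add_re, Complex.add_im, Complex.mul_re, Complex.mul_im, Complex.sub_re,
      Complex.sub_im, Complex.one_re, Complex.one_im, hmr, hmi]
    constructor <;> linarith [h1.1, h1.2, h2.1, h2.2]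
  have hFM : ∀ v : I ⊕ Bool, P5_F g h (eM I J v) = P5_m * g v := P5_eM h hg0 hg1
  have hFN : ∀ v : J ⊕ Bool, P5_F g h (eN I J v) = P5_m + (1 - P5_m) * h v := P5_eN g hh0 hh1
  have hL : ∀ v : I ⊕ Bool, v ≠ .inr true → (P5_m * g v).re < 1 / 2 := by
    rintro (i | (b | b)) hv
    · exact (hinl i).1
    · rw [hg0, mul_zero]
      norm_num
    · exact absurd rfl hv
  have hR : ∀ v : J ⊕ Bool, v ≠ .inr false → 1 / 2 < (P5_m + (1 - P5_m) * h v).re := by
    rintro (i | (b | b)) hv
    · exact (hinr i).1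
    · exact absurd rfl hv
    · rw [hh1, mul_one, add_sub_cancel, Complex.one_re]
      norm_num
  have hLm : P5_m * g (.inr true) = P5_m := by rw [hg1, mul_one]
  have hRm : P5_m + (1 - P5_m) * h (.inr false) = P5_m := by rw [hh0, mul_zero, add_zero]
  have hL' : ∀ v : I ⊕ Bool, 1 * ((P5_m * g v).re - 1 / 2) < 0 ∨ P5_m * g v = P5_m := by
    intro v
    by_cases hv : v = .inr true
    · right
      rw [hv, hLm]
    · left
      linarith [hL v hv]
  have hR' : ∀ v : J ⊕ Bool, (-1) * ((P5_m + (1 - P5_m) * h v).re - 1 / 2) < 0 ∨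
      P5_m + (1 - P5_m) * h v = P5_m := by
    intro v
    by_cases hv : v = .inr false
    · right
      rw [hv, hRm]
    · left
      linarith [hR v hv]
  have hLt : ∀ v : I ⊕ Bool, P5_m * g v = P5_m → v = .inr true := by
    intro v hv
    by_contra hc
    have h1 := hL v hc
    rw [hv, hmr] at h1
    exact lt_irrefl _ h1
  have hRt : ∀ v : J ⊕ Bool, P5_m + (1 - P5_m) * h v = P5_m → v = .inr false := by
    intro v hv
    by_contra hc
    have h1 := hR v hc
    rw [hv, hmr] at h1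
    exact lt_irrefl _ h1
  have hda : Drawing G (fun v => P5_m * g v) := by
    have h2 := drawing_affine G g hdg P5_m 0 hm0
    simpa using h2
  have hdb : Drawing H (fun v => P5_m + (1 - P5_m) * h v) := by
    have h2 := drawing_affine H h hdh (1 - P5_m) P5_m hm1
    simpa only [add_comm] using h2
  have hadj : ∀ u v, (serG G H).Adj u v →
      (∃ u' v', G.Adj u' v' ∧ u = eM I J u' ∧ v = eM I J v') ∨
        (∃ u' v', H.Adj u' v' ∧ u = eN I J u' ∧ v = eN I J v') := by
    intro u v h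
    rw [serG, SimpleGraph.sup_adj, SimpleGraph.map_adj, SimpleGraph.map_adj] at h
    rcases h with ⟨u', v', h1, h2, h3⟩ | ⟨u', v', h1, h2, h3⟩
    · exact Or.inl ⟨u', v', h1, h2.symm, h3.symm⟩
    · exact Or.inr ⟨u', v', h1, h2.symm, h3.symm⟩
  -- the points of the segments on the left
  have hsl : ∀ (u' v' : I ⊕ Bool) (z : ℂ), z ∈ segment ℝ (P5_m * g u') (P5_m * g v') →
      1 / 2 ≤ z.re → z = P5_m ∧ (u' = .inr true ∨ v' = .inr true) := by
    intro u' v' z hz hzr
    obtain ⟨h1, h2⟩ := P5_seg 1 (hL' u') (hL' v') hz (by linarith)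
    exact ⟨h1, h2.imp (hLt u') (hLt v')⟩
  have hsr : ∀ (u' v' : J ⊕ Bool) (z : ℂ),
      z ∈ segment ℝ (P5_m + (1 - P5_m) * h u') (P5_m + (1 - P5_m) * h v') →
      z.re ≤ 1 / 2 → z = P5_m ∧ (u' = .inr false ∨ v' = .inr false) := by
    intro u' v' z hz hzr
    obtain ⟨h1, h2⟩ := P5_seg (-1) (hR' u') (hR' v') hz (by linarith)
    exact ⟨h1, h2.imp (hRt u') (hRt v')⟩
  -- a common point of a left segment and a right segment
  have hcross : ∀ (u' v' : I ⊕ Bool) (x' y' : J ⊕ Bool) (z : ℂ),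
      z ∈ segment ℝ (P5_m * g u') (P5_m * g v') →
      z ∈ segment ℝ (P5_m + (1 - P5_m) * h x') (P5_m + (1 - P5_m) * h y') →
      (u' = .inr true ∨ v' = .inr true) ∧ (x' = .inr false ∨ y' = .inr false) := by
    intro u' v' x' y' z hz hz'
    rcases le_total z.re (1 / 2) with h1 | h1
    · obtain ⟨h2, h3⟩ := hsr x' y' z hz' h1
      refine ⟨(hsl u' v' z hz ?_).2, h3⟩
      rw [h2, hmr]
    · obtain ⟨h2, h3⟩ := hsl u' v' z hz h1
      refine ⟨h3, (hsr x' y' z hz' ?_).2⟩
      rw [h2, hmr]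
  have hdis : ∀ u v x y : (I ⊕ J ⊕ Unit) ⊕ Bool,
      (∃ u' v', G.Adj u' v' ∧ u = eM I J u' ∧ v = eM I J v') →
      (∃ u' v', H.Adj u' v' ∧ x = eN I J u' ∧ y = eN I J v') →
      u ≠ x → u ≠ y → v ≠ x → v ≠ y →
      ∀ z, z ∈ segment ℝ (P5_F g h u) (P5_F g h v) →
        z ∉ segment ℝ (P5_F g h x) (P5_F g h y) := by
    rintro u v x y ⟨u', v', -, hu, hv⟩ ⟨x', y', -, hx, hy⟩ hux huy hvx hvy z hz hz'
    rw [hu, hv, hFM, hFM] at hz
    rw [hx, hy, hFN, hFN] at hz'
    obtain ⟨h1 | h1, h2 | h2⟩ := hcross u' v' x' y' z hz hz'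
    · exact hux (by rw [hu, hx, h1, h2, P5_mid])
    · exact huy (by rw [hu, hy, h1, h2, P5_mid])
    · exact hvx (by rw [hv, hx, h1, h2, P5_mid])
    · exact hvy (by rw [hv, hy, h1, h2, P5_mid])
  have hsame : ∀ (u' : I ⊕ Bool) (v' : J ⊕ Bool),
      P5_m * g u' = P5_m + (1 - P5_m) * h v' → eM I J u' = eN I J v' := by
    intro u' v' h1
    by_cases h2 : u' = .inr true
    · have h3 : v' = .inr false := by
        apply hRt
        rw [← h1, h2, hLm]
      rw [h2, h3, P5_mid]
    · have h3 := hL u' h2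
      by_cases h4 : v' = .inr false
      · exact absurd (hLt u' (by rw [h1, h4, hRm])) h2
      · have h5 := hR v' h4
        rw [h1] at h3
        linarith
  refine ⟨P5_F g h, ⟨?_, ?_, ?_⟩, rfl, rfl, ?_⟩
  · -- injective
    intro u v huv
    rcases P5_cases u with ⟨u', hu⟩ | ⟨u', hu⟩ <;> rcases P5_cases v with ⟨v', hv⟩ | ⟨v', hv⟩
    · rw [hu, hv, hFM, hFM] at huv
      rw [hu, hv, hda.1 huv]
    · rw [hu, hv, hFM, hFN] at huv
      rw [hu, hv, hsame u' v' huv]
    · rw [hu, hv, hFN, hFM] at huv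
      rw [hu, hv, hsame v' u' huv.symm]
    · rw [hu, hv, hFN, hFN] at huv
      rw [hu, hv, hdb.1 huv]
  · -- vertices and edges
    intro u v w h1 hwu hwv hmem
    rcases hadj u v h1 with ⟨u', v', h2, hu, hv⟩ | ⟨u', v', h2, hu, hv⟩
    · rw [hu, hv, hFM, hFM] at hmem
      rcases P5_cases w with ⟨w', hw⟩ | ⟨w', hw⟩
      · rw [hw, hFM] at hmem
        refine hda.2.1 u' v' w' h2 ?_ ?_ hmem
        · intro h3
          exact hwu (by rw [hw, hu, h3])
        · intro h3
          exact hwv (by rw [hw, hv, h3])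
      · rw [hw, hFN] at hmem
        have h3 : w' = .inr false := by
          by_contra hc
          have h4 := hR w' hc
          have h5 := (hsl u' v' _ hmem h4.le).1
          exact hc (hRt w' h5)
        rw [h3, hRm] at hmem
        obtain ⟨-, h4 | h4⟩ := hsl u' v' _ hmem (by rw [hmr])
        · exact hwu (by rw [hw, hu, h3, h4, P5_mid])
        · exact hwv (by rw [hw, hv, h3, h4, P5_mid])
    · rw [hu, hv, hFN, hFN] at hmem
      rcases P5_cases w with ⟨w', hw⟩ | ⟨w', hw⟩
      · rw [hw, hFM] at hmem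
        have h3 : w' = .inr true := by
          by_contra hc
          have h4 := hL w' hc
          have h5 := (hsr u' v' _ hmem h4.le).1
          exact hc (hLt w' h5)
        rw [h3, hLm] at hmem
        obtain ⟨-, h4 | h4⟩ := hsr u' v' _ hmem (by rw [hmr])
        · exact hwu (by rw [hw, hu, h3, h4, P5_mid])
        · exact hwv (by rw [hw, hv, h3, h4, P5_mid])
      · rw [hw, hFN] at hmem
        refine hdb.2.1 u' v' w' h2 ?_ ?_ hmem
        · intro h3
          exact hwu (by rw [hw, hu, h3])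
        · intro h3
          exact hwv (by rw [hw, hv, h3])
  · -- two edges
    intro u v x y huv hxy hux huy hvx hvy
    rw [Set.disjoint_left]
    intro z hz hz'
    rcases hadj u v huv with h1 | h1 <;> rcases hadj x y hxy with h2 | h2
    · obtain ⟨u', v', h1, hu, hv⟩ := h1
      obtain ⟨x', y', h2, hx, hy⟩ := h2
      rw [hu, hv, hFM, hFM] at hz
      rw [hx, hy, hFM, hFM] at hz'
      refine Set.disjoint_left.mp (hda.2.2 u' v' x' y' h1 h2 ?_ ?_ ?_ ?_) hz hz'
      · intro h3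
        exact hux (by rw [hu, hx, h3])
      · intro h3
        exact huy (by rw [hu, hy, h3])
      · intro h3
        exact hvx (by rw [hv, hx, h3])
      · intro h3
        exact hvy (by rw [hv, hy, h3])
    · exact hdis u v x y h1 h2 hux huy hvx hvy z hz hz'
    · exact hdis x y u v h2 h1 hux.symm hvx.symm huy.symm hvy.symm z hz' hz
    · obtain ⟨u', v', h1, hu, hv⟩ := h1
      obtain ⟨x', y', h2, hx, hy⟩ := h2
      rw [hu, hv, hFN, hFN] at hz
      rw [hx, hy, hFN, hFN] at hz'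
      refine Set.disjoint_left.mp (hdb.2.2 u' v' x' y' h1 h2 ?_ ?_ ?_ ?_) hz hz'
      · intro h3
        exact hux (by rw [hu, hx, h3])
      · intro h3
        exact huy (by rw [hu, hy, h3])
      · intro h3
        exact hvx (by rw [hv, hx, h3])
      · intro h3
        exact hvy (by rw [hv, hy, h3])
  · rintro (i | j | u)
    · exact (hinl i).2
    · exact (hinr j).2
    · change 0 < P5_m.im
      rw [hmi]
      norm_num

end Pool.Agent.TH48
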