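import Pool.Agent.TH48.Final
import Pool.Agent.TH48.P5
import Pool.Agent.TH48.C6

/-!
# The region of the series-parallel networks
-/

set_option autoImplicit false

namespace Pool.Agent.TH48

open Pool.Agent.TC47 Polynomial

theorem net_ser (A B A' B' : ℂ[X]) (h : Net A B) (h' : Net A' B') :
    Net (A * A' + (X - 1) * (B * B')) (A * B' + B * A' + (X - 2) * (B * B')) := by
  obtain ⟨I, _, G, hG, hc⟩ := h
  obtain ⟨J, _, H, hH, hc'⟩ := h'
  exact ⟨I ⊕ J ⊕ Unit, inferInstance, serG G H, hull_ser G H hG hH,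
    counts_ser G H A B A' B' hc hc'⟩

theorem spair_net (z a b : ℂ) (h : SPair z a b) :
    ∃ A B : ℂ[X], Net A B ∧ A.eval z = a ∧ B.eval z = b := by
  induction h with
  | edge => exact ⟨0, 1, net_edge, eval_zero, eval_one⟩
  | par _ _ ih ih' =>
    obtain ⟨A, B, hN, rfl, rfl⟩ := ih
    obtain ⟨A', B', hN', rfl, rfl⟩ := ih'
    exact ⟨A * A', B * B', net_par _ _ _ _ hN hN', eval_mul, eval_mul⟩
  | ser _ _ ih ih' =>
    obtain ⟨A, B, hN, rfl, rfl⟩ := ih
    obtain ⟨A', B', hN', rfl, rfl⟩ := ih'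
    refine ⟨_, _, net_ser _ _ _ _ hN hN', ?_, ?_⟩
    · simp only [eval_add, eval_mul, eval_sub, eval_X, eval_one]
    · simp only [eval_add, eval_mul, eval_sub, eval_X, eval_ofNat]

/-- the region of the series-parallel networks -/
theorem sp_region (z a b : ℂ) (h1 : ‖z - 1‖ < 1) (h2 : 1 < ‖z - 2‖) (h : SPair z a b)
    (hab : ‖b‖ < ‖a‖) : z ∈ closure threeConnRoots := by
  obtain ⟨A, B, hN, rfl, rfl⟩ := spair_net z a b h
  exact net_dense A B hN z h1 h2 hab

end Pool.Agent.TH48
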