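import Pool.Agent.TH48.P1
import Pool.Agent.TH48.Defs3

/-!
# G1 (STRONG): a network in a thin region along an edge
Let `L z = F u + (F v - F u) * z` and for small `η > 0` (by `hull_near` with `c = 1/2 + η I`, `ε = η / 2`) a drawing `n` of `N` with all inner
vertices within `η / 2` of `c`, so with imaginary part `> 0`. `F' (inl x) = F x`, `F' (inr j) = L (n (inl j))`; `F' (eG p) = L (n p)`.
Let `mid = (F u + F v) / 2 = L (1/2)`. Facts from `Drawing K F` (write `[p, q]` for segments): a vertex `w ≠ u, v` is not on `[F u, F v]`; an edge `e ≠ uv` of `K` without the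
end `u` does not meet `[F u, mid]`, without the end `v` it does not meet `[mid, F v]` (if `e` has the end `v`, then `e` and `[F u, F v]` have only `F v` in common, since otherwise
they are collinear and one contains an end of the other); so `e ≠ uv` never contains `mid`. All these are finitely many compact disjoint sets: some `ρ > 0` is a lower bound for all
the distances. For `η` small every edge of `N` from `u` to an inner vertex is within `ρ / 2` of `[F u, mid]`, from `v` to an inner vertex within `ρ / 2` of `[mid, F v]`, between inner vertices within `ρ / 2` of `mid`.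
The edge `uv` itself: inner vertices of `N` are strictly on one side of its line. Pairs inside `N`: `drawing_affine`. Pairs inside `K`: `F`.
-/

set_option autoImplicit false

namespace Pool.Agent.TH48

open Pool.Agent.TC47

private theorem G1_compact (p q : ℂ) : IsCompact (segment ℝ p q) := by
  rw [segment_eq_image]
  refine isCompact_Icc.image ?_
  fun_prop

private theorem G1_sep {A B : Set ℂ} (hA : IsCompact A) (hB : IsCompact B) (h : Disjoint A B) :
    ∃ ρ : ℝ, 0 < ρ ∧ ∀ a ∈ A, ∀ b ∈ B, ρ ≤ ‖a - b‖ := by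
  obtain ⟨ρ, hρ, hd⟩ := h.exists_thickenings hA hB.isClosed
  refine ⟨ρ, hρ, fun a ha b hb => ?_⟩
  by_contra hlt
  rw [not_le] at hlt
  have h1 : b ∈ Metric.thickening ρ A := by
    rw [Metric.mem_thickening_iff]
    refine ⟨a, ha, ?_⟩
    rw [dist_comm, dist_eq_norm]
    exact hlt
  have h2 : b ∈ Metric.thickening ρ B := by
    rw [Metric.mem_thickening_iff]
    refine ⟨b, hb, ?_⟩
    rw [dist_self]
    exact hρ
  exact Set.disjoint_left.1 hd h1 h2

private theorem G1_min {ι : Type} [Finite ι] (P : ι → ℝ → Prop)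
    (hmono : ∀ i a b, a ≤ b → P i b → P i a) (h : ∀ i, ∃ ρ : ℝ, 0 < ρ ∧ P i ρ) :
    ∃ ρ : ℝ, 0 < ρ ∧ ∀ i, P i ρ := by
  choose r hr hP using h
  obtain ⟨M, hM⟩ := Finite.exists_le (fun i => (r i)⁻¹)
  have hM1 : 0 < max M 1 := lt_of_lt_of_le one_pos (le_max_right _ _)
  refine ⟨(max M 1)⁻¹, inv_pos.2 hM1, fun i => hmono i _ (r i) ?_ (hP i)⟩
  rw [inv_le_comm₀ hM1 (hr i)]
  exact (hM i).trans (le_max_left _ _)

private theorem G1_near {p q p' q' : ℂ} {τ : ℝ} (hp : ‖p - p'‖ ≤ τ) (hq : ‖q - q'‖ ≤ τ) {z : ℂ}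
    (hz : z ∈ segment ℝ p q) : ∃ z' ∈ segment ℝ p' q', ‖z - z'‖ ≤ τ := by
  obtain ⟨a, b, ha, hb, hab, rfl⟩ := hz
  refine ⟨a • p' + b • q', ⟨a, b, ha, hb, hab, rfl⟩, ?_⟩
  have h : a • p + b • q - (a • p' + b • q') = a • (p - p') + b • (q - q') := by
    simp only [smul_sub]
    ring
  rw [h]
  refine (norm_add_le _ _).trans ?_
  rw [norm_smul, norm_smul, Real.norm_of_nonneg ha, Real.norm_of_nonneg hb]
  have h1 : a * ‖p - p'‖ ≤ a * τ := mul_le_mul_of_nonneg_left hp ha
  have h2 : b * ‖q - q'‖ ≤ b * τ := mul_le_mul_of_nonneg_left hq hb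
  have h3 : a * τ + b * τ = τ := by rw [← add_mul, hab, one_mul]
  linarith

private theorem G1_ray {V : Type} {K : SimpleGraph V} {F : V → ℂ} (hF : Drawing K F) {u v y : V}
    (hvu : K.Adj v u) (hvy : K.Adj v y) (huy : u ≠ y) (κ : ℝ) (hκ : 0 < κ) :
    F y - F v ≠ κ • (F u - F v) := by
  intro h
  rcases le_or_gt κ 1 with h1 | h1
  · refine hF.2.1 v u y hvu hvy.ne' huy.symm ⟨1 - κ, κ, by linarith, hκ.le, by ring, ?_⟩
    have h2 : F y = F v + κ • (F u - F v) := by rw [← h]; ring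
    rw [h2]
    simp only [Complex.real_smul]
    push_cast
    ring
  · refine hF.2.1 v y u hvy hvu.ne' huy ⟨1 - κ⁻¹, κ⁻¹, ?_, (inv_pos.2 hκ).le, by ring, ?_⟩
    · have := inv_lt_one_of_one_lt₀ h1
      linarith
    · have h2 : F y = F v + κ • (F u - F v) := by rw [← h]; ring
      rw [h2]
      simp only [Complex.real_smul]
      have hκ0 : (κ : ℂ) ≠ 0 := by
        exact_mod_cast hκ.ne'
      push_cast
      field_simp
      ring

private theorem G1_fact_aux {V : Type} {K : SimpleGraph V} {F : V → ℂ} (hF : Drawing K F)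
    {u v y : V} (hvu : K.Adj v u) (hvy : K.Adj v y) (huy : u ≠ y) :
    Disjoint (segment ℝ (F v) (F y)) (segment ℝ (F u) ((F u + F v) / 2)) := by
  rw [Set.disjoint_left]
  rintro z ⟨a, b, ha, hb, hab, hz⟩ ⟨c, d, hc, hd, hcd, hz'⟩
  have h1 : b • (F y - F v) = (c + d / 2) • (F u - F v) := by
    have e1 : a • F v + b • F y = c • F u + d • ((F u + F v) / 2) := by rw [hz, hz']
    have ea : (a : ℂ) = 1 - b := by
      rw [eq_sub_iff_add_eq]
      exact_mod_cast hab
    have ec : (c : ℂ) = 1 - d := by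
      rw [eq_sub_iff_add_eq]
      exact_mod_cast hcd
    simp only [Complex.real_smul] at e1 ⊢
    push_cast
    rw [ea, ec] at e1
    rw [ec]
    linear_combination e1
  have hcd2 : 0 < c + d / 2 := by linarith
  have hne : F u - F v ≠ 0 := sub_ne_zero.2 (fun h => hvu.ne' (hF.1 h))
  rcases hb.eq_or_lt with hb0 | hb0
  · rw [← hb0, zero_smul] at h1
    rcases smul_eq_zero.1 h1.symm with h2 | h2
    · linarith
    · exact hne h2
  · refine G1_ray hF hvu hvy huy ((c + d / 2) / b) (by positivity) ?_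
    rw [div_eq_inv_mul, mul_smul, ← h1, smul_smul, inv_mul_cancel₀ hb0.ne', one_smul]

private theorem G1_mid (A B : ℂ) : (A + B) / 2 ∈ segment ℝ A B :=
  ⟨1 / 2, 1 / 2, by norm_num, by norm_num, by norm_num, by
    simp only [Complex.real_smul]
    push_cast
    ring⟩

private theorem G1_half (A B : ℂ) : segment ℝ A ((A + B) / 2) ⊆ segment ℝ A B :=
  (convex_segment A B).segment_subset (left_mem_segment ℝ A B) (G1_mid A B)

private theorem G1_half' (A B : ℂ) : segment ℝ B ((A + B) / 2) ⊆ segment ℝ A B :=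
  (convex_segment A B).segment_subset (right_mem_segment ℝ A B) (G1_mid A B)

private theorem G1_fact {V : Type} {K : SimpleGraph V} {F : V → ℂ} (hF : Drawing K F)
    {u v x y : V} (huv : K.Adj u v) (hxy : K.Adj x y) (hx : x ≠ u) (hy : y ≠ u) :
    Disjoint (segment ℝ (F x) (F y)) (segment ℝ (F u) ((F u + F v) / 2)) := by
  by_cases hxv : x = v
  · rw [hxv] at hxy ⊢
    exact G1_fact_aux hF huv.symm hxy hy.symm
  · by_cases hyv : y = v
    · rw [hyv] at hxy ⊢
      rw [segment_symm ℝ (F x)]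
      exact G1_fact_aux hF huv.symm hxy.symm hx.symm
    · exact (hF.2.2 x y u v hxy huv hx hxv hy hyv).mono_right (G1_half _ _)

/-- the place of a vertex of the network for `η = 0` -/
private noncomputable def G1_S {J : Type} (A B : ℂ) : J ⊕ Bool → ℂ
  | .inl _ => (A + B) / 2
  | .inr false => A
  | .inr true => B

private noncomputable def G1_F {V J : Type} (F : V → ℂ) (g : J ⊕ Bool → ℂ) : V ⊕ J → ℂ
  | .inl x => F x
  | .inr j => g (.inl j)

private theorem G1_adj {V J : Type} {K : SimpleGraph V} {u v : V} {huv : u ≠ v}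
    {N : SimpleGraph (J ⊕ Bool)} {a b : V ⊕ J} (h : (glueG K u v huv N).Adj a b) :
    (∃ x y, K.Adj x y ∧ a = .inl x ∧ b = .inl y) ∨
      (∃ p q, N.Adj p q ∧ a = eG u v huv p ∧ b = eG u v huv q) := by
  rw [glueG, SimpleGraph.sup_adj] at h
  rcases h with h | h
  · rw [SimpleGraph.map_adj] at h
    obtain ⟨x, y, h1, h2, h3⟩ := h
    exact Or.inl ⟨x, y, h1, h2.symm, h3.symm⟩
  · rw [SimpleGraph.map_adj] at h
    obtain ⟨p, q, h1, h2, h3⟩ := h
    exact Or.inr ⟨p, q, h1, h2.symm, h3.symm⟩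

theorem glue_thin {V J : Type} [Finite V] [Finite J] (K : SimpleGraph V) (F : V → ℂ)
    (hF : Drawing K F) (u v : V) (huv : K.Adj u v) (N : SimpleGraph (J ⊕ Bool))
    (hN : ∃ f, Hull N f) (δ : ℝ) (hδ : 0 < δ) :
    ∃ F' : V ⊕ J → ℂ, Drawing (glueG K u v huv.ne N) F' ∧ (∀ x, F' (.inl x) = F x) ∧
      ∀ j, ‖F' (.inr j) - (F u + F v) / 2‖ < δ := by
  obtain ⟨f, hf⟩ := hN
  -- the distances
  have hS1 : ∃ ρ : ℝ, 0 < ρ ∧ ∀ i : V × V, K.Adj i.1 i.2 → i.1 ≠ u → i.2 ≠ u →
      ∀ a ∈ segment ℝ (F i.1) (F i.2), ∀ b ∈ segment ℝ (F u) ((F u + F v) / 2), ρ ≤ ‖a - b‖ := by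
    refine G1_min (fun (i : V × V) (ρ : ℝ) => K.Adj i.1 i.2 → i.1 ≠ u → i.2 ≠ u →
      ∀ a ∈ segment ℝ (F i.1) (F i.2), ∀ b ∈ segment ℝ (F u) ((F u + F v) / 2), ρ ≤ ‖a - b‖) ?_ ?_
    · intro i a b hab h h1 h2 h3 p hp q hq
      exact hab.trans (h h1 h2 h3 p hp q hq)
    · intro i
      by_cases h : K.Adj i.1 i.2 ∧ i.1 ≠ u ∧ i.2 ≠ u
      · obtain ⟨ρ, hρ, h4⟩ := G1_sep (G1_compact _ _) (G1_compact _ _)
          (G1_fact hF huv h.1 h.2.1 h.2.2)
        exact ⟨ρ, hρ, fun _ _ _ => h4⟩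
      · exact ⟨1, one_pos, fun h1 h2 h3 => absurd ⟨h1, h2, h3⟩ h⟩
  have hS2 : ∃ ρ : ℝ, 0 < ρ ∧ ∀ i : V × V, K.Adj i.1 i.2 → i.1 ≠ v → i.2 ≠ v →
      ∀ a ∈ segment ℝ (F i.1) (F i.2), ∀ b ∈ segment ℝ (F v) ((F u + F v) / 2), ρ ≤ ‖a - b‖ := by
    refine G1_min (fun (i : V × V) (ρ : ℝ) => K.Adj i.1 i.2 → i.1 ≠ v → i.2 ≠ v →
      ∀ a ∈ segment ℝ (F i.1) (F i.2), ∀ b ∈ segment ℝ (F v) ((F u + F v) / 2), ρ ≤ ‖a - b‖) ?_ ?_
    · intro i a b hab h h1 h2 h3 p hp q hq
      exact hab.trans (h h1 h2 h3 p hp q hq)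
    · intro i
      by_cases h : K.Adj i.1 i.2 ∧ i.1 ≠ v ∧ i.2 ≠ v
      · obtain ⟨ρ, hρ, h4⟩ := G1_sep (G1_compact _ _) (G1_compact _ _)
          (G1_fact hF huv.symm h.1 h.2.1 h.2.2)
        rw [add_comm (F v)] at h4
        exact ⟨ρ, hρ, fun _ _ _ => h4⟩
      · exact ⟨1, one_pos, fun h1 h2 h3 => absurd ⟨h1, h2, h3⟩ h⟩
  have hS3 : ∃ ρ : ℝ, 0 < ρ ∧ ∀ w : V, w ≠ u → w ≠ v →
      ∀ b ∈ segment ℝ (F u) (F v), ρ ≤ ‖F w - b‖ := by
    refine G1_min (fun (w : V) (ρ : ℝ) => w ≠ u → w ≠ v →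
      ∀ b ∈ segment ℝ (F u) (F v), ρ ≤ ‖F w - b‖) ?_ ?_
    · intro i a b hab h h1 h2 p hp
      exact hab.trans (h h1 h2 p hp)
    · intro w
      by_cases h : w ≠ u ∧ w ≠ v
      · obtain ⟨ρ, hρ, h4⟩ := G1_sep (A := {F w}) isCompact_singleton (G1_compact (F u) (F v))
          (Set.disjoint_singleton_left.2 (hF.2.1 u v w huv h.1 h.2))
        exact ⟨ρ, hρ, fun _ _ => h4 _ rfl⟩
      · exact ⟨1, one_pos, fun h1 h2 => absurd ⟨h1, h2⟩ h⟩
  obtain ⟨ρ1, hρ1, hd1⟩ := hS1
  obtain ⟨ρ2, hρ2, hd2⟩ := hS2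
  obtain ⟨ρ3, hρ3, hd3⟩ := hS3
  -- the scale
  have hne : F v - F u ≠ 0 := sub_ne_zero.2 (fun h => huv.ne' (hF.1 h))
  have hD : 0 < ‖F v - F u‖ := norm_pos_iff.2 hne
  set m : ℝ := min (min ρ1 ρ2) (min ρ3 δ) with hm
  have hm0 : 0 < m := lt_min (lt_min hρ1 hρ2) (lt_min hρ3 hδ)
  have hm1 : m ≤ ρ1 := (min_le_left _ _).trans (min_le_left _ _)
  have hm2 : m ≤ ρ2 := (min_le_left _ _).trans (min_le_right _ _)
  have hm3 : m ≤ ρ3 := (min_le_right _ _).trans (min_le_left _ _)
  have hm4 : m ≤ δ := (min_le_right _ _).trans (min_le_right _ _)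
  set η : ℝ := m / (4 * ‖F v - F u‖) with hη
  have hη0 : 0 < η := by positivity
  have hηm : ‖F v - F u‖ * (2 * η) = m / 2 := by
    rw [hη]
    field_simp
    norm_num
  obtain ⟨n, hn, hnc⟩ := hull_near N f hf ⟨1 / 2, η⟩ hη0 η hη0
  obtain ⟨hnd, hn0, hn1, hni⟩ := hn
  set g : J ⊕ Bool → ℂ := fun p => (F v - F u) * n p + F u with hg
  have hgd : Drawing N g := drawing_affine N n hnd (F v - F u) (F u) hne
  have hg0 : g (.inr false) = F u := by
    simp only [hg]
    rw [hn0]
    ring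
  have hg1 : g (.inr true) = F v := by
    simp only [hg]
    rw [hn1]
    ring
  have hgS : ∀ p, ‖g p - G1_S (F u) (F v) p‖ ≤ m / 2 := by
    rintro (j | (b | b))
    · have h1 : g (.inl j) - G1_S (F u) (F v) (.inl j : J ⊕ Bool) =
          (F v - F u) * (n (.inl j) - 1 / 2) := by
        simp only [hg, G1_S]
        ring
      have h2 : ‖n (.inl j) - 1 / 2‖ ≤ 2 * η := by
        have h3 : n (.inl j) - 1 / 2 = (n (.inl j) - ⟨1 / 2, η⟩) + (⟨0, η⟩ : ℂ) := by
          apply Complex.ext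
          · simp
          · simp
        have h4 : ‖(⟨0, η⟩ : ℂ)‖ ≤ η := by
          refine (Complex.norm_le_abs_re_add_abs_im _).trans ?_
          simp [abs_of_pos hη0]
        rw [h3]
        have h5 := norm_add_le (n (.inl j) - ⟨1 / 2, η⟩) (⟨0, η⟩ : ℂ)
        have h6 := (hnc j).le
        linarith
      rw [h1, norm_mul, ← hηm]
      exact mul_le_mul_of_nonneg_left h2 hD.le
    · show ‖g (.inr false) - F u‖ ≤ m / 2
      rw [hg0, sub_self, norm_zero]
      positivity
    · show ‖g (.inr true) - F v‖ ≤ m / 2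
      rw [hg1, sub_self, norm_zero]
      positivity
  have hFe : ∀ p : J ⊕ Bool, G1_F F g (eG u v huv.ne p) = g p := by
    rintro (j | (b | b))
    · rfl
    · exact hg0.symm
    · exact hg1.symm
  have hSseg : ∀ p q : J ⊕ Bool, segment ℝ (G1_S (F u) (F v) p) (G1_S (F u) (F v) q) ⊆
      segment ℝ (F u) (F v) := by
    have h1 : ∀ p : J ⊕ Bool, G1_S (F u) (F v) p ∈ segment ℝ (F u) (F v) := by
      rintro (j | (b | b))
      · exact G1_mid _ _
      · exact left_mem_segment ℝ _ _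
      · exact right_mem_segment ℝ _ _
    exact fun p q => (convex_segment _ _).segment_subset (h1 p) (h1 q)
  -- a vertex of K and an edge of N
  have hvert : ∀ (w : V) (p q : J ⊕ Bool), w ≠ u → w ≠ v → F w ∉ segment ℝ (g p) (g q) := by
    intro w p q hwu hwv hmem
    obtain ⟨z, hz, hz'⟩ := G1_near (hgS p) (hgS q) hmem
    have h1 := hd3 w hwu hwv z (hSseg p q hz)
    linarith
  -- an edge of K without the end u
  have hedge1 : ∀ (x y : V) (p q : J ⊕ Bool), K.Adj x y → x ≠ u → y ≠ u →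
      segment ℝ (G1_S (F u) (F v) p) (G1_S (F u) (F v) q) ⊆ segment ℝ (F u) ((F u + F v) / 2) →
      Disjoint (segment ℝ (F x) (F y)) (segment ℝ (g p) (g q)) := by
    intro x y p q hxy hx hy hsub
    rw [Set.disjoint_left]
    intro a ha ha'
    obtain ⟨z, hz, hz'⟩ := G1_near (hgS p) (hgS q) ha'
    have h1 := hd1 (x, y) hxy hx hy a ha z (hsub hz)
    linarith
  have hedge2 : ∀ (x y : V) (p q : J ⊕ Bool), K.Adj x y → x ≠ v → y ≠ v →
      segment ℝ (G1_S (F u) (F v) p) (G1_S (F u) (F v) q) ⊆ segment ℝ (F v) ((F u + F v) / 2) →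
      Disjoint (segment ℝ (F x) (F y)) (segment ℝ (g p) (g q)) := by
    intro x y p q hxy hx hy hsub
    rw [Set.disjoint_left]
    intro a ha ha'
    obtain ⟨z, hz, hz'⟩ := G1_near (hgS p) (hgS q) ha'
    have h1 := hd2 (x, y) hxy hx hy a ha z (hsub hz)
    linarith
  -- the edge uv and inner vertices
  have hline : ∀ j k : J, Disjoint (segment ℝ (F u) (F v)) (segment ℝ (g (.inl j)) (g (.inl k))) := by
    intro j k
    rw [Set.disjoint_left]
    rintro z ⟨a, b, ha, hb, hab, hz⟩ ⟨c, d, hc, hd, hcd, hz'⟩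
    have ea : (a : ℂ) = 1 - b := by
      rw [eq_sub_iff_add_eq]
      exact_mod_cast hab
    have ec : (c : ℂ) = 1 - d := by
      rw [eq_sub_iff_add_eq]
      exact_mod_cast hcd
    have h1 : (F v - F u) * (b : ℂ) = (F v - F u) * (c * n (.inl j) + d * n (.inl k)) := by
      have e1 : a • F u + b • F v = c • g (.inl j) + d • g (.inl k) := by rw [hz, hz']
      simp only [Complex.real_smul, hg] at e1
      rw [ea] at e1
      have e2 : (c : ℂ) * F u + d * F u = F u := by
        rw [ec]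
        ring
      linear_combination e1 + e2
    have h2 := mul_left_cancel₀ hne h1
    have h3 := congrArg Complex.im h2
    have h4 : ((c : ℂ) * n (.inl j) + d * n (.inl k)).im =
        c * (n (.inl j)).im + d * (n (.inl k)).im := by
      simp
    rw [h4, Complex.ofReal_im] at h3
    have h5 := hni j
    have h6 := hni k
    rcases hc.eq_or_lt with h7 | h7
    · have h8 : d = 1 := by linarith
      rw [← h7, h8] at h3
      linarith
    · have h8 := mul_pos h7 h5
      have h9 := mul_nonneg hd h6.le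
      linarith
  -- an edge of K and two inner vertices (perhaps equal)
  have hinner : ∀ (x y : V) (j k : J), K.Adj x y →
      Disjoint (segment ℝ (F x) (F y)) (segment ℝ (g (.inl j)) (g (.inl k))) := by
    intro x y j k hxy
    have hmm : segment ℝ (G1_S (F u) (F v) (.inl j : J ⊕ Bool))
        (G1_S (F u) (F v) (.inl k : J ⊕ Bool)) = {(F u + F v) / 2} := segment_same ℝ _
    by_cases hu : x ≠ u ∧ y ≠ u
    · refine hedge1 x y _ _ hxy hu.1 hu.2 ?_
      rw [hmm, Set.singleton_subset_iff]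
      exact right_mem_segment ℝ _ _
    · by_cases hv : x ≠ v ∧ y ≠ v
      · refine hedge2 x y _ _ hxy hv.1 hv.2 ?_
        rw [hmm, Set.singleton_subset_iff]
        exact right_mem_segment ℝ _ _
      · rw [not_and_or, not_not, not_not] at hu hv
        rcases hu with hu | hu <;> rcases hv with hv | hv
        · exact absurd (hu.symm.trans hv) huv.ne
        · rw [hu, hv]
          exact hline j k
        · rw [hu, hv, segment_symm ℝ (F v)]
          exact hline j k
        · exact absurd (hu.symm.trans hv) huv.ne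
  -- an edge of K and an edge of N without common ends
  have hKN : ∀ (x y : V) (p q : J ⊕ Bool), K.Adj x y → N.Adj p q →
      (.inl x : V ⊕ J) ≠ eG u v huv.ne p → (.inl x : V ⊕ J) ≠ eG u v huv.ne q →
      (.inl y : V ⊕ J) ≠ eG u v huv.ne p → (.inl y : V ⊕ J) ≠ eG u v huv.ne q →
      Disjoint (segment ℝ (F x) (F y)) (segment ℝ (g p) (g q)) := by
    intro x y p q hxy hpq h1 h2 h3 h4
    have e0 : (eG u v huv.ne (.inr false : J ⊕ Bool)) = (.inl u : V ⊕ J) := rfl
    have e1 : (eG u v huv.ne (.inr true : J ⊕ Bool)) = (.inl v : V ⊕ J) := rfl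
    rcases p with j | (b | b) <;> rcases q with k | (c | c)
    · exact hinner x y j k hxy
    · rw [e0] at h2 h4
      refine hedge1 x y _ _ hxy (fun h => h2 (by rw [h])) (fun h => h4 (by rw [h])) ?_
      rw [segment_symm]
      exact subset_rfl
    · rw [e1] at h2 h4
      refine hedge2 x y _ _ hxy (fun h => h2 (by rw [h])) (fun h => h4 (by rw [h])) ?_
      rw [segment_symm]
      exact subset_rfl
    · rw [e0] at h1 h3
      exact hedge1 x y _ _ hxy (fun h => h1 (by rw [h])) (fun h => h3 (by rw [h])) subset_rfl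
    · exact absurd rfl hpq.ne
    · rw [e0] at h1 h3
      rw [e1] at h2 h4
      rw [hg0, hg1]
      exact hF.2.2 x y u v hxy huv (fun h => h1 (by rw [h])) (fun h => h2 (by rw [h]))
        (fun h => h3 (by rw [h])) (fun h => h4 (by rw [h]))
    · rw [e1] at h1 h3
      exact hedge2 x y _ _ hxy (fun h => h1 (by rw [h])) (fun h => h3 (by rw [h])) subset_rfl
    · rw [e1] at h1 h3
      rw [e0] at h2 h4
      rw [hg0, hg1]
      exact hF.2.2 x y v u hxy huv.symm (fun h => h1 (by rw [h])) (fun h => h2 (by rw [h]))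
        (fun h => h3 (by rw [h])) (fun h => h4 (by rw [h]))
    · exact absurd rfl hpq.ne
  -- a vertex of K and a vertex of N
  have hinj : ∀ (x : V) (j : J), F x ≠ g (.inl j) := by
    intro x j h
    by_cases hxu : x = u
    · rw [hxu, ← hg0] at h
      exact Sum.inr_ne_inl (hgd.1 h)
    · by_cases hxv : x = v
      · rw [hxv, ← hg1] at h
        exact Sum.inr_ne_inl (hgd.1 h)
      · refine hvert x (.inl j) (.inl j) hxu hxv ?_
        rw [h]
        exact left_mem_segment ℝ _ _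
  refine ⟨G1_F F g, ⟨?_, ?_, ?_⟩, fun _ => rfl, ?_⟩
  · rintro (x | j) (y | k) h
    · exact congrArg _ (hF.1 h)
    · exact absurd h (hinj x k)
    · exact absurd (Eq.symm h) (hinj y j)
    · have h1 : (Sum.inl j : J ⊕ Bool) = .inl k := hgd.1 h
      rw [Sum.inl.injEq] at h1
      rw [h1]
  · intro a b w hab hwa hwb hmem
    rcases G1_adj hab with ⟨x, y, hxy, rfl, rfl⟩ | ⟨p, q, hpq, rfl, rfl⟩
    · rcases w with z | j
      · exact hF.2.1 x y z hxy (fun h => hwa (by rw [h])) (fun h => hwb (by rw [h])) hmem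
      · exact Set.disjoint_left.1 (hinner x y j j hxy) hmem (left_mem_segment ℝ _ _)
    · rw [hFe, hFe] at hmem
      by_cases hw : ∃ r : J ⊕ Bool, w = eG u v huv.ne r
      · obtain ⟨r, rfl⟩ := hw
        rw [hFe] at hmem
        exact hgd.2.1 p q r hpq (fun h => hwa (by rw [h])) (fun h => hwb (by rw [h])) hmem
      · rcases w with z | j
        · refine hvert z p q ?_ ?_ hmem
          · intro h
            exact hw ⟨.inr false, by rw [h]; rfl⟩
          · intro h
            exact hw ⟨.inr true, by rw [h]; rfl⟩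
        · exact hw ⟨.inl j, rfl⟩
  · intro a b c d hab hcd hac had hbc hbd
    rcases G1_adj hab with ⟨x, y, hxy, rfl, rfl⟩ | ⟨p, q, hpq, rfl, rfl⟩
    · rcases G1_adj hcd with ⟨x', y', hxy', rfl, rfl⟩ | ⟨p', q', hpq', rfl, rfl⟩
      · exact hF.2.2 x y x' y' hxy hxy' (fun h => hac (by rw [h])) (fun h => had (by rw [h]))
          (fun h => hbc (by rw [h])) (fun h => hbd (by rw [h]))
      · rw [hFe, hFe]
        exact hKN x y p' q' hxy hpq' hac had hbc hbd
    · rcases G1_adj hcd with ⟨x', y', hxy', rfl, rfl⟩ | ⟨p', q', hpq', rfl, rfl⟩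
      · rw [hFe, hFe]
        exact (hKN x' y' p q hxy' hpq hac.symm hbc.symm had.symm hbd.symm).symm
      · rw [hFe, hFe, hFe, hFe]
        exact hgd.2.2 p q p' q' hpq hpq' (fun h => hac (by rw [h])) (fun h => had (by rw [h]))
          (fun h => hbc (by rw [h])) (fun h => hbd (by rw [h]))
  · intro j
    have h1 : ‖g (.inl j) - (F u + F v) / 2‖ ≤ m / 2 := hgS (.inl j)
    show ‖g (.inl j) - (F u + F v) / 2‖ < δ
    linarith

end Pool.Agent.TH48
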