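import Pool.Agent.TH48.Defs3
import Pool.Agent.TC47.GC
import Pool.Agent.TC47.GE

/-!
# G2 (MEDIUM/STRONG): a path with three inner vertices around the lowest vertex
New vertices `p0 = η (1 - I)`, `p1 = 1 - I`, `p2 = -1 - I` with small `η > 0`; edges `u p0`, `p0 p1`, `p1 p2`, `p2 v`. All old points have imaginary part
`≥ 0`, and `= 0` only at `v` (place `0`). `[f u, p0]`, from `I` to `η (1 - I)`: real part `> 0` except at `I`, imaginary part `> -1`. Edges of `G` at `v` other than `uv` have real part `< 0` except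
at `0`, so they do not meet `[f u, p0]`; vertices and edges of `G` without the ends `u`, `v` do not meet `[0, I]` (drawing), so they have a positive distance from it and do not meet
`[f u, p0]` if `η` is small. `[p0, p1]`: imaginary part `< 0`, real part `> 0`. `[p1, p2]`: imaginary part `-1`. `[p2, 0]`: imaginary part `< 0` except at `0`, real part `< 0` except at `0`.
-/

set_option autoImplicit false

namespace Pool.Agent.TH48

open Pool.Agent.TC47

/-- the edges, each in one direction -/
private def G2_r {V : Type} (G : SimpleGraph V) (u v : V) : V ⊕ Fin 3 → V ⊕ Fin 3 → Prop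
  | .inl x, .inl y => G.Adj x y
  | .inl x, .inr i => (x = u ∧ i = 0) ∨ (x = v ∧ i = 2)
  | .inr i, .inr j => (i = 0 ∧ j = 1) ∨ (i = 1 ∧ j = 2)
  | .inr _, .inl _ => False

private theorem G2_le {V : Type} (G : SimpleGraph V) (u v : V) (huv : u ≠ v) :
    glueG G u v huv P4 ≤ SimpleGraph.fromRel (G2_r G u v) := by
  intro x y h
  rw [SimpleGraph.fromRel_adj]
  refine ⟨h.ne, ?_⟩
  rcases h with h | h
  · rw [SimpleGraph.map_adj] at h
    obtain ⟨a, b, hab, rfl, rfl⟩ := h
    exact Or.inl hab
  · rw [SimpleGraph.map_adj] at h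
    obtain ⟨a, b, hab, rfl, rfl⟩ := h
    rw [P4, SimpleGraph.fromRel_adj] at hab
    rcases hab.2 with (⟨rfl, rfl⟩ | ⟨rfl, rfl⟩ | ⟨rfl, rfl⟩ | ⟨rfl, rfl⟩) |
      (⟨rfl, rfl⟩ | ⟨rfl, rfl⟩ | ⟨rfl, rfl⟩ | ⟨rfl, rfl⟩)
    · exact Or.inl (Or.inl ⟨rfl, rfl⟩)
    · exact Or.inl (Or.inl ⟨rfl, rfl⟩)
    · exact Or.inl (Or.inr ⟨rfl, rfl⟩)
    · exact Or.inr (Or.inr ⟨rfl, rfl⟩)
    · exact Or.inr (Or.inl ⟨rfl, rfl⟩)
    · exact Or.inr (Or.inl ⟨rfl, rfl⟩)
    · exact Or.inr (Or.inr ⟨rfl, rfl⟩)
    · exact Or.inl (Or.inr ⟨rfl, rfl⟩)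

private theorem G2_seg {p q z : ℂ} (h : z ∈ segment ℝ p q) : ∃ a b : ℝ, 0 ≤ a ∧ 0 ≤ b ∧ a + b = 1 ∧
    z.re = a * p.re + b * q.re ∧ z.im = a * p.im + b * q.im := by
  obtain ⟨a, b, ha, hb, hab, rfl⟩ := h
  exact ⟨a, b, ha, hb, hab, by simp, by simp⟩

private theorem G2_0 {η : ℝ} (hη : 0 < η) {z : ℂ}
    (h : z ∈ segment ℝ Complex.I ((η : ℂ) * (1 - Complex.I))) :
    0 ≤ z.re ∧ -η ≤ z.im ∧ (z.re = 0 → z.im = 1) := by
  obtain ⟨a, b, ha, hb, hab, h1, h2⟩ := G2_seg h
  simp only [Complex.I_re, Complex.I_im, Complex.mul_re, Complex.mul_im, Complex.ofReal_re,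
    Complex.ofReal_im, Complex.sub_re, Complex.sub_im, Complex.one_re, Complex.one_im] at h1 h2
  refine ⟨?_, ?_, ?_⟩
  · rw [h1]
    nlinarith [mul_nonneg hb hη.le]
  · rw [h2]
    nlinarith [mul_nonneg ha hη.le]
  · intro h3
    have h4 : b * η = 0 := by rw [h1] at h3; linarith
    have h5 : b = 0 := by
      rcases mul_eq_zero.1 h4 with h | h
      · exact h
      · exact absurd h hη.ne'
    rw [h2, h5]
    linarith

private theorem G2_1 {η : ℝ} (hη : 0 < η) {z : ℂ}
    (h : z ∈ segment ℝ ((η : ℂ) * (1 - Complex.I)) (1 - Complex.I)) : 0 < z.re ∧ z.im < 0 := by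
  obtain ⟨a, b, ha, hb, hab, h1, h2⟩ := G2_seg h
  simp only [Complex.I_re, Complex.I_im, Complex.mul_re, Complex.mul_im, Complex.ofReal_re,
    Complex.ofReal_im, Complex.sub_re, Complex.sub_im, Complex.one_re, Complex.one_im] at h1 h2
  have h3 : 0 < a * η + b := by
    rcases eq_or_lt_of_le hb with h | h
    · rw [← h] at hab ⊢
      have : a = 1 := by linarith
      rw [this]
      linarith
    · have := mul_nonneg ha hη.le
      linarith
  constructor
  · rw [h1]
    linarith
  · rw [h2]
    linarith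

private theorem G2_2 {z : ℂ} (h : z ∈ segment ℝ (1 - Complex.I) (-1 - Complex.I)) : z.im = -1 := by
  obtain ⟨a, b, ha, hb, hab, h1, h2⟩ := G2_seg h
  simp only [Complex.I_re, Complex.I_im, Complex.neg_re, Complex.neg_im,
    Complex.sub_re, Complex.sub_im, Complex.one_re, Complex.one_im] at h1 h2
  rw [h2]
  linarith

private theorem G2_3 {z : ℂ} (h : z ∈ segment ℝ (-1 - Complex.I) 0) :
    z.re ≤ 0 ∧ z.im ≤ 0 ∧ z.re = z.im := by
  obtain ⟨a, b, ha, hb, hab, h1, h2⟩ := G2_seg h
  simp only [Complex.I_re, Complex.I_im, Complex.neg_re, Complex.neg_im, Complex.zero_re,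
    Complex.zero_im, Complex.sub_re, Complex.sub_im, Complex.one_re, Complex.one_im] at h1 h2
  refine ⟨?_, ?_, ?_⟩
  · rw [h1]
    linarith
  · rw [h2]
    linarith
  · rw [h1, h2]
    ring

private theorem G2_old {p q z : ℂ} (hp : 0 ≤ p.im) (hq : 0 ≤ q.im) (h : z ∈ segment ℝ p q) :
    0 ≤ z.im := by
  obtain ⟨a, b, ha, hb, hab, h1, h2⟩ := G2_seg h
  rw [h2]
  exact add_nonneg (mul_nonneg ha hp) (mul_nonneg hb hq)

private theorem G2_pos {p q z : ℂ} (hp : 0 < p.im) (hq : 0 < q.im) (h : z ∈ segment ℝ p q) :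
    0 < z.im := by
  obtain ⟨a, b, ha, hb, hab, h1, h2⟩ := G2_seg h
  rw [h2]
  rcases eq_or_lt_of_le ha with h | h
  · have hb1 : b = 1 := by linarith
    rw [← h, hb1]
    linarith
  · have h3 := mul_pos h hp
    have h4 := mul_nonneg hb hq.le
    linarith

private theorem G2_v {p z : ℂ} (hp : p.re < 0) (h : z ∈ segment ℝ 0 p) :
    z.re ≤ 0 ∧ (z.re = 0 → z.im = 0) := by
  obtain ⟨a, b, ha, hb, hab, h1, h2⟩ := G2_seg h
  simp only [Complex.zero_re, Complex.zero_im, mul_zero, zero_add] at h1 h2
  refine ⟨?_, ?_⟩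
  · rw [h1]
    nlinarith
  · intro h3
    rw [h1] at h3
    have h5 : b = 0 := by
      rcases mul_eq_zero.1 h3 with h | h
      · exact h
      · exact absurd h hp.ne
    rw [h2, h5, zero_mul]

/-- the drawing with the new vertices -/
private noncomputable def G2_F {V : Type} (f : V → ℂ) (η : ℝ) : V ⊕ Fin 3 → ℂ
  | .inl x => f x
  | .inr 0 => η * (1 - Complex.I)
  | .inr 1 => 1 - Complex.I
  | .inr 2 => -1 - Complex.I


theorem glue_tail {V : Type} [Finite V] (G : SimpleGraph V) (f : V → ℂ) (hf : Drawing G f)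
    (u v : V) (huv : G.Adj u v) (hv : f v = 0) (hu : f u = Complex.I)
    (him : ∀ w, w ≠ v → 0 < (f w).im) (hre : ∀ w, G.Adj v w → w ≠ u → (f w).re < 0) :
    ∃ (F : V ⊕ Fin 3 → ℂ) (η : ℝ), Drawing (glueG G u v huv.ne P4) F ∧
      (∀ x, F (.inl x) = f x) ∧ 0 < η ∧ η < 1 ∧ F (.inr 0) = η * (1 - Complex.I) ∧
      F (.inr 1) = 1 - Complex.I ∧ F (.inr 2) = -1 - Complex.I := by
  obtain ⟨r, ⟨e1, e2, e3, e4⟩, hr⟩ :=
    ((eventually_small G f hf v u hv huv.symm).and (self_mem_nhdsWithin)).exists
  have hr0 : 0 < r := hr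
  set η : ℝ := min r 1 / 2 with hηd
  have hη0 : 0 < η := by
    have := lt_min hr0 one_pos
    linarith
  have hη1 : η < 1 := by
    have := min_le_right r 1
    linarith
  have hηr : ‖(η : ℂ) * (1 - Complex.I)‖ ≤ r := by
    have h1 : ‖(1 - Complex.I : ℂ)‖ ≤ 2 := by
      refine (norm_sub_le _ _).trans ?_
      rw [norm_one, Complex.norm_I]
      norm_num
    rw [norm_mul, Complex.norm_real, Real.norm_of_nonneg hη0.le]
    have h2 := min_le_left r 1
    calc η * ‖(1 - Complex.I : ℂ)‖ ≤ η * 2 := by gcongr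
      _ ≤ r := by linarith
  have him0 : ∀ w, 0 ≤ (f w).im := by
    intro w
    by_cases hw : w = v
    · rw [hw, hv]
      simp
    · exact (him w hw).le
  -- old edges: imaginary part
  have old : ∀ x y z, z ∈ segment ℝ (f x) (f y) → 0 ≤ z.im := fun x y z hz =>
    G2_old (him0 x) (him0 y) hz
  -- the segment from `u`
  have s0 : ∀ z, z ∈ segment ℝ (f u) ((η : ℂ) * (1 - Complex.I)) →
      0 ≤ z.re ∧ -η ≤ z.im ∧ (z.re = 0 → z.im = 1) := by
    intro z hz
    rw [hu] at hz
    exact G2_0 hη0 hz
  have s3 : ∀ z, z ∈ segment ℝ (f v) (-1 - Complex.I) → z.re ≤ 0 ∧ z.im ≤ 0 ∧ z.re = z.im := by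
    intro z hz
    rw [hv, segment_symm] at hz
    exact G2_3 hz
  -- old edges against the new edges
  have c0 : ∀ x y, G.Adj x y → x ≠ u → y ≠ u →
      Disjoint (segment ℝ (f x) (f y)) (segment ℝ (f u) ((η : ℂ) * (1 - Complex.I))) := by
    intro x y hxy hxu hyu
    by_cases hxv : x = v
    · rw [Set.disjoint_left]
      intro z hz hz'
      rw [hxv, hv] at hz
      rw [hxv] at hxy
      have h1 := G2_v (hre y hxy hyu) hz
      have h2 := s0 z hz'
      have h3 : z.re = 0 := le_antisymm h1.1 h2.1
      have h4 := h1.2 h3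
      have h5 := h2.2.2 h3
      linarith
    by_cases hyv : y = v
    · rw [Set.disjoint_left]
      intro z hz hz'
      rw [hyv, hv, segment_symm] at hz
      rw [hyv] at hxy
      have h1 := G2_v (hre x hxy.symm hxu) hz
      have h2 := s0 z hz'
      have h3 : z.re = 0 := le_antisymm h1.1 h2.1
      have h4 := h1.2 h3
      have h5 := h2.2.2 h3
      linarith
    exact (e4 x y hxy hxv hyv hxu hyu _ hηr).symm
  have c1 : ∀ x y, Disjoint (segment ℝ (f x) (f y))
      (segment ℝ ((η : ℂ) * (1 - Complex.I)) (1 - Complex.I)) := by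
    intro x y
    rw [Set.disjoint_left]
    intro z hz hz'
    have h1 := old x y z hz
    have h2 := G2_1 hη0 hz'
    linarith [h2.2]
  have c2 : ∀ x y, Disjoint (segment ℝ (f x) (f y))
      (segment ℝ (1 - Complex.I) (-1 - Complex.I)) := by
    intro x y
    rw [Set.disjoint_left]
    intro z hz hz'
    have h1 := old x y z hz
    have h2 := G2_2 hz'
    linarith
  have c3 : ∀ x y, x ≠ v → y ≠ v → Disjoint (segment ℝ (f x) (f y))
      (segment ℝ (f v) (-1 - Complex.I)) := by
    intro x y hx hy
    rw [Set.disjoint_left]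
    intro z hz hz'
    have h1 := G2_pos (him x hx) (him y hy) hz
    have h2 := s3 z hz'
    linarith [h2.2.1]
  have c02 : Disjoint (segment ℝ (f u) ((η : ℂ) * (1 - Complex.I)))
      (segment ℝ (1 - Complex.I) (-1 - Complex.I)) := by
    rw [Set.disjoint_left]
    intro z hz hz'
    have h1 := s0 z hz
    have h2 := G2_2 hz'
    linarith [h1.2.1]
  have c03 : Disjoint (segment ℝ (f u) ((η : ℂ) * (1 - Complex.I)))
      (segment ℝ (f v) (-1 - Complex.I)) := by
    rw [Set.disjoint_left]
    intro z hz hz'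
    have h1 := s0 z hz
    have h2 := s3 z hz'
    have h3 : z.re = 0 := le_antisymm h2.1 h1.1
    have h4 := h1.2.2 h3
    linarith [h2.2.2]
  have c13 : Disjoint (segment ℝ ((η : ℂ) * (1 - Complex.I)) (1 - Complex.I))
      (segment ℝ (f v) (-1 - Complex.I)) := by
    rw [Set.disjoint_left]
    intro z hz hz'
    have h1 := G2_1 hη0 hz
    have h2 := s3 z hz'
    linarith [h1.1, h2.1]
  -- the places of the new vertices
  have q0r : ((η : ℂ) * (1 - Complex.I)).re = η := by simp
  have q0i : ((η : ℂ) * (1 - Complex.I)).im = -η := by simp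
  have q1r : (1 - Complex.I : ℂ).re = 1 := by simp
  have q1i : (1 - Complex.I : ℂ).im = -1 := by simp
  have q2r : (-1 - Complex.I : ℂ).re = -1 := by simp
  have q2i : (-1 - Complex.I : ℂ).im = -1 := by simp
  have n01 : (η : ℂ) * (1 - Complex.I) ≠ 1 - Complex.I := by
    intro h
    have := congrArg Complex.im h
    rw [q0i, q1i] at this
    linarith
  have n02 : (η : ℂ) * (1 - Complex.I) ≠ -1 - Complex.I := by
    intro h
    have := congrArg Complex.im h
    rw [q0i, q2i] at this
    linarith
  have n12 : (1 - Complex.I : ℂ) ≠ -1 - Complex.I := by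
    intro h
    have := congrArg Complex.re h
    rw [q1r, q2r] at this
    linarith
  have hFim : ∀ i : Fin 3, (G2_F f η (.inr i)).im < 0 := by
    intro i
    fin_cases i
    · show ((η : ℂ) * (1 - Complex.I)).im < 0
      rw [q0i]
      linarith
    · show (1 - Complex.I : ℂ).im < 0
      rw [q1i]
      norm_num
    · show (-1 - Complex.I : ℂ).im < 0
      rw [q2i]
      norm_num
  have hold : ∀ (x y : V) (i : Fin 3), G2_F f η (.inr i) ∉ segment ℝ (f x) (f y) := by
    intro x y i hz
    have h1 := old x y _ hz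
    have h2 := hFim i
    linarith
  refine ⟨G2_F f η, η, drawing_mono (G2_le G u v huv.ne) _
    (drawing_of_rel (G2_r G u v) (G2_F f η) ?_ ?_ ?_), fun x => rfl, hη0, hη1, rfl, rfl, rfl⟩
  · -- injective
    rintro (x | i) (y | j) hxy
    · rw [hf.1 hxy]
    · exfalso
      have h1 : (f x).im = (G2_F f η (.inr j)).im := congrArg Complex.im hxy
      have h2 := hFim j
      have h3 := him0 x
      linarith
    · exfalso
      have h1 : (G2_F f η (.inr i)).im = (f y).im := congrArg Complex.im hxy
      have h2 := hFim i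
      have h3 := him0 y
      linarith
    · fin_cases i <;> fin_cases j
      · rfl
      · exact absurd hxy n01
      · exact absurd hxy n02
      · exact absurd hxy.symm n01
      · rfl
      · exact absurd hxy n12
      · exact absurd hxy.symm n02
      · exact absurd hxy.symm n12
      · rfl
  · -- vertices and edges
    rintro (x | i) (y | j) w hxy hwx hwy
    · rcases w with w | k
      · exact hf.2.1 x y w hxy (fun h => hwx (by rw [h])) (fun h => hwy (by rw [h]))
      · exact hold x y k
    · rcases hxy with ⟨rfl, rfl⟩ | ⟨rfl, rfl⟩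
      · -- `u p0`
        show G2_F f η w ∉ segment ℝ (f x) ((η : ℂ) * (1 - Complex.I))
        rcases w with w | k
        · show f w ∉ _
          have hwu : w ≠ x := fun h => hwx (by rw [h])
          by_cases hwv : w = v
          · intro hz
            have h1 := s0 _ hz
            rw [hwv, hv] at h1
            have h2 := h1.2.2 (by simp)
            simp at h2
          · exact e3 w hwv hwu _ hηr
        · fin_cases k
          · exact absurd rfl hwy
          · show (1 - Complex.I : ℂ) ∉ _
            intro hz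
            have h1 := (s0 _ hz).2.1
            rw [q1i] at h1
            linarith
          · show (-1 - Complex.I : ℂ) ∉ _
            intro hz
            have h1 := (s0 _ hz).2.1
            rw [q2i] at h1
            linarith
      · -- `v p2`
        show G2_F f η w ∉ segment ℝ (f x) (-1 - Complex.I)
        rcases w with w | k
        · show f w ∉ _
          have hwv : w ≠ x := fun h => hwx (by rw [h])
          intro hz
          have h1 := (s3 _ hz).2.1
          have h2 := him w hwv
          linarith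
        · fin_cases k
          · show ((η : ℂ) * (1 - Complex.I)) ∉ _
            intro hz
            have h1 := (s3 _ hz).1
            rw [q0r] at h1
            linarith
          · show (1 - Complex.I : ℂ) ∉ _
            intro hz
            have h1 := (s3 _ hz).1
            rw [q1r] at h1
            linarith
          · exact absurd rfl hwy
    · exact hxy.elim
    · rcases hxy with ⟨rfl, rfl⟩ | ⟨rfl, rfl⟩
      · -- `p0 p1`
        show G2_F f η w ∉ segment ℝ ((η : ℂ) * (1 - Complex.I)) (1 - Complex.I)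
        rcases w with w | k
        · show f w ∉ _
          intro hz
          have h1 := (G2_1 hη0 hz).2
          have h2 := him0 w
          linarith
        · fin_cases k
          · exact absurd rfl hwx
          · exact absurd rfl hwy
          · show (-1 - Complex.I : ℂ) ∉ _
            intro hz
            have h1 := (G2_1 hη0 hz).1
            rw [q2r] at h1
            linarith
      · -- `p1 p2`
        show G2_F f η w ∉ segment ℝ (1 - Complex.I) (-1 - Complex.I)
        rcases w with w | k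
        · show f w ∉ _
          intro hz
          have h1 := G2_2 hz
          have h2 := him0 w
          linarith
        · fin_cases k
          · show ((η : ℂ) * (1 - Complex.I)) ∉ _
            intro hz
            have h1 := G2_2 hz
            rw [q0i] at h1
            linarith
          · exact absurd rfl hwx
          · exact absurd rfl hwy
  · -- pairs of edges
    rintro (x | i) (y | j) (x' | i') (y' | j') h h' g1 g2 g3 g4
    · exact hf.2.2 x y x' y' h h' (fun h => g1 (by rw [h])) (fun h => g2 (by rw [h]))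
        (fun h => g3 (by rw [h])) (fun h => g4 (by rw [h]))
    · rcases h' with ⟨rfl, rfl⟩ | ⟨rfl, rfl⟩
      · exact c0 x y h (fun h => g1 (by rw [h])) (fun h => g3 (by rw [h]))
      · exact c3 x y (fun h => g1 (by rw [h])) (fun h => g3 (by rw [h]))
    · exact h'.elim
    · rcases h' with ⟨rfl, rfl⟩ | ⟨rfl, rfl⟩
      · exact c1 x y
      · exact c2 x y
    · rcases h with ⟨rfl, rfl⟩ | ⟨rfl, rfl⟩
      · exact (c0 x' y' h' (fun h => g1 (by rw [h])) (fun h => g2 (by rw [h]))).symm
      · exact (c3 x' y' (fun h => g1 (by rw [h])) (fun h => g2 (by rw [h]))).symm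
    · rcases h with ⟨rfl, rfl⟩ | ⟨rfl, rfl⟩ <;> rcases h' with ⟨rfl, rfl⟩ | ⟨rfl, rfl⟩
      · exact absurd rfl g1
      · exact c03
      · exact c03.symm
      · exact absurd rfl g1
    · exact h'.elim
    · rcases h with ⟨rfl, rfl⟩ | ⟨rfl, rfl⟩ <;> rcases h' with ⟨rfl, rfl⟩ | ⟨rfl, rfl⟩
      · exact absurd rfl g3
      · exact c02
      · exact c13.symm
      · exact absurd rfl g4
    · exact h.elim
    · exact h.elim
    · exact h.elim
    · exact h.elim
    · rcases h with ⟨rfl, rfl⟩ | ⟨rfl, rfl⟩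
      · exact (c1 x' y').symm
      · exact (c2 x' y').symm
    · rcases h with ⟨rfl, rfl⟩ | ⟨rfl, rfl⟩ <;> rcases h' with ⟨rfl, rfl⟩ | ⟨rfl, rfl⟩
      · exact absurd rfl g2
      · exact c13
      · exact c02.symm
      · exact absurd rfl g4
    · exact h'.elim
    · rcases h with ⟨rfl, rfl⟩ | ⟨rfl, rfl⟩ <;> rcases h' with ⟨rfl, rfl⟩ | ⟨rfl, rfl⟩
      · exact absurd rfl g1
      · exact absurd rfl g3
      · exact absurd rfl g2
      · exact absurd rfl g1

end Pool.Agent.TH48
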