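import Pool.Agent.TH48.P0

/-!
# G3 (MEDIUM): normal position at a lowest vertex
Invertible real-linear maps and translations keep drawings (`drawing_image` with `S = univ`). (1) Let `v` be the vertex with the least `(im, re)`, lexicographically; subtract `f v`: for `w ≠ v`
`im > 0`, or `im = 0` and `re > 0`. The map `x + I y ↦ x + I (y + δ x)` with small `δ > 0` gives `im > 0` for all `w ≠ v` (finitely many). (2) If `v` has neighbours let `u` be one with the
largest `re / im = ρ`; the map `x + I y ↦ ((x - ρ y) + I y) / im u` gives `u ↦ I` and `re ≤ 0` for the other neighbours `w`; if `re = 0` then `v`, `u`, `w` are on one ray from `v`, and `f w` is on the segment of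
`v u` or `f u` on the segment of `v w`, against `Drawing`.
-/

set_option autoImplicit false

namespace Pool.Agent.TH48

open Pool.Agent.TC47

private theorem G3_lin {V : Type} (G : SimpleGraph V) (f : V → ℂ) (hf : Drawing G f)
    (a b c d : ℝ) (hdet : a * d - b * c ≠ 0) (P : ℂ) :
    Drawing G (fun v => (⟨a * ((f v).re - P.re) + b * ((f v).im - P.im),
      c * ((f v).re - P.re) + d * ((f v).im - P.im)⟩ : ℂ)) := by
  refine drawing_image G f hf Set.univ convex_univ (fun _ => Set.mem_univ _)
    (fun z : ℂ => (⟨a * (z.re - P.re) + b * (z.im - P.im),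
      c * (z.re - P.re) + d * (z.im - P.im)⟩ : ℂ)) ?_ ?_
  · intro z _ w _ hzw
    have h1 : a * (z.re - P.re) + b * (z.im - P.im) = a * (w.re - P.re) + b * (w.im - P.im) :=
      congrArg Complex.re hzw
    have h2 : c * (z.re - P.re) + d * (z.im - P.im) = c * (w.re - P.re) + d * (w.im - P.im) :=
      congrArg Complex.im hzw
    have h3 : (a * d - b * c) * (z.re - w.re) = 0 := by
      linear_combination d * h1 - b * h2
    have h4 : (a * d - b * c) * (z.im - w.im) = 0 := by
      linear_combination a * h2 - c * h1
    have h5 := (mul_eq_zero.mp h3).resolve_left hdet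
    have h6 := (mul_eq_zero.mp h4).resolve_left hdet
    exact Complex.ext (by linarith) (by linarith)
  · rintro p - q - z ⟨s, t, hs, ht, hst, rfl⟩
    refine ⟨s • p + t • q, ⟨s, t, hs, ht, hst, rfl⟩, ?_⟩
    apply Complex.ext
    · simp only [Complex.add_re, Complex.add_im, Complex.smul_re, Complex.smul_im, smul_eq_mul]
      linear_combination (a * P.re + b * P.im) * hst
    · simp only [Complex.add_re, Complex.add_im, Complex.smul_re, Complex.smul_im, smul_eq_mul]
      linear_combination (c * P.re + d * P.im) * hst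

private theorem G3_notpos {V : Type} (G : SimpleGraph V) (f : V → ℂ) (hf : Drawing G f)
    (A v w : V) (hv : G.Adj A v) (hw : G.Adj A w) (hne : v ≠ w) (c : ℝ) (hc : 0 < c) :
    f w - f A ≠ (c : ℂ) * (f v - f A) := by
  have key : ∀ (x y : V), G.Adj A x → G.Adj A y → x ≠ y → ∀ d : ℝ, 0 < d → d ≤ 1 →
      f y - f A ≠ (d : ℂ) * (f x - f A) := by
    intro x y hx hy hxy d hd hd1 h
    refine hf.2.1 A x y hx hy.ne' hxy.symm ?_
    refine ⟨1 - d, d, by linarith, hd.le, by ring, ?_⟩
    have h1 : f y = f A + (d : ℂ) * (f x - f A) := by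
      rw [← h]
      ring
    rw [h1, Complex.real_smul, Complex.real_smul]
    push_cast
    ring
  rcases le_or_gt c 1 with h1 | h1
  · exact key v w hv hw hne c hc h1
  · intro h
    refine key w v hw hv hne.symm c⁻¹ (inv_pos.mpr hc) (inv_le_one_of_one_le₀ h1.le) ?_
    rw [h, Complex.ofReal_inv, ← mul_assoc, inv_mul_cancel₀ (Complex.ofReal_ne_zero.mpr hc.ne'),
      one_mul]

theorem normal_position {V : Type} [Finite V] [Nonempty V] (G : SimpleGraph V) (f : V → ℂ)
    (hf : Drawing G f) :
    ∃ (v : V) (g : V → ℂ), Drawing G g ∧ g v = 0 ∧ (∀ w, w ≠ v → 0 < (g w).im) ∧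
      ((∀ w, ¬ G.Adj v w) ∨ ∃ u, G.Adj v u ∧ g u = Complex.I ∧
        ∀ w, G.Adj v w → w ≠ u → (g w).re < 0) := by
  classical
  obtain ⟨v, hv⟩ := Finite.exists_min (fun w : V => toLex ((f w).im, (f w).re))
  have hlex : ∀ w, w ≠ v → (f v).im < (f w).im ∨ ((f w).im = (f v).im ∧ (f v).re < (f w).re) := by
    intro w hw
    have h1 := hv w
    rw [Prod.Lex.toLex_le_toLex] at h1
    rcases h1 with h1 | ⟨h1, h2⟩
    · exact Or.inl h1
    · have h1' : (f v).im = (f w).im := h1
      have h2' : (f v).re ≤ (f w).re := h2
      rcases lt_or_eq_of_le h2' with h3 | h3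
      · exact Or.inr ⟨h1'.symm, h3⟩
      · exact absurd (hf.1 (Complex.ext h3 h1')).symm hw
  have hev : ∀ᶠ δ : ℝ in nhdsWithin 0 (Set.Ioi 0), ∀ w : V, w ≠ v →
      0 < ((f w).im - (f v).im) + δ * ((f w).re - (f v).re) := by
    refine Filter.eventually_all.mpr ?_
    intro w
    by_cases hw : w = v
    · exact Filter.Eventually.of_forall (fun δ h => absurd hw h)
    · rcases hlex w hw with h1 | ⟨h1, h2⟩
      · have hc : Filter.Tendsto (fun δ : ℝ => ((f w).im - (f v).im) + δ * ((f w).re - (f v).re))
            (nhdsWithin 0 (Set.Ioi 0)) (nhds (((f w).im - (f v).im) + 0 * ((f w).re - (f v).re))) :=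
          ((continuous_const.add (continuous_id.mul continuous_const)).tendsto 0).mono_left
            nhdsWithin_le_nhds
        have h3 : 0 < ((f w).im - (f v).im) + 0 * ((f w).re - (f v).re) := by linarith
        filter_upwards [hc.eventually (lt_mem_nhds h3)] with δ hδ _ using hδ
      · filter_upwards [self_mem_nhdsWithin] with δ hδ _
        have hδ' : 0 < δ := hδ
        have h4 : 0 < δ * ((f w).re - (f v).re) := mul_pos hδ' (by linarith)
        linarith
  obtain ⟨δ, hδ⟩ := hev.exists
  by_cases hN : ∀ w, ¬ G.Adj v w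
  · refine ⟨v, _, G3_lin G f hf 1 0 δ 1 (by norm_num) (f v), ?_, ?_, Or.inl hN⟩
    · apply Complex.ext <;> simp
    · intro w hw
      have h1 := hδ w hw
      show 0 < δ * ((f w).re - (f v).re) + 1 * ((f w).im - (f v).im)
      linarith
  · push Not at hN
    obtain ⟨u0, hu0⟩ := hN
    obtain ⟨u, hu, humax⟩ := Set.exists_max_image {w | G.Adj v w}
      (fun w => ((f w).re - (f v).re) / (((f w).im - (f v).im) + δ * ((f w).re - (f v).re)))
      (Set.toFinite _) ⟨u0, hu0⟩
    have huA : G.Adj v u := hu
    have hyu : 0 < ((f u).im - (f v).im) + δ * ((f u).re - (f v).re) := hδ u huA.ne'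
    set yu : ℝ := ((f u).im - (f v).im) + δ * ((f u).re - (f v).re) with hyudef
    set ρ : ℝ := ((f u).re - (f v).re) / yu with hρdef
    have hxu : (f u).re - (f v).re = ρ * yu := by
      rw [hρdef]; field_simp
    have hdet : ((1 - ρ * δ) / yu) * (1 / yu) - (-ρ / yu) * (δ / yu) ≠ 0 := by
      have h1 : ((1 - ρ * δ) / yu) * (1 / yu) - (-ρ / yu) * (δ / yu) = 1 / yu ^ 2 := by
        field_simp
        ring
      rw [h1]
      positivity
    refine ⟨v, _, G3_lin G f hf ((1 - ρ * δ) / yu) (-ρ / yu) (δ / yu) (1 / yu) hdet (f v), ?_, ?_,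
      Or.inr ⟨u, huA, ?_, ?_⟩⟩
    · apply Complex.ext <;> simp
    · intro w hw
      have h1 := hδ w hw
      show 0 < δ / yu * ((f w).re - (f v).re) + 1 / yu * ((f w).im - (f v).im)
      have h2 : δ / yu * ((f w).re - (f v).re) + 1 / yu * ((f w).im - (f v).im)
          = (((f w).im - (f v).im) + δ * ((f w).re - (f v).re)) / yu := by
        field_simp
        ring
      rw [h2]
      exact div_pos h1 hyu
    · apply Complex.ext
      · show (1 - ρ * δ) / yu * ((f u).re - (f v).re) + -ρ / yu * ((f u).im - (f v).im) = 0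
        have h2 : (1 - ρ * δ) / yu * ((f u).re - (f v).re) + -ρ / yu * ((f u).im - (f v).im)
            = (((f u).re - (f v).re) - ρ * (((f u).im - (f v).im) + δ * ((f u).re - (f v).re)))
              / yu := by
          field_simp
          ring
        rw [h2, ← hyudef, hxu]
        simp
      · show δ / yu * ((f u).re - (f v).re) + 1 / yu * ((f u).im - (f v).im) = 1
        have h2 : δ / yu * ((f u).re - (f v).re) + 1 / yu * ((f u).im - (f v).im)
            = (((f u).im - (f v).im) + δ * ((f u).re - (f v).re)) / yu := by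
          field_simp
          ring
        rw [h2, ← hyudef]
        exact div_self hyu.ne'
    · intro w hwA hwu
      have hyw : 0 < ((f w).im - (f v).im) + δ * ((f w).re - (f v).re) := hδ w hwA.ne'
      have hmax : ((f w).re - (f v).re) / (((f w).im - (f v).im) + δ * ((f w).re - (f v).re)) ≤ ρ :=
        humax w hwA
      rw [div_le_iff₀ hyw] at hmax
      show (1 - ρ * δ) / yu * ((f w).re - (f v).re) + -ρ / yu * ((f w).im - (f v).im) < 0
      have h2 : (1 - ρ * δ) / yu * ((f w).re - (f v).re) + -ρ / yu * ((f w).im - (f v).im)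
          = (((f w).re - (f v).re) - ρ * (((f w).im - (f v).im) + δ * ((f w).re - (f v).re)))
            / yu := by
        field_simp
        ring
      rw [h2]
      refine div_neg_of_neg_of_pos ?_ hyu
      rcases lt_or_eq_of_le hmax with h3 | h3
      · linarith
      · exfalso
        have hc : 0 < (((f w).im - (f v).im) + δ * ((f w).re - (f v).re)) / yu := div_pos hyw hyu
        refine G3_notpos G f hf v u w huA hwA (Ne.symm hwu) _ hc ?_
        set yw : ℝ := ((f w).im - (f v).im) + δ * ((f w).re - (f v).re) with hywdef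
        have e1 : yw / yu * yu = yw := by field_simp
        apply Complex.ext
        · rw [Complex.sub_re, Complex.re_ofReal_mul, Complex.sub_re, h3, hxu]
          linear_combination (-ρ) * e1
        · rw [Complex.sub_im, Complex.im_ofReal_mul, Complex.sub_im]
          have e2 : (f w).im - (f v).im = yw - δ * (ρ * yw) := by
            rw [← h3, hywdef]; ring
          have e3 : (f u).im - (f v).im = yu - δ * (ρ * yu) := by
            rw [← hxu, hyudef]; ring
          rw [e2, e3]
          linear_combination (-(1 - δ * ρ)) * e1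

end Pool.Agent.TH48
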