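import Pool.Agent.TH48.Defs3

/-!
# G4 (MEDIUM): the chromatic polynomial of a glued graph
A colouring of `glueG K u v huv N` is a colouring `c` of `K` and a function `d : J → Fin k` with the condition of `N` for the colours `c u`, `c v` at the terminals: the number is
`∑ c, cnt N k (c u) (c v)`, i.e. `#{c | c u = c v} * A(k) + #{c | c u ≠ c v} * B(k)`. The colourings of `K ⊔ edge u v` are those of `K` with `c u ≠ c v`, so the numbers
are `Q(k) - P(k)` and `P(k)`. Compare `C1`, `C5` (`TH48_C1.lean`, `TH48_C5.lean` in team-store, finished).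
-/

set_option autoImplicit false

namespace Pool.Agent.TH48

open Pool.Agent.TC47 Polynomial

private theorem G4_col {V J : Type} {k : ℕ} (u v : V) (huv : u ≠ v) (g : V ⊕ J → Fin k)
    (p : J ⊕ Bool) :
    col (fun j => g (.inr j)) (g (.inl u)) (g (.inl v)) p = g (eG u v huv p) := by
  rcases p with j | (_ | _) <;> rfl

private theorem G4_edge {V : Type} (K : SimpleGraph V) (u v : V) (huv : u ≠ v) (k : ℕ) :
    Nat.card ((K ⊔ SimpleGraph.edge u v).Coloring (Fin k)) =
      Nat.card {c : K.Coloring (Fin k) // c u ≠ c v} :=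
  Nat.card_congr
    { toFun := fun c => ⟨SimpleGraph.Coloring.mk (fun x => c x)
        (fun {a b} hab => c.valid (Or.inl hab)), c.valid (by
          rw [SimpleGraph.sup_adj, SimpleGraph.edge_adj]
          exact Or.inr ⟨Or.inl ⟨rfl, rfl⟩, huv⟩)⟩
      invFun := fun c => SimpleGraph.Coloring.mk (fun x => c.1 x) (by
        intro a b hab
        rw [SimpleGraph.sup_adj, SimpleGraph.edge_adj] at hab
        rcases hab with hab | ⟨⟨rfl, rfl⟩ | ⟨rfl, rfl⟩, -⟩
        · exact c.1.valid hab
        · exact c.2
        · exact c.2.symm)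
      left_inv := fun _ => rfl
      right_inv := fun _ => rfl }

private theorem G4_card {V J : Type} [Fintype V] [Fintype J] (K : SimpleGraph V) (u v : V)
    (huv : u ≠ v) (N : SimpleGraph (J ⊕ Bool)) (k : ℕ) [Fintype (K.Coloring (Fin k))] :
    Nat.card ((glueG K u v huv N).Coloring (Fin k)) =
      ∑ c : K.Coloring (Fin k), cnt N k (c u) (c v) := by
  have h : Nat.card (Σ c : K.Coloring (Fin k), {d : J → Fin k //
      ∀ p q, N.Adj p q → col d (c u) (c v) p ≠ col d (c u) (c v) q}) =
      ∑ c : K.Coloring (Fin k), cnt N k (c u) (c v) := Nat.card_sigma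
  rw [← h]
  exact Nat.card_congr
    { toFun := fun c => ⟨SimpleGraph.Coloring.mk (fun x => c (.inl x)) (by
          intro a b hab
          refine c.valid ?_
          rw [glueG, SimpleGraph.sup_adj, SimpleGraph.map_adj]
          exact Or.inl ⟨a, b, hab, rfl, rfl⟩),
        ⟨fun j => c (.inr j), by
          intro p q hpq
          change col (fun j => c (.inr j)) (c (.inl u)) (c (.inl v)) p ≠
            col (fun j => c (.inr j)) (c (.inl u)) (c (.inl v)) q
          rw [G4_col u v huv (fun x => c x), G4_col u v huv (fun x => c x)]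
          refine c.valid ?_
          rw [glueG, SimpleGraph.sup_adj, SimpleGraph.map_adj, SimpleGraph.map_adj]
          exact Or.inr ⟨p, q, hpq, rfl, rfl⟩⟩⟩
      invFun := fun s => SimpleGraph.Coloring.mk (Sum.elim (fun x => s.1 x) s.2.1) (by
        intro a b hab
        rw [glueG, SimpleGraph.sup_adj, SimpleGraph.map_adj, SimpleGraph.map_adj] at hab
        rcases hab with ⟨p, q, hpq, rfl, rfl⟩ | ⟨p, q, hpq, rfl, rfl⟩
        · exact s.1.valid hpq
        · have h1 := s.2.2 p q hpq
          have h2 := G4_col u v huv (Sum.elim (fun x => s.1 x) s.2.1) p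
          have h3 := G4_col u v huv (Sum.elim (fun x => s.1 x) s.2.1) q
          rw [← h2, ← h3]
          exact h1)
      left_inv := by
        intro c
        ext x
        rcases x with x | x <;> rfl
      right_inv := by
        rintro ⟨c, ⟨d, hd⟩⟩
        rfl }

theorem glue_poly {V J : Type} [Fintype V] [Fintype J] (K : SimpleGraph V) (u v : V)
    (huv : u ≠ v) (N : SimpleGraph (J ⊕ Bool)) (A B : ℂ[X]) (hN : Counts N A B) (P Q : ℂ[X])
    (hP : Ch3.IsChromaticPoly (K ⊔ SimpleGraph.edge u v) P) (hQ : Ch3.IsChromaticPoly K Q) :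
    Ch3.IsChromaticPoly (glueG K u v huv N) ((Q - P) * A + P * B) := by
  classical
  intro k
  have hfin : Finite (K.Coloring (Fin k)) :=
    Finite.of_injective (fun c : K.Coloring (Fin k) => fun x => c x) fun c d hcd =>
      DFunLike.coe_injective hcd
  have hft : Fintype (K.Coloring (Fin k)) := Fintype.ofFinite _
  rw [G4_card K u v huv N k, Nat.cast_sum]
  have h1 : ∀ c : K.Coloring (Fin k), ((cnt N k (c u) (c v) : ℕ) : ℂ) =
      A.eval (k : ℂ) + (if c u ≠ c v then 1 else 0) * (B.eval (k : ℂ) - A.eval (k : ℂ)) := by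
    intro c
    rw [hN k (c u) (c v)]
    by_cases hc : c u = c v
    · rw [if_pos hc, if_neg (fun h => h hc)]
      ring
    · rw [if_neg hc, if_pos hc]
      ring
  rw [Finset.sum_congr rfl fun c _ => h1 c, Finset.sum_add_distrib, ← Finset.sum_mul,
    Finset.sum_boole, Finset.sum_const, Finset.card_univ, nsmul_eq_mul]
  have hPk := hP k
  rw [G4_edge K u v huv k, Nat.card_eq_fintype_card, Fintype.card_subtype] at hPk
  have hQk := hQ k
  rw [Nat.card_eq_fintype_card] at hQk
  rw [← hPk, ← hQk, Polynomial.eval_add, Polynomial.eval_mul, Polynomial.eval_mul,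
    Polynomial.eval_sub]
  ring

end Pool.Agent.TH48
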