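import Pool.Agent.TH48.Defs3

/-!
# G5 (MEDIUM): counts of the two small networks
Functions `c : Fin 3 → Fin k` are triples. `P4`: `x ≠ c 0 ≠ c 1 ≠ c 2 ≠ y`: sum over `c 2`, `c 1`, `c 0` one after another (or three times `C2`, finished). `(PP 3).1 = (X - 1) (X ^ 2 - 3 X + 3)`,
`(PP 3).2 = (X - 2) (X ^ 2 - 2 X + 2)`. `P4c`: `x ≠ c 0 ≠ c 1`, `c 2 ≠ y`: `(k - 1) ^ 3`.
-/

set_option autoImplicit false

namespace Pool.Agent.TH48

open Pool.Agent.TC47 Polynomial

private theorem G5_card {k : ℕ} (P : Fin k → Fin k → Fin k → Prop)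
    [∀ a b c, Decidable (P a b c)] :
    Nat.card {c : Fin 3 → Fin k // P (c 0) (c 1) (c 2)} =
      ∑ a, ∑ b, ∑ c, if P a b c then 1 else 0 := by
  have e : {c : Fin 3 → Fin k // P (c 0) (c 1) (c 2)} ≃
      {t : Fin k × Fin k × Fin k // P t.1 t.2.1 t.2.2} :=
    { toFun := fun c => ⟨(c.1 0, c.1 1, c.1 2), c.2⟩
      invFun := fun t => ⟨![t.1.1, t.1.2.1, t.1.2.2], t.2⟩
      left_inv := by
        rintro ⟨c, hc⟩
        apply Subtype.ext
        funext i
        fin_cases i <;> rfl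
      right_inv := by
        rintro ⟨⟨a, b, c⟩, h⟩
        rfl }
  rw [Nat.card_congr e, Nat.card_eq_fintype_card, Fintype.card_subtype, Finset.card_filter,
    Fintype.sum_prod_type]
  refine Finset.sum_congr rfl fun a _ => ?_
  rw [Fintype.sum_prod_type]

private theorem G5_two {k : ℕ} (b y : Fin k) :
    ∑ c : Fin k, (if b ≠ c ∧ c ≠ y then (1 : ℂ) else 0) = (k : ℂ) - 2 + if b = y then 1 else 0 := by
  have h : ∀ c : Fin k, (if b ≠ c ∧ c ≠ y then (1 : ℂ) else 0) =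
      1 - (if b = c then 1 else 0) - (if c = y then 1 else 0) +
        (if b = c then (if c = y then 1 else 0) else 0) := by
    intro c
    by_cases h1 : b = c <;> by_cases h2 : c = y <;> simp [h1, h2]
  rw [Finset.sum_congr rfl fun c _ => h c, Finset.sum_add_distrib, Finset.sum_sub_distrib,
    Finset.sum_sub_distrib, Finset.sum_ite_eq, Finset.sum_ite_eq, Finset.sum_ite_eq']
  simp only [Finset.mem_univ, if_true, Finset.sum_const, Finset.card_univ, Fintype.card_fin,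
    nsmul_eq_mul, mul_one]
  ring

private theorem G5_one {k : ℕ} (y : Fin k) :
    ∑ c : Fin k, (if c ≠ y then (1 : ℂ) else 0) = (k : ℂ) - 1 := by
  have h : ∀ c : Fin k, (if c ≠ y then (1 : ℂ) else 0) = 1 - (if c = y then 1 else 0) := by
    intro c
    by_cases h2 : c = y <;> simp [h2]
  rw [Finset.sum_congr rfl fun c _ => h c, Finset.sum_sub_distrib, Finset.sum_ite_eq']
  simp only [Finset.mem_univ, if_true, Finset.sum_const, Finset.card_univ, Fintype.card_fin,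
    nsmul_eq_mul, mul_one]

private theorem G5_one' {k : ℕ} (y : Fin k) :
    ∑ c : Fin k, (if y ≠ c then (1 : ℂ) else 0) = (k : ℂ) - 1 := by
  rw [← G5_one y]
  refine Finset.sum_congr rfl fun c _ => ?_
  by_cases h : c = y
  · simp [h]
  · rw [if_pos h, if_pos fun h' => h h'.symm]

private theorem G5_P4 {k : ℕ} (c : Fin 3 → Fin k) (x y : Fin k) :
    (∀ p q, P4.Adj p q → col c x y p ≠ col c x y q) ↔
      (x ≠ c 0 ∧ c 0 ≠ c 1) ∧ (c 1 ≠ c 2 ∧ c 2 ≠ y) := by
  constructor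
  · intro h
    refine ⟨⟨?_, ?_⟩, ?_, ?_⟩
    · exact h (.inr false) (.inl 0) (by unfold P4; rw [SimpleGraph.fromRel_adj]; simp)
    · exact h (.inl 0) (.inl 1) (by unfold P4; rw [SimpleGraph.fromRel_adj]; simp)
    · exact h (.inl 1) (.inl 2) (by unfold P4; rw [SimpleGraph.fromRel_adj]; simp)
    · exact h (.inl 2) (.inr true) (by unfold P4; rw [SimpleGraph.fromRel_adj]; simp)
  · rintro ⟨⟨h1, h2⟩, h3, h4⟩ p q hpq
    unfold P4 at hpq
    rw [SimpleGraph.fromRel_adj] at hpq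
    rcases hpq with ⟨-, (⟨rfl, rfl⟩ | ⟨rfl, rfl⟩ | ⟨rfl, rfl⟩ | ⟨rfl, rfl⟩) |
      (⟨rfl, rfl⟩ | ⟨rfl, rfl⟩ | ⟨rfl, rfl⟩ | ⟨rfl, rfl⟩)⟩
    exacts [h1, h2, h3, h4, h1.symm, h2.symm, h3.symm, h4.symm]

private theorem G5_P4c {k : ℕ} (c : Fin 3 → Fin k) (x y : Fin k) :
    (∀ p q, P4c.Adj p q → col c x y p ≠ col c x y q) ↔
      (x ≠ c 0 ∧ c 0 ≠ c 1) ∧ c 2 ≠ y := by
  constructor
  · intro h
    refine ⟨⟨?_, ?_⟩, ?_⟩
    · exact h (.inr false) (.inl 0) (by unfold P4c; rw [SimpleGraph.fromRel_adj]; simp)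
    · exact h (.inl 0) (.inl 1) (by unfold P4c; rw [SimpleGraph.fromRel_adj]; simp)
    · exact h (.inl 2) (.inr true) (by unfold P4c; rw [SimpleGraph.fromRel_adj]; simp)
  · rintro ⟨⟨h1, h2⟩, h4⟩ p q hpq
    unfold P4c at hpq
    rw [SimpleGraph.fromRel_adj] at hpq
    rcases hpq with ⟨-, (⟨rfl, rfl⟩ | ⟨rfl, rfl⟩ | ⟨rfl, rfl⟩) |
      (⟨rfl, rfl⟩ | ⟨rfl, rfl⟩ | ⟨rfl, rfl⟩)⟩
    exacts [h1, h2, h4, h1.symm, h2.symm, h4.symm]

theorem counts_P4 : Counts P4 (PP 3).1 (PP 3).2 := by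
  intro k x y
  have h1 : cnt P4 k x y = ∑ a, ∑ b, ∑ c : Fin k,
      if (x ≠ a ∧ a ≠ b) ∧ (b ≠ c ∧ c ≠ y) then 1 else 0 := by
    rw [← G5_card fun a b c => (x ≠ a ∧ a ≠ b) ∧ (b ≠ c ∧ c ≠ y)]
    unfold cnt
    exact Nat.card_congr (Equiv.subtypeEquivRight fun c => G5_P4 c x y)
  have h2 : (cnt P4 k x y : ℂ) = ∑ b : Fin k, ((k : ℂ) - 2 + if x = b then 1 else 0) *
      ((k : ℂ) - 2 + if b = y then 1 else 0) := by
    rw [h1]
    push_cast
    rw [Finset.sum_comm]
    refine Finset.sum_congr rfl fun b _ => ?_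
    rw [← G5_two x b, ← G5_two b y, Finset.sum_mul]
    refine Finset.sum_congr rfl fun a _ => ?_
    rw [Finset.mul_sum]
    refine Finset.sum_congr rfl fun c _ => ?_
    by_cases h3 : x ≠ a ∧ a ≠ b <;> by_cases h4 : b ≠ c ∧ c ≠ y <;> simp [h3, h4]
  have h3 : (cnt P4 k x y : ℂ) = (k : ℂ) * (k - 2) ^ 2 + 2 * (k - 2) + if x = y then 1 else 0 := by
    rw [h2]
    have h4 : ∀ b : Fin k, ((k : ℂ) - 2 + if x = b then 1 else 0) *
        ((k : ℂ) - 2 + if b = y then 1 else 0) = ((k : ℂ) - 2) ^ 2 +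
          (if x = b then ((k : ℂ) - 2) else 0) + (if b = y then ((k : ℂ) - 2) else 0) +
          (if x = b then (if b = y then 1 else 0) else 0) := by
      intro b
      by_cases h5 : x = b
      · by_cases h6 : b = y
        · simp only [if_pos h5, if_pos h6]
          ring
        · simp only [if_pos h5, if_neg h6]
          ring
      · by_cases h6 : b = y
        · simp only [if_neg h5, if_pos h6]
          ring
        · simp only [if_neg h5, if_neg h6]
          ring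
    rw [Finset.sum_congr rfl fun b _ => h4 b, Finset.sum_add_distrib, Finset.sum_add_distrib,
      Finset.sum_add_distrib, Finset.sum_ite_eq, Finset.sum_ite_eq, Finset.sum_ite_eq']
    simp only [Finset.mem_univ, if_true, Finset.sum_const, Finset.card_univ, Fintype.card_fin,
      nsmul_eq_mul]
    by_cases h7 : x = y
    · simp only [h7, if_true]
      ring
    · simp only [h7, if_false]
      ring
  rw [h3]
  by_cases h : x = y
  · rw [if_pos h, if_pos h]
    simp only [PP, eval_mul, eval_add, eval_sub, eval_X, eval_one, eval_ofNat, Polynomial.eval_zero]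
    ring
  · rw [if_neg h, if_neg h]
    simp only [PP, eval_mul, eval_add, eval_sub, eval_X, eval_one, eval_ofNat, Polynomial.eval_zero]
    ring

theorem counts_P4c : Counts P4c ((X - 1) ^ 3) ((X - 1) ^ 3) := by
  intro k x y
  have h1 : cnt P4c k x y = ∑ a, ∑ b, ∑ c : Fin k,
      if (x ≠ a ∧ a ≠ b) ∧ c ≠ y then 1 else 0 := by
    rw [← G5_card fun a b c => (x ≠ a ∧ a ≠ b) ∧ c ≠ y]
    unfold cnt
    exact Nat.card_congr (Equiv.subtypeEquivRight fun c => G5_P4c c x y)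
  have h2 : (cnt P4c k x y : ℂ) = ((k : ℂ) - 1) ^ 3 := by
    rw [h1]
    push_cast
    have h3 : ∀ a b : Fin k, (∑ c : Fin k, if (x ≠ a ∧ a ≠ b) ∧ c ≠ y then (1 : ℂ) else 0) =
        (if x ≠ a then 1 else 0) * ((if a ≠ b then 1 else 0) * ((k : ℂ) - 1)) := by
      intro a b
      rw [← G5_one y, Finset.mul_sum, Finset.mul_sum]
      refine Finset.sum_congr rfl fun c _ => ?_
      by_cases h4 : x = a <;> by_cases h5 : a = b <;> by_cases h6 : c = y <;> simp [h4, h5, h6]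
    rw [Finset.sum_congr rfl fun a _ => Finset.sum_congr rfl fun b _ => h3 a b]
    have h4 : ∀ a : Fin k, (∑ b : Fin k, (if x ≠ a then (1 : ℂ) else 0) *
        ((if a ≠ b then 1 else 0) * ((k : ℂ) - 1))) =
        (if x ≠ a then (1 : ℂ) else 0) * ((k : ℂ) - 1) ^ 2 := by
      intro a
      rw [← Finset.mul_sum, ← Finset.sum_mul, G5_one']
      ring
    rw [Finset.sum_congr rfl fun a _ => h4 a, ← Finset.sum_mul, G5_one']
    ring
  rw [h2, ite_self]
  simp only [eval_pow, eval_sub, eval_X, eval_one]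

end Pool.Agent.TH48
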