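import Pool.Agent.TH48.Defs3

/-!
# G6 (SHORT): identities between graphs
`SimpleGraph.ext`, `SimpleGraph.map_adj`, `SimpleGraph.deleteEdges_adj`, `SimpleGraph.fromRel_adj`, cases. `P4` has no edge between its terminals; the edge `s(inl (inr 2), inl (inr 1))` is
the image of the edge from `1` to `2` of `P4` only.
-/

set_option autoImplicit false

namespace Pool.Agent.TH48

open Pool.Agent.TC47

theorem sup_edge_self {V : Type} (K : SimpleGraph V) (u v : V) (h : K.Adj u v) :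
    K ⊔ SimpleGraph.edge u v = K := by
  ext a b
  rw [SimpleGraph.sup_adj, SimpleGraph.edge_adj]
  constructor
  · rintro (h1 | ⟨⟨rfl, rfl⟩ | ⟨rfl, rfl⟩, _⟩)
    · exact h1
    · exact h
    · exact h.symm
  · intro h1
    exact Or.inl h1

theorem delete_sup_edge {V : Type} (K : SimpleGraph V) (u v : V) (h : K.Adj u v) :
    K.deleteEdges {s(u, v)} ⊔ SimpleGraph.edge u v = K := by
  ext a b
  rw [SimpleGraph.sup_adj, SimpleGraph.edge_adj, SimpleGraph.deleteEdges_adj]
  constructor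
  · rintro (h1 | ⟨⟨rfl, rfl⟩ | ⟨rfl, rfl⟩, _⟩)
    · exact h1.1
    · exact h
    · exact h.symm
  · intro h1
    by_cases h2 : s(a, b) = s(u, v)
    · right
      rw [Sym2.eq_iff] at h2
      refine ⟨?_, h1.ne⟩
      rcases h2 with ⟨h3, h4⟩ | ⟨h3, h4⟩
      · exact Or.inl ⟨h3, h4⟩
      · exact Or.inr ⟨h3, h4⟩
    · exact Or.inl ⟨h1, h2⟩

private theorem G6_ll {V J : Type} (K : SimpleGraph V) (u v : V) (huv : u ≠ v)
    (N : SimpleGraph (J ⊕ Bool)) (a b : V) :
    (glueG K u v huv N).Adj (.inl a) (.inl b) ↔ K.Adj a b ∨ (N.Adj (.inr false) (.inr true) ∧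
      ((a = u ∧ b = v) ∨ (a = v ∧ b = u))) := by
  rw [glueG, SimpleGraph.sup_adj, SimpleGraph.map_adj, SimpleGraph.map_adj]
  constructor
  · rintro (⟨p, q, h, h1, h2⟩ | ⟨p, q, h, h1, h2⟩)
    · left
      rw [← Sum.inl.inj h1, ← Sum.inl.inj h2]
      exact h
    · right
      rcases p with i | (p | p) <;> rcases q with j | (q | q)
      · exact absurd h1 (by simp [eG])
      · exact absurd h1 (by simp [eG])
      · exact absurd h1 (by simp [eG])
      · exact absurd h2 (by simp [eG])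
      · exact absurd h (SimpleGraph.irrefl _)
      · exact ⟨h, Or.inl ⟨(Sum.inl.inj h1).symm, (Sum.inl.inj h2).symm⟩⟩
      · exact absurd h2 (by simp [eG])
      · exact ⟨h.symm, Or.inr ⟨(Sum.inl.inj h1).symm, (Sum.inl.inj h2).symm⟩⟩
      · exact absurd h (SimpleGraph.irrefl _)
  · rintro (h | ⟨h, ⟨rfl, rfl⟩ | ⟨rfl, rfl⟩⟩)
    · exact Or.inl ⟨a, b, h, rfl, rfl⟩
    · exact Or.inr ⟨_, _, h, rfl, rfl⟩
    · exact Or.inr ⟨_, _, h.symm, rfl, rfl⟩

private theorem G6_lr {V J : Type} (K : SimpleGraph V) (u v : V) (huv : u ≠ v)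
    (N : SimpleGraph (J ⊕ Bool)) (a : V) (j : J) :
    (glueG K u v huv N).Adj (.inl a) (.inr j) ↔ (a = u ∧ N.Adj (.inr false) (.inl j)) ∨
      (a = v ∧ N.Adj (.inr true) (.inl j)) := by
  rw [glueG, SimpleGraph.sup_adj, SimpleGraph.map_adj, SimpleGraph.map_adj]
  constructor
  · rintro (⟨p, q, h, h1, h2⟩ | ⟨p, q, h, h1, h2⟩)
    · exact absurd h2 (by simp)
    · rcases q with q | (q | q)
      · rw [← (Sum.inr.inj h2)]
        rcases p with i | (p | p)
        · exact absurd h1 (by simp [eG])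
        · exact Or.inl ⟨(Sum.inl.inj h1).symm, h⟩
        · exact Or.inr ⟨(Sum.inl.inj h1).symm, h⟩
      · exact absurd h2 (by simp [eG])
      · exact absurd h2 (by simp [eG])
  · rintro (⟨rfl, h⟩ | ⟨rfl, h⟩)
    · exact Or.inr ⟨_, _, h, rfl, rfl⟩
    · exact Or.inr ⟨_, _, h, rfl, rfl⟩

private theorem G6_rr {V J : Type} (K : SimpleGraph V) (u v : V) (huv : u ≠ v)
    (N : SimpleGraph (J ⊕ Bool)) (i j : J) :
    (glueG K u v huv N).Adj (.inr i) (.inr j) ↔ N.Adj (.inl i) (.inl j) := by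
  rw [glueG, SimpleGraph.sup_adj, SimpleGraph.map_adj, SimpleGraph.map_adj]
  constructor
  · rintro (⟨p, q, h, h1, h2⟩ | ⟨p, q, h, h1, h2⟩)
    · exact absurd h2 (by simp)
    · rcases p with p | (p | p)
      · rcases q with q | (q | q)
        · rw [← (Sum.inr.inj h2), ← (Sum.inr.inj h1)]
          exact h
        · exact absurd h2 (by simp [eG])
        · exact absurd h2 (by simp [eG])
      · exact absurd h1 (by simp [eG])
      · exact absurd h1 (by simp [eG])
  · intro h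
    exact Or.inr ⟨_, _, h, rfl, rfl⟩

private theorem G6_P4ft : ¬ P4.Adj (.inr false) (.inr true) := by
  simp [P4]

private theorem G6_P4cft : ¬ P4c.Adj (.inr false) (.inr true) := by
  simp [P4c]

private theorem G6_ext {V J : Type} {G H : SimpleGraph (V ⊕ J)}
    (h1 : ∀ a b, G.Adj (.inl a) (.inl b) ↔ H.Adj (.inl a) (.inl b))
    (h2 : ∀ a j, G.Adj (.inl a) (.inr j) ↔ H.Adj (.inl a) (.inr j))
    (h3 : ∀ i j, G.Adj (.inr i) (.inr j) ↔ H.Adj (.inr i) (.inr j)) : G = H := by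
  ext x y
  rcases x with a | i <;> rcases y with b | j
  · exact h1 a b
  · exact h2 a j
  · rw [G.adj_comm, H.adj_comm]
    exact h2 b i
  · exact h3 i j

theorem glue_delete {V : Type} (K : SimpleGraph V) (u v : V) (huv : u ≠ v) :
    (glueG K u v huv P4).deleteEdges {s(.inl u, .inl v)} =
      glueG (K.deleteEdges {s(u, v)}) u v huv P4 := by
  refine G6_ext (fun a b => ?_) (fun a j => ?_) (fun i j => ?_)
  · rw [SimpleGraph.deleteEdges_adj, G6_ll, G6_ll, SimpleGraph.deleteEdges_adj]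
    simp [G6_P4ft]
  · rw [SimpleGraph.deleteEdges_adj, G6_lr, G6_lr]
    simp
  · rw [SimpleGraph.deleteEdges_adj, G6_rr, G6_rr]
    simp

theorem glue_adj {V J : Type} (K : SimpleGraph V) (u v : V) (huv : u ≠ v)
    (huv' : (Sum.inl u : V ⊕ Fin 3) ≠ Sum.inl v) (N : SimpleGraph (J ⊕ Bool)) :
    (glueG (glueG K u v huv P4) (.inl u) (.inl v) huv' N).Adj (.inl (.inr 2)) (.inl (.inr 1)) := by
  rw [G6_ll, G6_rr]
  left
  simp [P4]

theorem glue_cut {V J : Type} (K : SimpleGraph V) (u v : V) (huv : u ≠ v)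
    (huv' : (Sum.inl u : V ⊕ Fin 3) ≠ Sum.inl v) (N : SimpleGraph (J ⊕ Bool)) :
    (glueG (glueG K u v huv P4) (.inl u) (.inl v) huv' N).deleteEdges
      {s(.inl (.inr 2), .inl (.inr 1))} =
      glueG (glueG K u v huv P4c) (.inl u) (.inl v) huv' N := by
  refine G6_ext (fun a b => ?_) (fun a j => ?_) (fun i j => ?_)
  · rw [SimpleGraph.deleteEdges_adj, G6_ll, G6_ll]
    rcases a with a | i <;> rcases b with b | j
    · rw [G6_ll, G6_ll]
      simp [G6_P4ft, G6_P4cft]
    · rw [G6_lr, G6_lr]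
      fin_cases j <;> simp [P4, P4c]
    · rw [SimpleGraph.adj_comm, G6_lr, SimpleGraph.adj_comm _ _ (Sum.inl b), G6_lr]
      fin_cases i <;> simp [P4, P4c]
    · rw [G6_rr, G6_rr]
      fin_cases i <;> fin_cases j <;> simp [P4, P4c]
  · rw [SimpleGraph.deleteEdges_adj, G6_lr, G6_lr]
    simp
  · rw [SimpleGraph.deleteEdges_adj, G6_rr, G6_rr]
    simp

theorem glue_mono {V J : Type} (K K' : SimpleGraph V) (h : K ≤ K') (u v : V) (huv : u ≠ v)
    (N : SimpleGraph (J ⊕ Bool)) : glueG K u v huv N ≤ glueG K' u v huv N := by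
  exact sup_le_sup_right (SimpleGraph.map_monotone _ h) _

end Pool.Agent.TH48
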