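import Pool.Agent.TH48.Defs3

/-!
# G7 (SHORT): remove an isolated vertex
`H = G.comap Subtype.val` on `{w // w ≠ v}`; `exists_chromPoly` gives `P'`; colourings of `G` are pairs (colour of `v`, colouring of `H`): `P = X * P'` at all naturals, so as polynomials
(`LibChromRoots.poly_eq_of_nat`). Drawing: `straight_comap`.
-/

set_option autoImplicit false

namespace Pool.Agent.TH48

open Pool.Agent.TC47 Polynomial

open Classical in
private noncomputable def G7_equiv {V : Type} (G : SimpleGraph V) (v : V) (hv : ∀ w, ¬ G.Adj v w)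
    (k : ℕ) : G.Coloring (Fin k) ≃
      Fin k × (G.comap (Subtype.val : {w // w ≠ v} → V)).Coloring (Fin k) where
  toFun C := (C v, SimpleGraph.Coloring.mk (fun w => C w.1) (fun {a b} hab => C.valid hab))
  invFun s := SimpleGraph.Coloring.mk (fun w => if h : w = v then s.1 else s.2 ⟨w, h⟩)
    (fun {a b} hab => by
      have ha : a ≠ v := by
        rintro rfl
        exact hv b hab
      have hb : b ≠ v := by
        rintro rfl
        exact hv a hab.symm
      rw [dif_neg ha, dif_neg hb]
      exact s.2.valid (v := ⟨a, ha⟩) (w := ⟨b, hb⟩) hab)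
  left_inv C := by
    ext w
    by_cases h : w = v
    · subst h
      show ((if h : w = w then C w else _ : Fin k) : ℕ) = C w
      rw [dif_pos rfl]
    · show ((if h : w = v then C v else C w : Fin k) : ℕ) = C w
      rw [dif_neg h]
  right_inv s := by
    rcases s with ⟨x, c⟩
    refine Prod.ext ?_ ?_
    · show (if h : v = v then x else _ : Fin k) = x
      rw [dif_pos rfl]
    · ext w
      show ((if h : w.1 = v then x else c ⟨w.1, h⟩ : Fin k) : ℕ) = c w
      rw [dif_neg w.2]

theorem remove_isolated {V : Type} [Fintype V] (G : SimpleGraph V) (hS : StraightPlanar G)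
    (v : V) (hv : ∀ w, ¬ G.Adj v w) (P : ℂ[X]) (hP : Ch3.IsChromaticPoly G P) (z : ℂ)
    (hz : z ≠ 0) (hPz : P.eval z = 0) :
    ∃ (H : SimpleGraph {w // w ≠ v}) (P' : ℂ[X]), StraightPlanar H ∧
      Ch3.IsChromaticPoly H P' ∧ P'.eval z = 0 := by
  classical
  obtain ⟨P', hP'⟩ := exists_chromPoly (G.comap (Subtype.val : {w // w ≠ v} → V))
  have hE : P = X * P' := by
    refine LibChromRoots.poly_eq_of_nat _ _ fun k => ?_
    rw [hP k, eval_mul, eval_X, hP' k, Nat.card_congr (G7_equiv G v hv k), Nat.card_prod,
      Nat.card_eq_fintype_card (α := Fin k), Fintype.card_fin, Nat.cast_mul]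
  refine ⟨_, P', straight_comap _ Subtype.val_injective G hS, hP', ?_⟩
  rw [hE, eval_mul, eval_X] at hPz
  exact (mul_eq_zero.1 hPz).resolve_left hz

end Pool.Agent.TH48
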