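import Pool.Agent.TH48.A0
import Pool.Agent.LibChromRoots.Zeros

/-!
# G8 (MEDIUM): roots near `z0` (Hurwitz)
`(PP 1).1 = X - 1`, `(PP 1).2 = X - 2`; `|z - 1| / |z - 2| ≤ ρ < 1` near `z0`. Divide the first polynomial by `(z - 2) ^ b`: `(Q - P) A4 ((z - 1)/(z - 2)) ^ b + P B4` (`A4 = (PP 3).1`, `B4 = (PP 3).2`)
tends for `b → ∞` to `P B4` uniformly near `z0`; this is a nonzero polynomial (`B4 ≠ 0`: `path_eval`, for instance at a point where `(1 - z) ^ 4 ≠ 1`), zero at `z0`. `LibChromRoots.hurwitz` (or `Ch3.exists_zero`) on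
a small closed ball on which `P B4` has no zero except `z0`, `Q ≠ 0`, `|z - 1| < 1 < |z - 2|` (so `z ≠ 0, 1`) gives `z`. If the second polynomial were 0 at this `z`, then `(Q - P) (z - 1) ^ b = -P (z - 2) ^ b` at `z`, so with the first one
`P (z - 2) ^ b (B4 - A4) = 0`; by `path_eval` `z (A4 - B4) = 1 - (1 - z) = z`, so `P(z) = 0`, then `(Q - P)(z) = 0`, so `Q(z) = 0`: contradiction.
-/

set_option autoImplicit false

namespace Pool.Agent.TH48

open Polynomial

private theorem G8_p1 (z : ℂ) : (PP 1).1.eval z = z - 1 := by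
  show ((X - 1) * (1 : ℂ[X])).eval z = z - 1
  rw [mul_one, eval_sub, eval_X, eval_one]

private theorem G8_p2 (z : ℂ) : (PP 1).2.eval z = z - 2 := by
  show ((0 : ℂ[X]) + (X - 2) * (1 : ℂ[X])).eval z = z - 2
  rw [mul_one, zero_add, eval_sub, eval_X, eval_ofNat]

private theorem G8_B4 : (PP 3).2 ≠ 0 := by
  intro h
  have h1 := (path_eval 3 (-1)).2
  rw [h, eval_zero] at h1
  norm_num at h1

theorem nir_ana (P Q : ℂ[X]) (hP : P ≠ 0) (z0 : ℂ) (h1 : ‖z0 - 1‖ < 1) (h2 : 1 < ‖z0 - 2‖)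
    (hP0 : P.eval z0 = 0) (hQ0 : Q.eval z0 ≠ 0) (ε : ℝ) (hε : 0 < ε) :
    ∃ (b : ℕ) (z : ℂ), ‖z - z0‖ < ε ∧
      ((Q - P) * (PP 3).1 * (PP 1).1 ^ b + P * (PP 3).2 * (PP 1).2 ^ b).eval z = 0 ∧
      ((Q - P) * (X - 1) ^ 3 * (PP 1).1 ^ b + P * (X - 1) ^ 3 * (PP 1).2 ^ b).eval z ≠ 0 := by
  classical
  have hopen : IsOpen {z : ℂ | ‖z - 1‖ < 1 ∧ 1 < ‖z - 2‖ ∧ Q.eval z ≠ 0} := by
    have a1 : Continuous fun z : ℂ => ‖z - 1‖ := by fun_prop
    have a2 : Continuous fun z : ℂ => ‖z - 2‖ := by fun_prop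
    exact (isOpen_lt a1 continuous_const).inter
      ((isOpen_lt continuous_const a2).inter (isOpen_ne_fun Q.continuous continuous_const))
  obtain ⟨δ, hδ, hball⟩ := Metric.isOpen_iff.1 hopen z0 ⟨h1, h2, hQ0⟩
  have hr0 : 0 < min ε δ := lt_min hε hδ
  have hg0 : P * (PP 3).2 ≠ 0 := mul_ne_zero hP G8_B4
  obtain ⟨r, hr, hrD⟩ := (Set.Ioo_infinite hr0).exists_notMem_finset
    ((P * (PP 3).2).roots.toFinset.image (fun w => dist w z0))
  have hrpos : 0 < r := hr.1
  have hrε : r < ε := lt_of_lt_of_le hr.2 (min_le_left _ _)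
  have hrδ : r < δ := lt_of_lt_of_le hr.2 (min_le_right _ _)
  have hsub : ∀ z ∈ Metric.closedBall z0 r, ‖z - 1‖ < 1 ∧ 1 < ‖z - 2‖ ∧ Q.eval z ≠ 0 := by
    intro z hz
    exact hball (lt_of_le_of_lt hz hrδ)
  have hz2 : ∀ z ∈ Metric.closedBall z0 r, z - 2 ≠ 0 := by
    intro z hz h
    have h3 := (hsub z hz).2.1
    rw [h, norm_zero] at h3
    linarith
  have hcomp : IsCompact (Metric.closedBall z0 r) := isCompact_closedBall z0 r
  have hne : (Metric.closedBall z0 r).Nonempty := ⟨z0, Metric.mem_closedBall_self hrpos.le⟩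
  have hqc : ContinuousOn (fun z : ℂ => (z - 1) / (z - 2)) (Metric.closedBall z0 r) :=
    (continuous_id.sub continuous_const).continuousOn.div
      (continuous_id.sub continuous_const).continuousOn hz2
  obtain ⟨z1, hz1, hmax⟩ := hcomp.exists_isMaxOn hne hqc.norm
  set ρ : ℝ := ‖(z1 - 1) / (z1 - 2)‖ with hρ
  have hρ0 : 0 ≤ ρ := norm_nonneg _
  have hρ1 : ρ < 1 := by
    obtain ⟨a1, a2, -⟩ := hsub z1 hz1
    rw [hρ, norm_div, div_lt_one (by linarith)]
    linarith
  obtain ⟨C, hC⟩ := hcomp.exists_bound_of_continuousOn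
    ((Q - P) * (PP 3).1).continuous.continuousOn
  have hC0 : 0 ≤ C := (norm_nonneg _).trans (hC z0 (Metric.mem_closedBall_self hrpos.le))
  have hunif : TendstoUniformlyOn
      (fun (b : ℕ) z => ((Q - P) * (PP 3).1).eval z * ((z - 1) / (z - 2)) ^ b +
        (P * (PP 3).2).eval z)
      (fun z => (P * (PP 3).2).eval z) Filter.atTop (Metric.closedBall z0 r) := by
    rw [Metric.tendstoUniformlyOn_iff]
    intro η hη
    have hpow : Filter.Tendsto (fun n : ℕ => C * ρ ^ n) Filter.atTop (nhds (C * 0)) :=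
      (tendsto_pow_atTop_nhds_zero_of_lt_one hρ0 hρ1).const_mul C
    rw [mul_zero] at hpow
    filter_upwards [hpow.eventually (gt_mem_nhds hη)] with n hn
    intro z hz
    rw [dist_comm, dist_eq_norm, add_sub_cancel_right, norm_mul, norm_pow]
    refine lt_of_le_of_lt ?_ hn
    exact mul_le_mul (hC z hz) (pow_le_pow_left₀ (norm_nonneg _) (hmax hz) _) (by positivity) hC0
  have hev := LibChromRoots.hurwitz
    (fun (b : ℕ) z => ((Q - P) * (PP 3).1).eval z * ((z - 1) / (z - 2)) ^ b +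
        (P * (PP 3).2).eval z)
    (fun z => (P * (PP 3).2).eval z) z0 r hrpos
    (Filter.Eventually.of_forall fun n => by
      apply DifferentiableOn.diffContOnCl
      rw [closure_ball z0 hrpos.ne']
      have hq : DifferentiableOn ℂ (fun z : ℂ => (z - 1) / (z - 2)) (Metric.closedBall z0 r) :=
        (differentiable_id.sub_const 1).differentiableOn.div
          (differentiable_id.sub_const 2).differentiableOn hz2
      exact (((Q - P) * (PP 3).1).differentiable.differentiableOn.mul (hq.pow n)).add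
        (P * (PP 3).2).differentiable.differentiableOn)
    (by
      show (P * (PP 3).2).eval z0 = 0
      rw [eval_mul, hP0, zero_mul])
    (P * (PP 3).2).continuous.continuousOn
    (by
      intro z hz h
      apply hrD
      refine Finset.mem_image.2 ⟨z, ?_, hz⟩
      rw [Multiset.mem_toFinset, mem_roots hg0]
      exact h)
    hunif
  obtain ⟨b, z, hz, hfz⟩ := hev.exists
  have hzn : ‖z - z0‖ ≤ r := by
    rw [← dist_eq_norm]
    exact hz
  obtain ⟨b1, b2, b3⟩ := hsub z hz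
  have hw := hz2 z hz
  have hwb : (z - 2) ^ b ≠ 0 := pow_ne_zero _ hw
  have hzz : z ≠ 0 := by
    intro h
    rw [h, zero_sub, norm_neg, norm_one] at b1
    exact lt_irrefl _ b1
  have hz1' : z - 1 ≠ 0 := by
    intro h
    have e1 : z - 2 = -1 := by
      have : z = 1 := sub_eq_zero.1 h
      rw [this]
      norm_num
    rw [e1, norm_neg, norm_one] at b2
    exact lt_irrefl _ b2
  have hF : (Q.eval z - P.eval z) * (PP 3).1.eval z * (z - 1) ^ b +
      P.eval z * (PP 3).2.eval z * (z - 2) ^ b = 0 := by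
    have h3 : ((Q - P) * (PP 3).1).eval z * ((z - 1) / (z - 2)) ^ b +
        (P * (PP 3).2).eval z = 0 := hfz
    rw [eval_mul, eval_mul, eval_sub, div_pow] at h3
    have h4 : (z - 1) ^ b = (z - 1) ^ b / (z - 2) ^ b * (z - 2) ^ b := by
      rw [div_mul_cancel₀ _ hwb]
    rw [h4]
    linear_combination (z - 2) ^ b * h3
  refine ⟨b, z, lt_of_le_of_lt hzn hrε, ?_, ?_⟩
  · rw [eval_add, eval_mul, eval_mul, eval_mul, eval_mul, eval_sub, eval_pow, eval_pow, G8_p1,
      G8_p2]
    exact hF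
  · intro h
    rw [eval_add, eval_mul, eval_mul, eval_mul, eval_mul, eval_sub, eval_pow, eval_pow, eval_pow,
      G8_p1, G8_p2, eval_sub, eval_X, eval_one] at h
    obtain ⟨c1, c2⟩ := path_eval 3 z
    have hAB : (PP 3).1.eval z - (PP 3).2.eval z = 1 := by
      apply mul_left_cancel₀ hzz
      linear_combination c1 - c2
    have h3 : (z - 1) ^ 3 * ((Q.eval z - P.eval z) * (z - 1) ^ b + P.eval z * (z - 2) ^ b) = 0 := by
      linear_combination h
    have h4 := (mul_eq_zero.1 h3).resolve_left (pow_ne_zero _ hz1')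
    have h5 : P.eval z * (z - 2) ^ b = 0 := by
      linear_combination (PP 3).1.eval z * h4 - hF - P.eval z * (z - 2) ^ b * hAB
    have h6 : P.eval z = 0 := (mul_eq_zero.1 h5).resolve_right hwb
    rw [h6, zero_mul, add_zero, sub_zero] at h4
    exact b3 ((mul_eq_zero.1 h4).resolve_right (pow_ne_zero _ hz1'))

end Pool.Agent.TH48
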