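import Pool.Agent.TH48.Final2
import Pool.Agent.TH48.G1
import Pool.Agent.TH48.G2
import Pool.Agent.TH48.G3
import Pool.Agent.TH48.G4
import Pool.Agent.TH48.G5
import Pool.Agent.TH48.G6
import Pool.Agent.TH48.G7
import Pool.Agent.TH48.G8

/-!
# No isolated roots
-/

set_option autoImplicit false

namespace Pool.Agent.TH48

open Pool.Agent.TC47 Polynomial

private theorem G9_sup {V J : Type} (K : SimpleGraph V) (u v : V) (huv : u ≠ v)
    (N : SimpleGraph (J ⊕ Bool)) :
    glueG K u v huv N ⊔ SimpleGraph.edge (Sum.inl u) (Sum.inl v) =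
      glueG (K ⊔ SimpleGraph.edge u v) u v huv N := by
  ext x y
  simp only [glueG, SimpleGraph.sup_adj, SimpleGraph.map_adj, SimpleGraph.edge_adj,
    Function.Embedding.inl_apply]
  constructor
  · rintro ((⟨a, b, h, rfl, rfl⟩ | h) | ⟨h1 | h1, h2⟩)
    · exact Or.inl ⟨a, b, Or.inl h, rfl, rfl⟩
    · exact Or.inr h
    · exact Or.inl ⟨u, v, Or.inr ⟨Or.inl ⟨rfl, rfl⟩, huv⟩, h1.1.symm, h1.2.symm⟩
    · exact Or.inl ⟨v, u, Or.inr ⟨Or.inr ⟨rfl, rfl⟩, huv.symm⟩, h1.1.symm, h1.2.symm⟩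
  · rintro (⟨a, b, h | ⟨h | h, -⟩, rfl, rfl⟩ | h)
    · exact Or.inl (Or.inl ⟨a, b, h, rfl, rfl⟩)
    · obtain ⟨rfl, rfl⟩ := h
      exact Or.inr ⟨Or.inl ⟨rfl, rfl⟩, fun h => huv (Sum.inl_injective h)⟩
    · obtain ⟨rfl, rfl⟩ := h
      exact Or.inr ⟨Or.inr ⟨rfl, rfl⟩, fun h => huv (Sum.inl_injective h).symm⟩
    · exact Or.inl (Or.inr h)

/-- the polynomials of the big graph -/
private theorem G9_poly {V J : Type} [Fintype V] [Fintype J] (G : SimpleGraph V) (u v : V)
    (huv : G.Adj u v) (hK : (Sum.inl u : V ⊕ Fin 3) ≠ Sum.inl v) (N : SimpleGraph (J ⊕ Bool))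
    (A B : ℂ[X]) (hc : Counts N A B) (P Q : ℂ[X]) (hP : Ch3.IsChromaticPoly G P)
    (hQ : Ch3.IsChromaticPoly (G.deleteEdges {s(u, v)}) Q) (M : SimpleGraph (Fin 3 ⊕ Bool))
    (C D : ℂ[X]) (hM : Counts M C D) :
    Ch3.IsChromaticPoly (glueG (glueG (G.deleteEdges {s(u, v)}) u v huv.ne M) (Sum.inl u)
      (Sum.inl v) hK N) ((Q - P) * C * A + P * D * B) := by
  have hdel := delete_sup_edge G u v huv
  have hP' : Ch3.IsChromaticPoly (G ⊔ SimpleGraph.edge u v) P := by
    rw [sup_edge_self G u v huv]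
    exact hP
  have hP2 : Ch3.IsChromaticPoly (G.deleteEdges {s(u, v)} ⊔ SimpleGraph.edge u v) P := by
    rw [hdel]
    exact hP
  have c1 := glue_poly G u v huv.ne M C D hM P P hP' hP
  have c2 := glue_poly (G.deleteEdges {s(u, v)}) u v huv.ne M C D hM P Q hP2 hQ
  have c1' : Ch3.IsChromaticPoly (glueG (G.deleteEdges {s(u, v)}) u v huv.ne M ⊔
      SimpleGraph.edge (Sum.inl u) (Sum.inl v)) ((P - P) * C + P * D) := by
    rw [G9_sup, hdel]
    exact c1
  have c3 := glue_poly (glueG (G.deleteEdges {s(u, v)}) u v huv.ne M) (Sum.inl u) (Sum.inl v)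
    hK N A B hc _ _ c1' c2
  have h : ((Q - P) * C + P * D - ((P - P) * C + P * D)) * A + ((P - P) * C + P * D) * B =
      (Q - P) * C * A + P * D * B := by
    ring
  rw [h] at c3
  exact c3

private theorem G9_im (y : ℂ) (hy : -1 < y.im) :
    0 < ((y - (-1 - Complex.I)) / (1 - Complex.I - (-1 - Complex.I))).im := by
  have h3 : (y - (-1 - Complex.I)) / (1 - Complex.I - (-1 - Complex.I)) =
      ((1 / 2 : ℝ) : ℂ) * (y + 1 + Complex.I) := by
    have h4 : (1 - Complex.I - (-1 - Complex.I)) = 2 := by ring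
    rw [h4]
    push_cast
    ring
  rw [h3, Complex.im_ofReal_mul]
  simp only [Complex.add_im, Complex.one_im, Complex.I_im]
  linarith

theorem nir_step {V : Type} [Fintype V] (G : SimpleGraph V) (g : V → ℂ) (hg : Drawing G g)
    (u v : V) (huv : G.Adj u v) (hv : g v = 0) (hu : g u = Complex.I)
    (him : ∀ w, w ≠ v → 0 < (g w).im) (hre : ∀ w, G.Adj v w → w ≠ u → (g w).re < 0)
    (P Q : ℂ[X]) (hP : Ch3.IsChromaticPoly G P)
    (hQ : Ch3.IsChromaticPoly (G.deleteEdges {s(u, v)}) Q) (z0 : ℂ) (h1 : ‖z0 - 1‖ < 1)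
    (h2 : 1 < ‖z0 - 2‖) (hP0 : P.eval z0 = 0) (hQ0 : Q.eval z0 ≠ 0) :
    z0 ∈ closure (interior (closure threeConnRoots)) := by
  rw [Metric.mem_closure_iff]
  intro ε hε
  have hopen : IsOpen {w : ℂ | ‖w - 1‖ < 1 ∧ 1 < ‖w - 2‖} := by
    have c2 := (continuous_id.sub (continuous_const (y := (2 : ℂ)))).norm
    have c1 := (continuous_id.sub (continuous_const (y := (1 : ℂ)))).norm
    exact IsOpen.inter (isOpen_lt c1 continuous_const) (isOpen_lt continuous_const c2)
  obtain ⟨r, hr, hball⟩ := Metric.isOpen_iff.1 hopen z0 ⟨h1, h2⟩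
  obtain ⟨b, z, hz, hz0, hzn⟩ := nir_ana P Q (chromatic_ne_zero G P hP) z0 h1 h2 hP0 hQ0
    (min ε r) (lt_min hε hr)
  have hzr : ‖z - 1‖ < 1 ∧ 1 < ‖z - 2‖ := hball (by
    rw [Metric.mem_ball, dist_eq_norm]
    exact lt_of_lt_of_le hz (min_le_right _ _))
  refine ⟨z, ?_, by
    rw [dist_comm, dist_eq_norm]
    exact lt_of_lt_of_le hz (min_le_left _ _)⟩
  obtain ⟨J, _, N, hN, hc⟩ := net_pow _ _ (net_path 1) b
  obtain ⟨F, η, hF, hFx, hη0, hη1, hF0, hF1, hF2⟩ := glue_tail G g hg u v huv hv hu him hre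
  have hK : (glueG G u v huv.ne P4).Adj (Sum.inl u) (Sum.inl v) :=
    Or.inl ((SimpleGraph.map_adj_apply (f := Function.Embedding.inl)).2 huv)
  obtain ⟨F', hF', hFx', hFj⟩ := glue_thin _ F hF (Sum.inl u) (Sum.inl v) hK N hN (1 / 4)
    (by norm_num)
  have hK0 := glue_delete G u v huv.ne
  have c3 := G9_poly G u v huv hK.ne N _ _ hc P Q hP hQ P4 _ _ counts_P4
  have d3 := G9_poly G u v huv hK.ne N _ _ hc P Q hP hQ P4c _ _ counts_P4c
  rw [← glue_cut (G.deleteEdges {s(u, v)}) u v huv.ne hK.ne N] at d3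
  have hDr : Drawing (glueG (glueG (G.deleteEdges {s(u, v)}) u v huv.ne P4) (Sum.inl u)
      (Sum.inl v) hK.ne N) F' := by
    refine drawing_mono (glue_mono _ _ ?_ _ _ _ _) F' hF'
    rw [← hK0]
    exact SimpleGraph.deleteEdges_le _
  have e2 : F' (.inl (.inr 2)) = -1 - Complex.I := by rw [hFx', hF2]
  have e1 : F' (.inl (.inr 1)) = 1 - Complex.I := by rw [hFx', hF1]
  have hadj := glue_adj (G.deleteEdges {s(u, v)}) u v huv.ne hK.ne N
  have key : ∀ w, -1 < (F' w).im → 0 < ((F' w - F' (.inl (.inr 2))) /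
      (F' (.inl (.inr 1)) - F' (.inl (.inr 2)))).im := by
    intro w hw
    rw [e1, e2]
    exact G9_im _ hw
  have hull : ∀ w, w ≠ (.inl (.inr 2)) → w ≠ (.inl (.inr 1)) → 0 < ((F' w - F' (.inl (.inr 2))) /
      (F' (.inl (.inr 1)) - F' (.inl (.inr 2)))).im := by
    intro w hw1 hw2
    refine key w ?_
    rcases w with (x | i) | j
    · rw [hFx', hFx]
      rcases eq_or_ne x v with rfl | hx
      · rw [hv]; norm_num
      · have := him x hx; linarith
    · have hi : i = 0 := by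
        fin_cases i
        · rfl
        · exact absurd rfl hw2
        · exact absurd rfl hw1
      rw [hi, hFx', hF0]
      simp
      linarith
    · have h3 := hFj j
      rw [hFx, hFx, hv, hu] at h3
      have h4 := (Complex.abs_im_le_norm _).trans h3.le
      have h5 := (abs_le.1 h4).1
      simp at h5
      linarith
  have hfin := fun P' Q' hP' hQ' => interior_root (V := (V ⊕ Fin 3) ⊕ J) _ _ _ hadj F' hDr hull
    P' Q' hP' hQ' z hzr.1 hzr.2
  have hfin2 := hfin _ _ c3 d3
  exact hfin2 hz0 hzn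

private theorem G9_empty {V : Type} [IsEmpty V] (G : SimpleGraph V) (P : ℂ[X])
    (hP : Ch3.IsChromaticPoly G P) : P = 1 := by
  apply LibChromRoots.poly_eq_of_nat
  intro k
  have h : Nat.card (G.Coloring (Fin k)) = 1 := by
    rw [Nat.card_eq_one_iff_unique]
    refine ⟨⟨fun a b => RelHom.ext fun x => (IsEmpty.false x).elim⟩, ⟨SimpleGraph.Coloring.mk
      (fun x => (IsEmpty.false x).elim) (fun {a b} _ => (IsEmpty.false a).elim)⟩⟩
  rw [hP k, h, eval_one, Nat.cast_one]

theorem nir_all : ∀ (n : ℕ) (V : Type) [Fintype V], Fintype.card V = n → ∀ (m : ℕ)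
    (G : SimpleGraph V), G.edgeSet.ncard = m → StraightPlanar G → ∀ (P : ℂ[X]) (z : ℂ),
    Ch3.IsChromaticPoly G P → P.eval z = 0 → ‖z - 1‖ < 1 → 1 < ‖z - 2‖ →
    z ∈ closure (interior (closure threeConnRoots)) := by
  intro n
  induction n using Nat.strong_induction_on with
  | _ n ihn =>
    intro V _ hV m
    induction m using Nat.strong_induction_on with
    | _ m ihm =>
      intro G hm hS P z hP hz h1 h2
      rcases isEmpty_or_nonempty V with hE | hN
      · exfalso
        rw [G9_empty G P hP, eval_one] at hz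
        exact one_ne_zero hz
      · obtain ⟨f, hf⟩ := hS
        obtain ⟨v, g, hg, hv, him, hiso | ⟨u, huv, hu, hre⟩⟩ := normal_position G f hf
        · have hz0 : z ≠ 0 := by
            rintro rfl
            norm_num at h1
          obtain ⟨H, P', hHS, hP', hz'⟩ := remove_isolated G ⟨f, hf⟩ v hiso P hP z hz0 hz
          classical
          have hlt : Fintype.card {w // w ≠ v} < n := by
            rw [← hV]
            exact Fintype.card_subtype_lt (x := v) (by simp)
          exact ihn _ hlt {w // w ≠ v} rfl _ H rfl hHS P' z hP' hz' h1 h2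
        · obtain ⟨Q, hQ⟩ := exists_chromPoly (G.deleteEdges {s(u, v)})
          by_cases hQ0 : Q.eval z = 0
          · have hlt : (G.deleteEdges {s(u, v)}).edgeSet.ncard < m := by
              rw [← hm]
              refine Set.ncard_lt_ncard ?_ (Set.toFinite _)
              rw [SimpleGraph.edgeSet_deleteEdges]
              refine ⟨Set.sdiff_subset, fun h => ?_⟩
              have h3 : s(u, v) ∈ G.edgeSet := huv.symm
              exact (h h3).2 rfl
            exact ihm _ hlt (G.deleteEdges {s(u, v)}) rfl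
              ⟨f, drawing_mono (SimpleGraph.deleteEdges_le _) f hf⟩ Q z hQ hQ0 h1 h2
          · exact nir_step G g hg u v huv.symm hv hu him hre P Q hP hQ z h1 h2 hz hQ0

/-- no isolated roots: a limit of chromatic roots of planar graphs is a limit of inner points of
the closure of the chromatic roots of 3-connected planar graphs -/
theorem nir (z : ℂ) (hz : z ∈ closure planarRoots) (h1 : ‖z - 1‖ < 1) (h2 : 1 < ‖z - 2‖) :
    z ∈ closure (interior (closure threeConnRoots)) := by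
  have hopen : IsOpen {w : ℂ | ‖w - 1‖ < 1 ∧ 1 < ‖w - 2‖} := by
    have c2 := (continuous_id.sub (continuous_const (y := (2 : ℂ)))).norm
    have c1 := (continuous_id.sub (continuous_const (y := (1 : ℂ)))).norm
    exact IsOpen.inter (isOpen_lt c1 continuous_const) (isOpen_lt continuous_const c2)
  obtain ⟨r, hr, hball⟩ := Metric.isOpen_iff.1 hopen z ⟨h1, h2⟩
  rw [← closure_closure, Metric.mem_closure_iff]
  rw [Metric.mem_closure_iff] at hz
  intro ε hε
  obtain ⟨w, ⟨n, G, hG, P, hP, hw⟩, hzw⟩ := hz (min ε r) (lt_min hε hr)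
  have hwr := hball (show w ∈ Metric.ball z r by
    rw [Metric.mem_ball, dist_comm]
    exact lt_of_lt_of_le hzw (min_le_right _ _))
  exact ⟨w, nir_all _ (Fin n) rfl _ G rfl hG P w hP hw hwr.1 hwr.2,
    lt_of_lt_of_le hzw (min_le_left _ _)⟩

end Pool.Agent.TH48
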