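import Pool.Agent.TH48.Defs

/-!
# P0 (SHORT): images of straight-line drawings
`T` injective on `S`, all points of the segments of edges are in `S` (hypothesis: `S` convex, vertices
in `S`), and the segment between `T p`, `T q` is inside the image of the segment between `p`, `q`: then
`T ∘ f` is a drawing. If `T (f w) ∈ segment (T (f u)) (T (f v)) ⊆ T '' segment (f u) (f v)`, then by injectivity
`f w ∈ segment (f u) (f v)`; the same for a common point of two segments.
-/

set_option autoImplicit false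

namespace Pool.Agent.TH48

open Pool.Agent.TC47

theorem drawing_image {V : Type} (G : SimpleGraph V) (f : V → ℂ) (hf : Drawing G f) (S : Set ℂ)
    (hS : Convex ℝ S) (hfS : ∀ v, f v ∈ S) (T : ℂ → ℂ) (hT : Set.InjOn T S)
    (hseg : ∀ p ∈ S, ∀ q ∈ S, segment ℝ (T p) (T q) ⊆ T '' segment ℝ p q) :
    Drawing G (T ∘ f) := by
  obtain ⟨h1, h2, h3⟩ := hf
  have hsub : ∀ u v : V, segment ℝ (f u) (f v) ⊆ S := fun u v =>
    hS.segment_subset (hfS u) (hfS v)
  refine ⟨?_, ?_, ?_⟩
  · intro u v huv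
    exact h1 (hT (hfS u) (hfS v) huv)
  · intro u v w huv hwu hwv hw
    obtain ⟨p, hp, hpw⟩ := hseg (f u) (hfS u) (f v) (hfS v) hw
    have hpe : p = f w := hT (hsub u v hp) (hfS w) hpw
    rw [hpe] at hp
    exact h2 u v w huv hwu hwv hp
  · intro u v x y huv hxy a1 a2 a3 a4
    rw [Set.disjoint_left]
    intro z hz1 hz2
    obtain ⟨p, hp, hpz⟩ := hseg (f u) (hfS u) (f v) (hfS v) hz1
    obtain ⟨q, hq, hqz⟩ := hseg (f x) (hfS x) (f y) (hfS y) hz2
    have hpq : p = q := hT (hsub u v hp) (hsub x y hq) (hpz.trans hqz.symm)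
    rw [← hpq] at hq
    exact Set.disjoint_left.1 (h3 u v x y huv hxy a1 a2 a3 a4) hp hq

/-- a complex affine map keeps drawings -/
theorem drawing_affine {V : Type} (G : SimpleGraph V) (f : V → ℂ) (hf : Drawing G f) (a b : ℂ)
    (ha : a ≠ 0) : Drawing G (fun v => a * f v + b) := by
  refine drawing_image G f hf Set.univ convex_univ (fun _ => Set.mem_univ _)
    (fun z => a * z + b) ?_ ?_
  · intro z _ w _ hzw
    have h : a * z + b = a * w + b := hzw
    exact mul_left_cancel₀ ha (add_right_cancel h)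
  · rintro p - q - z ⟨s, t, hs, ht, hst, rfl⟩
    refine ⟨s • p + t • q, ⟨s, t, hs, ht, hst, rfl⟩, ?_⟩
    have hst' : (s : ℂ) + (t : ℂ) = 1 := by
      rw [← Complex.ofReal_add, hst, Complex.ofReal_one]
    simp only [Complex.real_smul]
    have hb : b = ((s : ℂ) + (t : ℂ)) * b := by rw [hst', one_mul]
    calc a * ((s : ℂ) * p + (t : ℂ) * q) + b
        = a * ((s : ℂ) * p + (t : ℂ) * q) + ((s : ℂ) + (t : ℂ)) * b := by rw [← hb]
      _ = (s : ℂ) * (a * p + b) + (t : ℂ) * (a * q + b) := by ring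

end Pool.Agent.TH48
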