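import Pool.Agent.TH48.P0

/-!
# P1 (MEDIUM): the projective map
For `M > 0` put `T z = ((z.re + M * c.re * z.im) + (M * c.im * z.im) * I) / (1 + M * z.im)` on `S = {0 ≤ im z}`.
`T 0 = 0`, `T 1 = 1`, `T` keeps the open upper half-plane, it is injective on `S` (the imaginary part
`M c.im y / (1 + M y)` determines `y`, then the real part determines `x`). For `λ + μ = 1`, `λ, μ ≥ 0`,
`T (λ p + μ q) = (λ (1 + M p.im) T p + μ (1 + M q.im) T q) / (λ (1 + M p.im) + μ (1 + M q.im))`, so with
`λ' T p + μ' T q` given take `λ = λ' (1 + M q.im) / (λ' (1 + M q.im) + μ' (1 + M p.im))`. Apply `drawing_image`.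
For `z.im > 0` the limit of `T z` for `M → ∞` is `c`; `I` is finite, so some `M` is good for all `i`.
-/

set_option autoImplicit false

namespace Pool.Agent.TH48

open Pool.Agent.TC47

/-- the projective map -/
private noncomputable def P1_T (c : ℂ) (M : ℝ) (z : ℂ) : ℂ :=
  ⟨(z.re + M * c.re * z.im) / (1 + M * z.im), (M * c.im * z.im) / (1 + M * z.im)⟩

private theorem P1_inj (c : ℂ) (hc : 0 < c.im) (M : ℝ) (hM : 0 < M) :
    Set.InjOn (P1_T c M) {z : ℂ | 0 ≤ z.im} := by
  intro p hp q hq h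
  have hp' : 0 ≤ p.im := hp
  have hq' : 0 ≤ q.im := hq
  have dp : 0 < 1 + M * p.im := by positivity
  have dq : 0 < 1 + M * q.im := by positivity
  have h1 : (p.re + M * c.re * p.im) / (1 + M * p.im) = (q.re + M * c.re * q.im) / (1 + M * q.im) :=
    congrArg Complex.re h
  have h2 : (M * c.im * p.im) / (1 + M * p.im) = (M * c.im * q.im) / (1 + M * q.im) :=
    congrArg Complex.im h
  rw [div_eq_div_iff dp.ne' dq.ne'] at h1 h2
  have h3 : M * c.im * (p.im - q.im) = 0 := by linarith
  have h4 : p.im = q.im := by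
    rcases mul_eq_zero.1 h3 with h5 | h5
    · exact absurd h5 (by positivity)
    · linarith
  rw [h4] at h1
  have h6 := mul_right_cancel₀ dq.ne' h1
  have h7 : p.re = q.re := by linarith
  exact Complex.ext h7 h4

private theorem P1_seg (c : ℂ) (M : ℝ) (hM : 0 < M) (p : ℂ) (hp : 0 ≤ p.im) (q : ℂ)
    (hq : 0 ≤ q.im) : segment ℝ (P1_T c M p) (P1_T c M q) ⊆ P1_T c M '' segment ℝ p q := by
  rintro w ⟨a, b, ha, hb, hab, rfl⟩
  have dp : 0 < 1 + M * p.im := by positivity
  have dq : 0 < 1 + M * q.im := by positivity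
  set Dp : ℝ := 1 + M * p.im with hDp
  set Dq : ℝ := 1 + M * q.im with hDq
  have hK : 0 < a * Dq + b * Dp := by
    rcases lt_or_eq_of_le ha with h | h
    · have := mul_pos h dq
      have := mul_nonneg hb dp.le
      linarith
    · have hb1 : b = 1 := by linarith
      rw [← h, hb1]
      linarith
  set K : ℝ := a * Dq + b * Dp with hKd
  refine ⟨(a * Dq / K) • p + (b * Dp / K) • q, ⟨a * Dq / K, b * Dp / K, by positivity,
    by positivity, ?_, rfl⟩, ?_⟩
  · rw [← add_div, ← hKd, div_self hK.ne']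
  · have hre : ((a * Dq / K) • p + (b * Dp / K) • q).re = a * Dq / K * p.re + b * Dp / K * q.re := by
      simp
    have him : ((a * Dq / K) • p + (b * Dp / K) • q).im = a * Dq / K * p.im + b * Dp / K * q.im := by
      simp
    have hD : 1 + M * (a * Dq / K * p.im + b * Dp / K * q.im) = Dp * Dq / K := by
      rw [eq_div_iff hK.ne']
      have e1 : (1 + M * (a * Dq / K * p.im + b * Dp / K * q.im)) * K =
          K + M * (a * Dq * p.im + b * Dp * q.im) := by
        field_simp
      rw [e1, hKd]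
      have e2 : M * (a * Dq * p.im + b * Dp * q.im) = a * Dq * (Dp - 1) + b * Dp * (Dq - 1) := by
        rw [hDp, hDq]
        ring
      rw [e2]
      have e3 : b = 1 - a := by linarith
      rw [e3]
      ring
    have hDD : 0 < Dp * Dq / K := by positivity
    apply Complex.ext
    · show (((a * Dq / K) • p + (b * Dp / K) • q).re +
          M * c.re * ((a * Dq / K) • p + (b * Dp / K) • q).im) /
          (1 + M * ((a * Dq / K) • p + (b * Dp / K) • q).im) = (a • P1_T c M p + b • P1_T c M q).re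
      have hr : (a • P1_T c M p + b • P1_T c M q).re =
          a * ((p.re + M * c.re * p.im) / Dp) + b * ((q.re + M * c.re * q.im) / Dq) := by
        simp [P1_T, hDp, hDq]
      rw [hr, hre, him, hD, div_eq_iff hDD.ne']
      field_simp
      ring
    · show (M * c.im * ((a * Dq / K) • p + (b * Dp / K) • q).im) /
          (1 + M * ((a * Dq / K) • p + (b * Dp / K) • q).im) = (a • P1_T c M p + b • P1_T c M q).im
      have hr : (a • P1_T c M p + b • P1_T c M q).im =
          a * ((M * c.im * p.im) / Dp) + b * ((M * c.im * q.im) / Dq) := by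
        simp [P1_T, hDp, hDq]
      rw [hr, him, hD, div_eq_iff hDD.ne']
      field_simp

private theorem P1_near (c : ℂ) (hc : 0 < c.im) (M : ℝ) (hM : 0 < M) (ε : ℝ) (hε : 0 < ε) (z : ℂ)
    (hz : 0 < z.im) (h : (|z.re - c.re| + c.im) / (ε * z.im) ≤ M) : ‖P1_T c M z - c‖ < ε := by
  have hD : 0 < 1 + M * z.im := by positivity
  have h1 : P1_T c M z - c =
      ⟨(z.re - c.re) / (1 + M * z.im), -(c.im / (1 + M * z.im))⟩ := by
    apply Complex.ext
    · show (z.re + M * c.re * z.im) / (1 + M * z.im) - c.re = (z.re - c.re) / (1 + M * z.im)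
      rw [eq_div_iff hD.ne', sub_mul, div_mul_cancel₀ _ hD.ne']
      ring
    · show (M * c.im * z.im) / (1 + M * z.im) - c.im = -(c.im / (1 + M * z.im))
      rw [← neg_div, eq_div_iff hD.ne', sub_mul, div_mul_cancel₀ _ hD.ne']
      ring
  rw [h1]
  refine (Complex.norm_le_abs_re_add_abs_im _).trans_lt ?_
  show |(z.re - c.re) / (1 + M * z.im)| + |-(c.im / (1 + M * z.im))| < ε
  rw [abs_neg, abs_div, abs_div, abs_of_pos hD, abs_of_pos hc, ← add_div, div_lt_iff₀ hD]
  have hez : 0 < ε * z.im := by positivity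
  rw [div_le_iff₀ hez] at h
  nlinarith

theorem hull_near {I : Type} [Finite I] (G : SimpleGraph (I ⊕ Bool)) (f : I ⊕ Bool → ℂ)
    (h : Hull G f) (c : ℂ) (hc : 0 < c.im) (ε : ℝ) (hε : 0 < ε) :
    ∃ f' : I ⊕ Bool → ℂ, Hull G f' ∧ ∀ i, ‖f' (.inl i) - c‖ < ε := by
  obtain ⟨hd, h0, h1, hi⟩ := h
  obtain ⟨M0, hM0⟩ := Finite.exists_le
    (fun i : I => (|(f (.inl i)).re - c.re| + c.im) / (ε * (f (.inl i)).im))
  set M : ℝ := max M0 1 with hMd
  have hM : 0 < M := lt_of_lt_of_le one_pos (le_max_right _ _)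
  have hS : Convex ℝ {z : ℂ | 0 ≤ z.im} := by
    have := convex_halfSpace_ge (𝕜 := ℝ) (f := fun z : ℂ => z.im)
      (IsLinearMap.mk (fun a b => Complex.add_im a b) (fun r a => by simp)) 0
    exact this
  have hfS : ∀ v, f v ∈ {z : ℂ | 0 ≤ z.im} := by
    rintro (i | (b | b))
    · exact (hi i).le
    · show 0 ≤ (f (.inr false)).im
      rw [h0]
      simp
    · show 0 ≤ (f (.inr true)).im
      rw [h1]
      simp
  refine ⟨P1_T c M ∘ f, ⟨?_, ?_, ?_, ?_⟩, ?_⟩
  · exact drawing_image G f hd _ hS hfS (P1_T c M) (P1_inj c hc M hM)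
      (fun p hp q hq => P1_seg c M hM p hp q hq)
  · show P1_T c M (f (.inr false)) = 0
    rw [h0]
    apply Complex.ext
    · simp [P1_T]
    · simp [P1_T]
  · show P1_T c M (f (.inr true)) = 1
    rw [h1]
    apply Complex.ext
    · simp [P1_T]
    · simp [P1_T]
  · intro i
    have hy := hi i
    show 0 < (M * c.im * (f (.inl i)).im) / (1 + M * (f (.inl i)).im)
    positivity
  · intro i
    exact P1_near c hc M hM ε hε _ (hi i) ((hM0 i).trans (le_max_left _ _))

end Pool.Agent.TH48
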